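import Pool.Agent.H.MP_ac3185_nt.D14.Defs

/-! Linear algebra over the field with two elements, for characters with values `±1`. -/

set_option autoImplicit false

namespace Pool.Agent.H.MP_ac3185_nt.D14

private theorem char_sg_mul (a b : ℤˣ) : sg (a * b) = sg a + sg b := by
  have h2 : (1 : ZMod 2) + 1 = 0 := rfl
  have hn : (-1 : ℤˣ) ≠ 1 := by decide
  rcases Int.units_eq_one_or a with rfl | rfl <;> rcases Int.units_eq_one_or b with rfl | rfl <;>
    simp [sg, hn, h2]

private theorem char_sg_one : sg 1 = 0 := by simp [sg]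

private theorem char_sg_zero {a : ℤˣ} (h : sg a = 0) : a = 1 := by
  by_contra hne
  rw [sg, if_neg hne] at h
  exact one_ne_zero h

private theorem char_sg_prod {I : Type} (J : Finset I) (f : I → ℤˣ) :
    sg (∏ i ∈ J, f i) = ∑ i ∈ J, sg (f i) := by
  classical
  induction J using Finset.induction_on with
  | empty => simp [char_sg_one]
  | insert i J hi ih => rw [Finset.prod_insert hi, Finset.sum_insert hi, char_sg_mul, ih]

private theorem char_two (c : ZMod 2) : c = 0 ∨ c = 1 := by
  fin_cases c
  · exact Or.inl rfl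
  · exact Or.inr rfl

/-- PROOF. The image of `G → (ZMod 2) ^ I`, `x ↦ (sg (e i x))_i`, is a subspace `W` (`sg` is a
homomorphism `ℤˣ → ZMod 2`). If `t` is not in `W`, there is a linear form on `(ZMod 2) ^ I` which is `0`
on `W` and not `0` at `t` (`Submodule.exists_le_ker_of_notMem` or a similar lemma); it is
`v ↦ ∑ i ∈ J, v i` for a subset `J`. -/
theorem char_dual {G : Type*} [Group G] {I : Type} [Finite I] (e : I → (G →* ℤˣ)) (t : I → ZMod 2) :
    (∃ x : G, ∀ i, sg (e i x) = t i) ∨
      ∃ J : Finset I, (∏ i ∈ J, e i = 1) ∧ ∑ i ∈ J, t i ≠ 0 := by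
  classical
  have : Fintype I := Fintype.ofFinite I
  let W : Submodule (ZMod 2) (I → ZMod 2) :=
    { carrier := Set.range fun x : G => fun i => sg (e i x)
      zero_mem' := ⟨1, by
        funext i
        simp only [map_one, char_sg_one]
        rfl⟩
      add_mem' := by
        rintro _ _ ⟨x, rfl⟩ ⟨y, rfl⟩
        exact ⟨x * y, by funext i; simp only [map_mul, char_sg_mul]; rfl⟩
      smul_mem' := by
        rintro c _ ⟨x, rfl⟩
        rcases char_two c with rfl | rfl
        · exact ⟨1, by
            funext i
            simp only [map_one, char_sg_one, zero_smul]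
            rfl⟩
        · exact ⟨x, by rw [one_smul]⟩ }
  by_cases ht : t ∈ W
  · obtain ⟨x, hx⟩ := ht
    exact Or.inl ⟨x, fun i => congrFun hx i⟩
  · right
    obtain ⟨f, hft, hfW⟩ := Submodule.exists_dual_map_eq_bot_of_notMem ht inferInstance
    have hsum : ∀ v : I → ZMod 2,
        f v = ∑ i ∈ Finset.univ.filter (fun i => f (fun j => if i = j then 1 else 0) = 1), v i := by
      intro v
      rw [LinearMap.pi_apply_eq_sum_univ f v, Finset.sum_filter]
      refine Finset.sum_congr rfl fun i _ => ?_
      rcases char_two (f fun j => if i = j then 1 else 0) with h | h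
      · rw [h, smul_zero, if_neg zero_ne_one]
      · rw [h, if_pos rfl, smul_eq_mul, mul_one]
    refine ⟨_, ?_, fun h => hft ((hsum t).trans h)⟩
    ext x
    have h1 : f (fun i => sg (e i x)) = 0 := by
      have h2 : f (fun i => sg (e i x)) ∈ W.map f := ⟨_, ⟨x, rfl⟩, rfl⟩
      rw [hfW] at h2
      exact h2
    rw [hsum, ← char_sg_prod] at h1
    have h3 := char_sg_zero h1
    rw [MonoidHom.finsetProd_apply, h3]
    rfl

/-- PROOF. Suppose there is no such `J`. Case 1: `a = 1`. `char_dual` with `e` and `t = d`: an `x` with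
`sg (e i x) = d i` for all `i` contradicts `h` (as `sg (a x) = 0` and `d i + d i = 0`); a `J` with
`∏ e = 1` and `∑ d ≠ 0` is nonempty and `a * ∏ e = 1`. Case 2: `a ≠ 1`. Apply `char_dual` to the family
indexed by `Option I`, `a` and the `e i`, with the target `1` at `a` and `0` at `e i`: an `x` with
`sg (a x) = 1` and `sg (e i x) = 0` contradicts `h`; otherwise there is `J' ⊆ Option I` with product `1`
and the sum of the targets not `0`, so `none ∈ J'` and `a * ∏ i ∈ J, e i = 1` with `J = J' ∩ I`; `J` is
nonempty because `a ≠ 1`. -/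
theorem char_lin {G : Type*} [Group G] {I : Type} [Finite I] (a : G →* ℤˣ) (e : I → (G →* ℤˣ))
    (d : I → ZMod 2)
    (h : ∀ x : G, (a x = 1 → a = 1) → ∃ i, d i * (1 + sg (a x)) + sg (e i x) ≠ 0) :
    ∃ J : Finset I, J.Nonempty ∧ a * ∏ i ∈ J, e i = 1 := by
  classical
  have h2 : (1 : ZMod 2) + 1 = 0 := rfl
  by_cases ha : a = 1
  · rcases char_dual e d with ⟨x, hx⟩ | ⟨J, hJ, hJd⟩
    · exfalso
      obtain ⟨i, hi⟩ := h x (fun _ => ha)
      apply hi
      rw [hx i, ha, MonoidHom.one_apply, char_sg_one, add_zero, mul_one]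
      rcases char_two (d i) with h3 | h3 <;> rw [h3]
      · rfl
      · rfl
    · refine ⟨J, ?_, by rw [hJ, ha, mul_one]⟩
      by_contra hne
      rw [Finset.not_nonempty_iff_eq_empty] at hne
      rw [hne, Finset.sum_empty] at hJd
      exact hJd rfl
  · let e' : Option I → (G →* ℤˣ) := fun o => o.elim a e
    let t' : Option I → ZMod 2 := fun o => o.elim 1 (fun _ => 0)
    rcases char_dual e' t' with ⟨x, hx⟩ | ⟨J', hJ, hJd⟩
    · exfalso
      have h3 : sg (a x) = 1 := hx none
      obtain ⟨i, hi⟩ := h x (fun h6 => by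
        rw [h6, char_sg_one] at h3
        exact absurd h3 zero_ne_one)
      apply hi
      have h4 : sg (e i x) = 0 := hx (some i)
      rw [h3, h4, h2, mul_zero, add_zero]
    · have hn : none ∈ J' := by
        by_contra hn
        apply hJd
        refine Finset.sum_eq_zero fun o ho => ?_
        rcases o with _ | i
        · exact absurd ho hn
        · rfl
      have hJ' : J' = Finset.insertNone (Finset.eraseNone J') := by
        ext o
        rcases o with _ | i
        · simp [hn]
        · simp
      have h5 : a * ∏ i ∈ Finset.eraseNone J', e i = 1 := by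
        rw [hJ', Finset.prod_insertNone] at hJ
        exact hJ
      refine ⟨Finset.eraseNone J', ?_, h5⟩
      by_contra hne
      rw [Finset.not_nonempty_iff_eq_empty] at hne
      rw [hne, Finset.prod_empty, mul_one] at h5
      exact ha h5

end Pool.Agent.H.MP_ac3185_nt.D14
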