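import Pool.Agent.H.MP_ac3185_nt.D14.Data

/-! One sequence of elements of `K` for all finite extensions of all finite extensions. -/

set_option autoImplicit false

open NumberField

namespace Pool.Agent.H.MP_ac3185_nt.D14

open OE

universe u

theorem common_countable_closure (K : Type u) [Field K] [Countable K] : Countable (AlgebraicClosure K) := by
  rw [← Cardinal.mk_le_aleph0_iff]
  refine (Algebra.IsAlgebraic.cardinalMk_le_max K (AlgebraicClosure K)).trans ?_
  exact max_le (Cardinal.mk_le_aleph0_iff.2 inferInstance) le_rfl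

theorem common_countable_fin (K : Type u) [Field K] [CharZero K] [Countable K] :
    Countable {F : IntermediateField K (AlgebraicClosure K) // FiniteDimensional K F} := by
  have _ := common_countable_closure K
  have hex : ∀ F : {F : IntermediateField K (AlgebraicClosure K) // FiniteDimensional K F},
      ∃ θ : AlgebraicClosure K, IntermediateField.adjoin K {θ} = F.1 := by
    intro F
    have _ : FiniteDimensional K F.1 := F.2
    obtain ⟨θ, hθ⟩ := Field.exists_primitive_element K F.1
    refine ⟨(θ : AlgebraicClosure K), ?_⟩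
    have h1 := congrArg IntermediateField.lift hθ
    rw [IntermediateField.lift_adjoin_simple, IntermediateField.lift_top] at h1
    exact h1
  choose θ hθ using hex
  have hinj : Function.Injective θ := by
    intro F F' h
    apply Subtype.ext
    rw [← hθ F, ← hθ F', h]
  exact hinj.countable

theorem common_countable_field {K : Type u} [Field K] [Countable K]
    (F : IntermediateField K (AlgebraicClosure K)) : Countable F := by
  have _ := common_countable_closure K
  exact Function.Injective.countable (f := fun a : F => (a : AlgebraicClosure K))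
    Subtype.val_injective

theorem common_abs {K : Type u} [Field K] (x : ℕ → K) {X : Type u} [Countable X] (Q : X → K → Prop) :
    ∃ s : ℕ → Finset ℕ, (∀ j, (s j).Nonempty) ∧ (∀ j k, j ≠ k → Disjoint (s j) (s k)) ∧
      ∀ p : X, ∃ (α : Prop) (κ : ℕ), ∀ T : Finset ℕ, T.Nonempty → (∀ j ∈ T, κ ≤ j) →
        (Q p (∏ j ∈ T, ∏ q ∈ s j, x q) ↔ α) := by
  classical
  have _ : Encodable X := Encodable.ofCountable _
  obtain ⟨c, hc⟩ : ∃ c : ℕ → K → Prop, ∀ n z, c n z ↔ ∀ p : X, Encodable.encode p = n → Q p z :=
    ⟨fun n z => ∀ p : X, Encodable.encode p = n → Q p z, fun _ _ => Iff.rfl⟩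
  have hc' : ∀ (p : X) (z : K), c (Encodable.encode p) z ↔ Q p z := by
    intro p z
    rw [hc]
    constructor
    · intro h
      exact h p rfl
    · intro h p' hp'
      rw [Encodable.encode_injective hp']
      exact h
  obtain ⟨s, h1, h2, h3⟩ := exists_blocks x c
  refine ⟨s, h1, h2, fun p => ?_⟩
  refine ⟨c (Encodable.encode p) (∏ j ∈ {Encodable.encode p}, ∏ q ∈ s j, x q), Encodable.encode p,
    fun T hT hk => ?_⟩
  rw [← hc' p]
  refine h3 _ T {Encodable.encode p} hT (Finset.singleton_nonempty _) hk fun j hj => ?_
  rw [Finset.mem_singleton] at hj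
  exact hj.ge

/-- PROOF. As `exists_common` in `D14/Data.lean`: the type of the `(k, F, a, i)` with `k / K` and `F / k`
finite is countable (`I` is countable now, the finite extensions `k` of `K` are countably many, `k` is a
number field, so the finite extensions `F` of `k` in `AlgebraicClosure k` are countably many, and `F` is
countable). -/
theorem exists_common2 {K : Type u} [Field K] [NumberField K] {I : Type} [Countable I] (x : ℕ → K)
    (P : ∀ (k : IntermediateField K (AlgebraicClosure K)) (F : IntermediateField k (AlgebraicClosure k)),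
      F → I → K → Prop) :
    ∃ s : ℕ → Finset ℕ, (∀ j, (s j).Nonempty) ∧ (∀ j k, j ≠ k → Disjoint (s j) (s k)) ∧
      ∀ k : IntermediateField K (AlgebraicClosure K), FiniteDimensional K k →
        ∀ F : IntermediateField k (AlgebraicClosure k), FiniteDimensional k F →
          ∃ (α : F → I → Prop) (κ : F → I → ℕ), ∀ a i, ∀ T : Finset ℕ, T.Nonempty →
            (∀ j ∈ T, κ a i ≤ j) → (P k F a i (∏ j ∈ T, ∏ q ∈ s j, x q) ↔ α a i) := by
  have _ : Countable K := countable_of_numberField K
  have hk0 : ∀ k : IntermediateField K (AlgebraicClosure K), Countable k := common_countable_field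
  have hkz : ∀ k : IntermediateField K (AlgebraicClosure K), CharZero k := fun k =>
    charZero_of_injective_algebraMap (algebraMap K k).injective
  have hk := common_countable_fin K
  have hF : ∀ k : IntermediateField K (AlgebraicClosure K),
      Countable {F : IntermediateField k (AlgebraicClosure k) // FiniteDimensional k F} := fun k => by
    have _ := hk0 k
    have _ := hkz k
    exact common_countable_fin k
  have hf : ∀ (k : IntermediateField K (AlgebraicClosure K)) (F : IntermediateField k (AlgebraicClosure k)),
      Countable F := fun k F => by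
    have _ := hk0 k
    exact common_countable_field F
  have hcX : Countable (Σ k : {k : IntermediateField K (AlgebraicClosure K) // FiniteDimensional K k},
      Σ F : {F : IntermediateField k.1 (AlgebraicClosure k.1) // FiniteDimensional k.1 F}, F.1 × I) := by
    infer_instance
  obtain ⟨s, h1, h2, h3⟩ := common_abs x (X := (Σ k : {k : IntermediateField K (AlgebraicClosure K) //
      FiniteDimensional K k},
      Σ F : {F : IntermediateField k.1 (AlgebraicClosure k.1) // FiniteDimensional k.1 F}, F.1 × I))
    (fun p => P p.1.1 p.2.1.1 p.2.2.1 p.2.2.2)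
  refine ⟨s, h1, h2, fun k hkd F hfd => ?_⟩
  have h4 : ∀ (a : F) (i : I), ∃ (α : Prop) (κ : ℕ), ∀ T : Finset ℕ, T.Nonempty → (∀ j ∈ T, κ ≤ j) →
      (P k F a i (∏ j ∈ T, ∏ q ∈ s j, x q) ↔ α) := fun a i => h3 ⟨⟨k, hkd⟩, ⟨⟨F, hfd⟩, (a, i)⟩⟩
  choose α κ h5 using h4
  exact ⟨α, κ, h5⟩

/-- PROOF. Embed `F` into `AlgebraicClosure K` over `K` (`IsAlgClosed.lift`), and apply `exists_shift` to
the image. -/
theorem exists_shift2 {K : Type u} [Field K] [CharZero K] (D : ℕ → K) (hD0 : ∀ j, D j ≠ 0)
    (hDi : ∀ T : Finset ℕ, T.Nonempty → ∀ y : K, y ^ 2 ≠ ∏ j ∈ T, D j)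
    (F : Type u) [Field F] [Algebra K F] [FiniteDimensional K F] :
    ∃ n : ℕ, ∀ T : Finset ℕ, T.Nonempty → (∀ j ∈ T, n ≤ j) →
      ∀ y : F, y ^ 2 ≠ algebraMap K F (∏ j ∈ T, D j) := by
  have f : F →ₐ[K] AlgebraicClosure K := IsAlgClosed.lift
  have _ : FiniteDimensional K f.fieldRange :=
    FiniteDimensional.of_surjective f.rangeRestrict.toLinearMap (by
      intro y
      obtain ⟨x, hx⟩ := f.rangeRestrict_surjective ⟨y.1, y.2⟩
      refine ⟨x, ?_⟩
      apply Subtype.ext
      exact congrArg Subtype.val hx)
  obtain ⟨n, hn⟩ := exists_shift D hD0 hDi f.fieldRange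
  refine ⟨n, fun T hT hTn y hy => hn T hT hTn ⟨f y, ⟨y, rfl⟩⟩ ?_⟩
  apply Subtype.ext
  have h1 := congrArg f hy
  rw [map_pow, AlgHom.commutes] at h1
  exact h1

end Pool.Agent.H.MP_ac3185_nt.D14
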