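import Pool.Agent.H.MP_ac3185_nt.D14.Tow

/-! The fields over which the twists are bad. -/

set_option autoImplicit false

open CategoryTheory AlgebraicGeometry NumberField IsDedekindDomain
open scoped MonObj

namespace Pool.Agent.H.MP_ac3185_nt.D14

open OE

universe u

/-- A cardinal number which is finite and even is twice a natural number. -/
theorem Exc_even_nat (r : ℕ) (h : Even ((r : ℕ) : Cardinal.{u})) : Even r := by
  obtain ⟨b, hb⟩ := h
  have hle : b ≤ ((r : ℕ) : Cardinal.{u}) := by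
    rw [hb]
    exact le_self_add
  obtain ⟨m, rfl⟩ := Cardinal.lt_aleph0.1 (hle.trans_lt (Cardinal.natCast_lt_aleph0))
  refine ⟨m, ?_⟩
  rw [← Nat.cast_add] at hb
  exact Nat.cast_injective hb

/-- As `rankO_even0`, if the parities of the ranks are the same for all the nontrivial characters
and different for the trivial one. -/
theorem rankO_odd {K : Type u} [Field K] {F : Type u} [Field F] [CharZero F] [Algebra K F]
    (A : Over (Spec (.of K))) [GrpObj A] [IsAbVar A] (B : Over (Spec (.of F))) [GrpObj B] [IsAbVar B]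
    (a : F) (hAB : IsTwistOver A B a) (X : Set F) (hX : ∀ b ∈ X, b ≠ 0)
    (L : IntermediateField F (AlgebraicClosure F)) (hL : AboveTower (sqrtExt X) L)
    (c : F) (x : AlgebraicClosure F) (hxL : x ∈ L)
    (hx : x ^ 2 = algebraMap F (AlgebraicClosure F) c) (hc : chiK c ≠ 1) (α : Prop)
    (h1 : ∀ t : Finset F, (∀ b ∈ t, b ∈ X) → chiK (∏ b ∈ t, b) ≠ 1 →
      (Even (psiRkO A F (chiK (∏ b ∈ t, b) * chiK a)) ↔ α))
    (h2 : ¬ (Even (psiRkO A F (chiK a)) ↔ α))
    (hfin : Module.rank ℤ (Pts B L) < Cardinal.aleph0) :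
    ¬ Even (Module.rank ℤ (Pts B L)) := by
  classical
  obtain ⟨hfd0, hgal, hnil, -, hq⟩ := hL
  obtain ⟨r, hr⟩ := Cardinal.lt_aleph0.1 hfin
  rw [hr]
  intro hcard
  have hreven := Exc_even_nat r hcard
  have hfinG : Finite (L ≃ₐ[F] L) := inferInstance
  obtain ⟨M, _, _, ρ, hM, hε⟩ := exists_repO A B _ hAB L
  have hMr : Module.rank ℚ M = (r : Cardinal) := hM.trans hr
  have hfd : FiniteDimensional ℚ M := Module.rank_lt_aleph0_iff.1 (by
    rw [hMr]; exact Cardinal.natCast_lt_aleph0)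
  have hMf : Module.finrank ℚ M = r := Module.finrank_eq_of_rank_eq hMr
  obtain ⟨N, hN, hodd, h2N⟩ := hnil
  have hmod := finrank_two_nilpotent N hodd h2N ρ
  obtain ⟨ε₀, hε₀⟩ := epsK L c x hxL hx
  have hne₀ : ε₀ ≠ 1 := fun h => hc (by
    apply MonoidHom.ext
    intro σ
    rw [← hε₀ σ, h]
    rfl)
  have hfinX : Finite ((L ≃ₐ[F] L) →* ℤˣ) := DFunLike.finite _
  have _ : Fintype ((L ≃ₐ[F] L) →* ℤˣ) := Fintype.ofFinite _
  rw [hMf, finsum_eq_sum_of_fintype] at hmod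
  have hg : ∀ (ε : (L ≃ₐ[F] L) →* ℤˣ) (ψ : (AlgebraicClosure F ≃ₐ[F] AlgebraicClosure F) →* ℤˣ),
      (∀ σ, ε (AlgEquiv.restrictNormalHom L σ) * chiK a σ = ψ σ) →
      Module.finrank ℚ (epsPart ρ ε) = psiRkO A F ψ := by
    intro ε ψ h5
    have h6 := hε ε ψ h5
    unfold psiRkO Module.finrank
    rw [h6]
  have hinv : ∀ ε : (L ≃ₐ[F] L) →* ℤˣ, ε * ε₀ * ε₀ = ε := by
    intro ε
    rw [mul_assoc]
    have h9 : ε₀ * ε₀ = 1 := by
      apply MonoidHom.ext
      intro g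
      rw [MonoidHom.mul_apply, Int.units_mul_self, MonoidHom.one_apply]
    rw [h9, mul_one]
  -- the parities, with the trivial character corrected by one
  have hpar : ∀ ε : (L ≃ₐ[F] L) →* ℤˣ,
      (Even (Module.finrank ℚ (epsPart ρ ε) + if ε = 1 then 1 else 0) ↔ α) := by
    intro ε
    by_cases h3 : ε = 1
    · rw [if_pos h3, h3]
      have h4 := hg 1 (chiK a) (fun σ => by rw [MonoidHom.one_apply, one_mul])
      rw [h4, Nat.even_add_one]
      tauto
    · rw [if_neg h3, add_zero]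
      obtain ⟨t, ht, ht2⟩ := charK_tower X hX L hq ε
      have h7 := hg ε (chiK (∏ b ∈ t, b) * chiK a) (fun σ => by
        rw [ht2, MonoidHom.mul_apply])
      rw [h7]
      refine h1 t ht fun h8 => h3 ?_
      apply MonoidHom.ext
      intro g
      obtain ⟨σ, rfl⟩ := AlgEquiv.restrictNormalHom_surjective (F := F) (K₁ := L)
        (AlgebraicClosure F) g
      rw [ht2, h8]
      rfl
  have hev := QF.even_sum_inv
    (fun ε : (L ≃ₐ[F] L) →* ℤˣ => Module.finrank ℚ (epsPart ρ ε) + if ε = 1 then 1 else 0)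
    (fun ε => ε * ε₀) hinv (fun ε h => hne₀ (mul_eq_left.1 h)) (fun ε => by
      have h7 := hpar ε
      have h8 := hpar (ε * ε₀)
      rw [← h7] at h8
      show (_ + _) % 2 = 0 % 2
      simp only [Nat.even_iff] at h8
      omega)
  rw [Finset.sum_add_distrib, Finset.sum_ite_eq' Finset.univ (1 : (L ≃ₐ[F] L) →* ℤˣ) (fun _ => 1),
    if_pos (Finset.mem_univ _), Nat.even_add_one] at hev
  apply hev
  rw [Nat.even_iff] at hreven ⊢
  exact (show r % 2 = _ from hmod).symm.trans hreven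

/-- The opposite of `good_pure`: over the fields above `F(√D_j, j ≥ n)` the ranks are odd. -/
theorem bad_pure {K : Type u} [Field K] [NumberField K] {I : Type}
    (A : I → Over (Spec (.of K))) [∀ i, GrpObj (A i)] [∀ i, IsAbVar (A i)]
    {D : ℕ → K} {F : IntermediateField K (AlgebraicClosure K)} [NumberField F] {n : ℕ}
    {α φ : F → I → Prop} {κ : F → I → ℕ} (h : FieldData A D F n α φ κ) (hl : FieldLoc D F n)
    (i : I) (a : F) (hbet : ¬ Bet (fun (i : I) ψ => psiRkO (A i) F ψ) α a i) :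
    BadTail (A i) D F a := by
  classical
  intro B _ _ hAB
  obtain ⟨N₀, m₀, hgood, hm₀⟩ := Tow_index hl B
  obtain ⟨D', hD'⟩ : ∃ D' : ℕ → F, ∀ j, D' j = algebraMap K F (D (n + j)) := ⟨_, fun _ => rfl⟩
  have hDe : ∀ T : Finset ℕ, ∏ j ∈ T, D' j = ∏ j ∈ T, algebraMap K F (D (n + j)) :=
    fun T => Finset.prod_congr rfl fun j _ => hD' j
  have hD0 : ∀ j, D' j ≠ 0 := fun j => by rw [hD']; exact h.h0 j
  obtain ⟨N, hN, hNm⟩ : ∃ N, κ a i ≤ N ∧ m₀ ≤ N := ⟨_, le_max_left _ _, le_max_right _ _⟩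
  refine ⟨n + N, ?_⟩
  intro M hfd hMT hM
  obtain ⟨Z, hZ⟩ : ∃ Z : Set F, Z = insert 1 {z | ∃ j, N ≤ j ∧ z = D' j} := ⟨_, rfl⟩
  have htail : tailField D (n + N) F (1 : F) = sqrtExt Z := by
    unfold tailField
    rw [FD_set, hZ]
    simp only [hD']
  rw [htail] at hMT hM
  have hα : ∀ a i, ∀ T : Finset ℕ, T.Nonempty → (∀ j ∈ T, κ a i ≤ j) →
      (Even (psiRkO (A i) F (chiK (∏ j ∈ T, D' j) * chiK a)) ↔ α a i) := by
    intro a i T hT hj
    rw [hDe]
    exact h.hα a i T hT hj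
  have hZ0 : ∀ b ∈ Z, b ≠ 0 := by
    intro b hb
    rw [hZ] at hb
    rcases hb with h | ⟨j, -, h⟩
    · rw [h]
      exact one_ne_zero
    · rw [h]
      exact hD0 j
  rw [hZ] at hMT
  obtain ⟨T₀, hT₀, hT₀N, hT₀s, hT₀M⟩ := Tow_root D' hD0 N M hMT
  obtain ⟨hpos, hloc⟩ := hm₀ T₀ hT₀ fun j hj => hNm.trans (hT₀N j hj)
  rw [← hDe] at hpos
  have hFT : AboveTower (sqrtExt Z) M := by
    rcases hM with hM | hM
    · exact tow_above Z M hM _ _ hT₀M (rtK_sq F _) hT₀s
    · exact hM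
  have hgal : IsGalois F M := hFT.2.1
  refine ⟨fun W hW g => ?_, fun hfr => ?_⟩
  · refine sign_of_root B hgood W hW g M _ hT₀s hT₀M hpos fun v hv => ?_
    rw [hDe]
    exact hloc v hv
  · refine rankO_odd (A i) B a hAB Z hZ0 M hFT _ _ hT₀M (rtK_sq F _) (FD_chi_ne hT₀s) (α a i)
      ?_ hbet hfr
    intro t ht hchi
    rw [hZ] at ht
    obtain ⟨T, hT, hprod⟩ := prod_split D' N 1 t ht
    rw [one_mul, or_self] at hprod
    rw [hprod] at hchi ⊢
    refine hα a i T ?_ fun j hj => hN.trans (hT j hj)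
    rw [Finset.nonempty_iff_ne_empty]
    rintro rfl
    apply hchi
    rw [Finset.prod_empty, chiK_one]

end Pool.Agent.H.MP_ac3185_nt.D14
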