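import Pool.Agent.H.MP_ac3185_nt.D14.Defs
import Pool.Agent.H.MP_ac3185_nt.O42.Deg

/-! Hitting sets, and the finiteness of some sets of characters. -/

set_option autoImplicit false

namespace Pool.Agent.H.MP_ac3185_nt.D14

open OE

universe u

/-- A family of finite sets has a hitting set with at most `m` elements if all its finite subfamilies
have.

PROOF. Induction on `m`, for all `Q`. `m = 0`: every finite subfamily is empty, so `Q` is empty.
`m + 1`: if `Q` is empty, take `∅`. Let `q₀ ∈ Q`. For `t ∈ q₀` let `Q_t` be the set of the `q ∈ Q` with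
`t ∉ q`. If for some `t ∈ q₀` all finite subfamilies of `Q_t` have hitting sets with at most `m`
elements, then so has `Q_t` by induction, and adding `t` gives the claim. Otherwise choose for each
`t ∈ q₀` a finite `S_t ⊆ Q_t` without a hitting set with at most `m` elements. `S = {q₀} ∪ ⋃ S_t` is
finite, it has a hitting set `H` with at most `m + 1` elements, `H` contains some `t ∈ q₀`, and
`H \ {t}` is a hitting set of `S_t` with at most `m` elements, a contradiction. -/
theorem exists_hit {T : Type*} (m : ℕ) (Q : Set (Set T)) (hQ : ∀ q ∈ Q, q.Finite)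
    (h : ∀ S : Set (Set T), S ⊆ Q → S.Finite →
      ∃ H : Finset T, H.card ≤ m ∧ ∀ q ∈ S, ∃ t ∈ H, t ∈ q) :
    ∃ H : Finset T, H.card ≤ m ∧ ∀ q ∈ Q, ∃ t ∈ H, t ∈ q := by
  classical
  induction m generalizing Q with
  | zero =>
    refine ⟨∅, le_rfl, fun q hq => ?_⟩
    obtain ⟨H, hH, hH2⟩ := h {q} (Set.singleton_subset_iff.2 hq) (Set.finite_singleton q)
    obtain ⟨t, ht, -⟩ := hH2 q rfl
    rw [Finset.card_eq_zero.1 (Nat.le_zero.1 hH)] at ht
    exact absurd ht (Finset.notMem_empty t)
  | succ m ih =>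
    rcases Q.eq_empty_or_nonempty with rfl | ⟨q₀, hq₀⟩
    · exact ⟨∅, Nat.zero_le _, fun q hq => absurd hq (Set.notMem_empty q)⟩
    by_cases hex : ∃ t ∈ q₀, ∀ S : Set (Set T), S ⊆ {q ∈ Q | t ∉ q} → S.Finite →
        ∃ H : Finset T, H.card ≤ m ∧ ∀ q ∈ S, ∃ t ∈ H, t ∈ q
    · obtain ⟨t, -, ht⟩ := hex
      obtain ⟨H, hH, hH2⟩ := ih {q ∈ Q | t ∉ q} (fun q hq => hQ q hq.1) ht
      refine ⟨insert t H, (Finset.card_insert_le t H).trans (Nat.succ_le_succ hH), fun q hq => ?_⟩
      by_cases htq : t ∈ q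
      · exact ⟨t, Finset.mem_insert_self t H, htq⟩
      · obtain ⟨t', ht', ht'q⟩ := hH2 q ⟨hq, htq⟩
        exact ⟨t', Finset.mem_insert_of_mem ht', ht'q⟩
    · exfalso
      push Not at hex
      choose! S hS1 hS2 hS3 using hex
      have hfin : (insert q₀ (⋃ t ∈ q₀, S t)).Finite :=
        ((hQ q₀ hq₀).biUnion fun t ht => hS2 t ht).insert q₀
      obtain ⟨H, hH, hH2⟩ := h (insert q₀ (⋃ t ∈ q₀, S t)) (by
        refine Set.insert_subset hq₀ (Set.iUnion₂_subset fun t ht => ?_)
        exact (hS1 t ht).trans fun q hq => hq.1) hfin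
      obtain ⟨t, htH, htq⟩ := hH2 q₀ (Set.mem_insert q₀ _)
      obtain ⟨q, hq, hq2⟩ := hS3 t htq (H.erase t) (by
        rw [Finset.card_erase_of_mem htH]
        omega)
      obtain ⟨t', ht'H, ht'q⟩ := hH2 q (Set.mem_insert_of_mem q₀ (Set.mem_iUnion₂.2 ⟨t, htq, hq⟩))
      refine hq2 t' (Finset.mem_erase.2 ⟨?_, ht'H⟩) ht'q
      rintro rfl
      exact (hS1 t' htq hq).2 ht'q

/-- For a finite extension `F` of `K` and `a ∈ F` not `0` there are only finitely many classes of
elements `c` of `K` such that `a c` is a square in `F`.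

PROOF. If there is no such `c`, fine. Let `c₀` be one. For another `c`, `c c₀` is a square in `F`, so
`chiK (c * c₀)` is trivial on `F.fixingSubgroup`. The set of the characters of `Gal(Kbar/K)` which are
trivial on `F.fixingSubgroup` is finite (a character is determined by its values on the representatives
of the finitely many cosets of `F.fixingSubgroup`, which has finite index, `IntermediateField` Galois
theory: the fixing subgroup of a finite extension has finite index
`IntermediateField.finrank_eq_fixingSubgroup_index` or similar; or take a finite Galois extension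
`N ≥ F`, the characters factor through `Gal(N/K)`). -/
theorem finite_classes {K : Type u} [Field K] [CharZero K]
    (F : IntermediateField K (AlgebraicClosure K)) [FiniteDimensional K F] (a : AlgebraicClosure K)
    (ha : a ≠ 0) :
    {χ : (AlgebraicClosure K ≃ₐ[K] AlgebraicClosure K) →* ℤˣ | ∃ c : Kˣ, χ = chiK (c : K) ∧
      ∃ y ∈ F, y ^ 2 = a * algebraMap K (AlgebraicClosure K) (c : K)}.Finite := by
  classical
  set G := AlgebraicClosure K ≃ₐ[K] AlgebraicClosure K with hG
  -- the characters trivial on the fixing subgroup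
  have hT : {ψ : G →* ℤˣ | ∀ σ ∈ F.fixingSubgroup, ψ σ = 1}.Finite := by
    let r : G → (F →ₐ[K] AlgebraicClosure K) := fun σ => (σ : AlgebraicClosure K →ₐ[K]
      AlgebraicClosure K).comp F.val
    have hr : ∀ σ τ : G, r σ = r τ → σ⁻¹ * τ ∈ F.fixingSubgroup := by
      intro σ τ h
      rw [IntermediateField.mem_fixingSubgroup_iff]
      intro x hx
      have h1 : σ x = τ x := by
        have := congrArg (fun f : F →ₐ[K] AlgebraicClosure K => f ⟨x, hx⟩) h
        exact this
      rw [AlgEquiv.mul_apply, ← h1]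
      exact σ.symm_apply_apply x
    let Φ : (G →* ℤˣ) → ((F →ₐ[K] AlgebraicClosure K) → ℤˣ) := fun ψ g =>
      if h : ∃ σ, r σ = g then ψ h.choose else 1
    refine Set.Finite.of_injOn (f := Φ) (t := Set.univ) (Set.mapsTo_univ _ _) ?_ Set.finite_univ
    intro ψ hψ ψ' hψ' h
    apply MonoidHom.ext
    intro σ
    have hex : ∃ τ, r τ = r σ := ⟨σ, rfl⟩
    have h1 : ψ hex.choose = ψ' hex.choose := by
      have := congrFun h (r σ)
      simp only [Φ, dif_pos hex] at this
      exact this
    have h2 : ∀ φ : G →* ℤˣ, (∀ σ ∈ F.fixingSubgroup, φ σ = 1) → φ hex.choose = φ σ := by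
      intro φ hφ
      have h3 := hφ _ (hr _ _ hex.choose_spec)
      rw [map_mul, map_inv, inv_mul_eq_one] at h3
      exact h3
    rw [← h2 ψ hψ, ← h2 ψ' hψ', h1]
  rcases Set.eq_empty_or_nonempty {χ : (AlgebraicClosure K ≃ₐ[K] AlgebraicClosure K) →* ℤˣ |
    ∃ c : Kˣ, χ = chiK (c : K) ∧
      ∃ y ∈ F, y ^ 2 = a * algebraMap K (AlgebraicClosure K) (c : K)} with h | ⟨_, c₀, -, y₀, hy₀F, hy₀⟩
  · rw [h]; exact Set.finite_empty
  have hc₀ : algebraMap K (AlgebraicClosure K) (c₀ : K) ≠ 0 := by
    rw [Ne, map_eq_zero]; exact c₀.ne_zero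
  have haF : a ∈ F := by
    have h1 : a = y₀ ^ 2 / algebraMap K (AlgebraicClosure K) (c₀ : K) := by
      rw [hy₀, mul_div_cancel_right₀ _ hc₀]
    rw [h1]
    exact div_mem (pow_mem hy₀F 2) (F.algebraMap_mem _)
  refine Set.Finite.of_injOn (f := fun χ : G →* ℤˣ => χ * chiK (c₀ : K)) ?_ ?_ hT
  · rintro _ ⟨c, rfl, y, hyF, hy⟩ σ hσ
    change (chiK (c : K) * chiK (c₀ : K)) σ = 1
    rw [← chiK_mul c.ne_zero c₀.ne_zero]
    have h1 : (y * y₀ / a) ^ 2 = algebraMap K (AlgebraicClosure K) ((c : K) * (c₀ : K)) := by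
      rw [div_pow, mul_pow, hy, hy₀, map_mul]
      field_simp
    rw [chiK_eq_one_iff _ σ _ h1]
    exact (IntermediateField.mem_fixingSubgroup_iff _ _).1 hσ _
      (div_mem (mul_mem hyF hy₀F) haF)
  · intro χ _ χ' _ h
    exact mul_right_cancel h

end Pool.Agent.H.MP_ac3185_nt.D14
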