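import Pool.Agent.H.MP_ac3185_nt.D14.Defs
import Pool.Agent.H.MP_ac3185_nt.O42.Deg

/-! One sequence of elements of `K` for all finite extensions. -/

set_option autoImplicit false

open NumberField

namespace Pool.Agent.H.MP_ac3185_nt.D14

open OE

universe u

/-- PROOF. The finite extensions of `K` in `AlgebraicClosure K` are countably many: such a field `F` is
`K(θ)` for a primitive element `θ` (`Field.exists_primitive_element`; transport from `F` to the closure:
`IntermediateField.adjoin K {(θ : AlgebraicClosure K)} = F`), and `AlgebraicClosure K` is countable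
(algebraic over the countable field `K`, `countable_of_numberField`;
`Algebra.IsAlgebraic.cardinalMk_le_max` or similar). So the type of the triples `(F, a, i)`, `F` a finite
extension, `a : F`, `i : I`, is countable (`Sigma`); encode it and apply `exists_blocks` as in the proof of
`exists_data` in `O42/Comb.lean`. -/
theorem exists_common {K : Type u} [Field K] [NumberField K] {I : Type} [Finite I] (x : ℕ → K)
    (P : ∀ F : IntermediateField K (AlgebraicClosure K), F → I → K → Prop) :
    ∃ s : ℕ → Finset ℕ, (∀ j, (s j).Nonempty) ∧ (∀ j k, j ≠ k → Disjoint (s j) (s k)) ∧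
      ∀ F : IntermediateField K (AlgebraicClosure K), FiniteDimensional K F →
        ∃ (α : F → I → Prop) (k : F → I → ℕ), ∀ a i, ∀ T : Finset ℕ, T.Nonempty →
          (∀ j ∈ T, k a i ≤ j) → (P F a i (∏ j ∈ T, ∏ q ∈ s j, x q) ↔ α a i) := by
  classical
  have _ : Countable K := countable_of_numberField K
  have hA : Countable (AlgebraicClosure K) := by
    rw [← Cardinal.mk_le_aleph0_iff]
    refine (Algebra.IsAlgebraic.cardinalMk_le_max K (AlgebraicClosure K)).trans ?_
    exact max_le (Cardinal.mk_le_aleph0_iff.2 inferInstance) le_rfl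
  have hS : Countable {F : IntermediateField K (AlgebraicClosure K) // FiniteDimensional K F} := by
    have hex : ∀ F : {F : IntermediateField K (AlgebraicClosure K) // FiniteDimensional K F},
        ∃ θ : AlgebraicClosure K, IntermediateField.adjoin K {θ} = F.1 := by
      intro F
      have _ : FiniteDimensional K F.1 := F.2
      obtain ⟨θ, hθ⟩ := Field.exists_primitive_element K F.1
      refine ⟨(θ : AlgebraicClosure K), ?_⟩
      have h1 := congrArg IntermediateField.lift hθ
      rw [IntermediateField.lift_adjoin_simple, IntermediateField.lift_top] at h1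
      exact h1
    choose θ hθ using hex
    have hinj : Function.Injective θ := by
      intro F F' h
      apply Subtype.ext
      rw [← hθ F, ← hθ F', h]
    exact hinj.countable
  have hF : ∀ F : IntermediateField K (AlgebraicClosure K), Countable F := fun F =>
    Function.Injective.countable (f := fun a : F => (a : AlgebraicClosure K))
      Subtype.val_injective
  have _ : Countable (Σ F : {F : IntermediateField K (AlgebraicClosure K) //
      FiniteDimensional K F}, F.1 × I) := inferInstance
  have _ : Encodable (Σ F : {F : IntermediateField K (AlgebraicClosure K) //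
      FiniteDimensional K F}, F.1 × I) := Encodable.ofCountable _
  obtain ⟨c, hc⟩ : ∃ c : ℕ → K → Prop, ∀ k z, c k z ↔
      ∀ p : (Σ F : {F : IntermediateField K (AlgebraicClosure K) //
        FiniteDimensional K F}, F.1 × I), Encodable.encode p = k → P p.1.1 p.2.1 p.2.2 z :=
    ⟨fun k z => ∀ p : (Σ F : {F : IntermediateField K (AlgebraicClosure K) //
        FiniteDimensional K F}, F.1 × I), Encodable.encode p = k → P p.1.1 p.2.1 p.2.2 z,
      fun _ _ => Iff.rfl⟩
  have hc' : ∀ (p : (Σ F : {F : IntermediateField K (AlgebraicClosure K) //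
        FiniteDimensional K F}, F.1 × I)) (z : K),
      c (Encodable.encode p) z ↔ P p.1.1 p.2.1 p.2.2 z := by
    intro p z
    rw [hc]
    constructor
    · intro h
      exact h p rfl
    · intro h p' hp'
      rw [Encodable.encode_injective hp']
      exact h
  obtain ⟨s, h1, h2, h3⟩ := exists_blocks x c
  refine ⟨s, h1, h2, fun F hfd => ?_⟩
  obtain ⟨e, he⟩ : ∃ e : F → I → ℕ, ∀ a i, e a i = Encodable.encode
      (⟨⟨F, hfd⟩, (a, i)⟩ : (Σ F : {F : IntermediateField K (AlgebraicClosure K) //
        FiniteDimensional K F}, F.1 × I)) := ⟨_, fun _ _ => rfl⟩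
  refine ⟨fun a i => c (e a i) (∏ j ∈ {e a i}, ∏ q ∈ s j, x q), e, fun a i T hT hk => ?_⟩
  have h4 := hc' (⟨⟨F, hfd⟩, (a, i)⟩ : (Σ F : {F : IntermediateField K (AlgebraicClosure K) //
        FiniteDimensional K F}, F.1 × I)) (∏ j ∈ T, ∏ q ∈ s j, x q)
  rw [← he] at h4
  rw [← h4]
  refine h3 _ T {e a i} hT (Finset.singleton_nonempty _) hk fun j hj => ?_
  rw [Finset.mem_singleton] at hj
  exact hj.ge

/-- A sequence which is independent modulo squares in `K` is, from some index on, independent modulo
squares in the finite extension `F`.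

PROOF. Suppose not. Then for every `n` there is a nonempty finite set `T n` of indices `≥ n` such that
the product of the `D j`, `j ∈ T n`, has a square root in `F`. Choose recursively
`n (k + 1) > max (T (n k))` and put `E k = ∏ j ∈ T (n k), D j`. The sets `T (n k)` are pairwise
disjoint and nonempty, so the `E k` are independent modulo squares in `K` (the product over
`k ∈ S` is the product of the `D j` over the nonempty union). `infinite_of_indep` for the sequence `E`
and `X = {E k}`: `sqrtExt X` has infinite degree; but all square roots of the `E k` lie in `F`, so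
`sqrtExt X ≤ F`, a contradiction. -/
theorem exists_shift {K : Type u} [Field K] [CharZero K] (D : ℕ → K) (hD0 : ∀ j, D j ≠ 0)
    (hDi : ∀ T : Finset ℕ, T.Nonempty → ∀ y : K, y ^ 2 ≠ ∏ j ∈ T, D j)
    (F : IntermediateField K (AlgebraicClosure K)) [FiniteDimensional K F] :
    ∃ n : ℕ, ∀ T : Finset ℕ, T.Nonempty → (∀ j ∈ T, n ≤ j) →
      ∀ y : F, y ^ 2 ≠ algebraMap K F (∏ j ∈ T, D j) := by
  classical
  by_contra hcon
  push Not at hcon
  choose T hT hTn y hy using hcon
  -- the indices
  let n : ℕ → ℕ := fun k => Nat.rec 0 (fun _ m => (T m).sup id + 1) k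
  have hn1 : ∀ k, n (k + 1) = (T (n k)).sup id + 1 := fun _ => rfl
  have hlt : ∀ k, ∀ j ∈ T (n k), j < n (k + 1) := by
    intro k j hj
    rw [hn1]
    exact Nat.lt_succ_of_le (Finset.le_sup (f := id) hj)
  have hle : ∀ k, n k ≤ n (k + 1) := by
    intro k
    obtain ⟨j, hj⟩ := hT (n k)
    exact (hTn (n k) j hj).trans (hlt k j hj).le
  have hmono : Monotone n := monotone_nat_of_le_succ hle
  have hdisj : ∀ k l, k ≠ l → Disjoint (T (n k)) (T (n l)) := by
    have key : ∀ k l, k < l → Disjoint (T (n k)) (T (n l)) := by
      intro k l hkl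
      rw [Finset.disjoint_left]
      intro j hj hj'
      have h1 := hlt k j hj
      have h2 := hTn (n l) j hj'
      have h3 := hmono (Nat.succ_le_of_lt hkl)
      have h4 : n (k + 1) ≤ n l := h3
      omega
    intro k l hkl
    rcases lt_or_gt_of_ne hkl with h | h
    · exact key k l h
    · exact (key l k h).symm
  have hE := infinite_of_indep (K := K) (fun k => ∏ j ∈ T (n k), D j)
    (fun k => Finset.prod_ne_zero_iff.2 fun j _ => hD0 j) (by
      intro S hS z hz
      have h1 : ∏ k ∈ S, ∏ j ∈ T (n k), D j = ∏ j ∈ S.biUnion fun k => T (n k), D j := by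
        rw [Finset.prod_biUnion fun k _ l _ hkl => hdisj k l hkl]
      rw [h1] at hz
      refine hDi _ ?_ z hz
      obtain ⟨k, hk⟩ := hS
      obtain ⟨j, hj⟩ := hT (n k)
      exact ⟨j, Finset.mem_biUnion.2 ⟨k, hk, hj⟩⟩) 0
    (Set.range fun k => ∏ j ∈ T (n k), D j) (fun j _ => ⟨j, rfl⟩)
  apply hE
  have hsub : sqrtExt (Set.range fun k => ∏ j ∈ T (n k), D j) ≤ F := by
    unfold sqrtExt
    rw [IntermediateField.adjoin_le_iff]
    rintro z ⟨_, ⟨k, rfl⟩, hz⟩
    have h1 := congrArg (algebraMap F (AlgebraicClosure K)) (hy (n k))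
    rw [map_pow, ← IsScalarTower.algebraMap_apply K F (AlgebraicClosure K)] at h1
    have h2 : z ^ 2 = (algebraMap F (AlgebraicClosure K) (y (n k))) ^ 2 := by
      rw [h1]
      exact hz
    rcases sq_eq_sq_iff_eq_or_eq_neg.1 h2 with h3 | h3
    · rw [h3]
      exact (y (n k)).2
    · rw [h3]
      exact neg_mem (y (n k)).2
  exact FiniteDimensional.of_injective (IntermediateField.inclusion hsub).toLinearMap
    (IntermediateField.inclusion hsub).injective

end Pool.Agent.H.MP_ac3185_nt.D14
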