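import Pool.Agent.H.MP_ac3185_nt.O42.Defs

/-! Definitions for the theorem on the quadratic twists over all finite extensions. -/

set_option autoImplicit false

open CategoryTheory AlgebraicGeometry NumberField IsDedekindDomain
open scoped MonObj

namespace Pool.Agent.H.MP_ac3185_nt.D14

open OE

universe u

/-- `A` is an abelian variety over `K`, and `B` is the quadratic twist of `A` over the extension `F` of
`K` by the element `a ≠ 0` of `F`, on the level of points: there is an isomorphism of groups
`φ : A(Fbar) → B(Fbar)` such that `φ (σ x) = σ (φ x)` for the elements `σ` of `Gal(Fbar/F)` which fix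
the square roots of `a`, and `φ (σ x) = - σ (φ x)` for the others. -/
def IsTwistOver {K : Type u} [Field K] (A : Over (Spec (.of K))) [GrpObj A] [IsAbVar A]
    {F : Type u} [Field F] [Algebra K F] (B : Over (Spec (.of F))) [GrpObj B] [IsAbVar B]
    (a : F) : Prop :=
  ∃ φ : Pts A (AlgebraicClosure F) ≃+ Pts B (AlgebraicClosure F),
    ∀ (σ : AlgebraicClosure F ≃ₐ[F] AlgebraicClosure F) (s : AlgebraicClosure F),
      s ^ 2 = algebraMap F (AlgebraicClosure F) a → ∀ x : Pts A (AlgebraicClosure F),
        (σ s = s → φ (galHom A (σ.restrictScalars K) x) = galHom B σ (φ x)) ∧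
        (σ s ≠ s → φ (galHom A (σ.restrictScalars K) x) = -galHom B σ (φ x))

/-- The global root number over `L` of the quadratic twist of `A` by the element `a` of `F` is `1`, and
its rank over `L` is even. (The rank is the cardinal number `Module.rank`; a cardinal `c` is even if
`c = b + b` for some `b`.) -/
def BothEvenOver {K : Type u} [Field K] (A : Over (Spec (.of K))) [GrpObj A] [IsAbVar A]
    {F : Type u} [Field F] [NumberField F] [Algebra K F] (a : F)
    (L : IntermediateField F (AlgebraicClosure F)) : Prop :=
  ∀ (B : Over (Spec (.of F))) [GrpObj B] [IsAbVar B], IsTwistOver A B a →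
    (∀ W : LocalSigns F, IsSignFamily W → ∀ g : ℕ, signOver W g L = 1) ∧
      Even (Module.rank ℤ (Pts B L))

/-- Let `F_∞` be the field generated over `F` by the square roots of the elements of `X`. There are an
element `c` of `F` and fields `L ≤ L' ≤ F_∞(√c)`, with `L` of degree at most `2 ^ (3 [F : ℚ] + 3)` and
`L'` of infinite degree over `F`, such that the following holds. Let `M` be a finite extension of `L`
contained in `L'` or, more generally, a finite Galois extension of `F` which contains `L` and quadratic
extensions of `F`, all of them contained in `L'`, and whose Galois group has a normal `2`-complement,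
for instance a nilpotent group. Then the quadratic twists by `a` of all the `A i` have global root
number `1` over `M`, and their ranks over `M` are even (`BothEvenOver`). -/
def GoodTower {K : Type u} [Field K] {I : Type} (A : I → Over (Spec (.of K)))
    [∀ i, GrpObj (A i)] [∀ i, IsAbVar (A i)] (X : Set K) (F : Type u) [Field F] [NumberField F]
    [Algebra K F] (a : F) : Prop :=
  ∃ (c : F) (L L' : IntermediateField F (AlgebraicClosure F)),
    L ≤ L' ∧ L' ≤ sqrtExt (insert c (algebraMap K F '' X)) ∧ FiniteDimensional F L ∧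
    Module.finrank F L ≤ 2 ^ (3 * Module.finrank ℚ F + 3) ∧ ¬ FiniteDimensional F L' ∧
    ∀ M : IntermediateField F (AlgebraicClosure F), FiniteDimensional F M → L ≤ M →
      (M ≤ L' ∨ AboveTower L' M) → ∀ i, BothEvenOver (A i) a M

/-- The subgroup of `A(Fbar)` on which `Gal(Fbar/F)` acts through the character `ψ`. -/
noncomputable def psiPtsO {K : Type u} [Field K] (A : Over (Spec (.of K))) [GrpObj A] [IsAbVar A]
    (F : Type u) [Field F] [Algebra K F]
    (ψ : (AlgebraicClosure F ≃ₐ[F] AlgebraicClosure F) →* ℤˣ) :
    AddSubgroup (Pts A (AlgebraicClosure F)) where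
  carrier := {x | ∀ σ : AlgebraicClosure F ≃ₐ[F] AlgebraicClosure F,
    galHom A (σ.restrictScalars K) x = (ψ σ : ℤ) • x}
  zero_mem' := fun σ => by rw [map_zero, smul_zero]
  add_mem' := fun {x y} hx hy σ => by rw [map_add, hx σ, hy σ, smul_add]
  neg_mem' := fun {x} hx σ => by rw [map_neg, hx σ, smul_neg]

/-- The rank of `psiPtsO A F ψ`, which is the rank of the twist of `A` by `ψ` over `F`. -/
noncomputable def psiRkO {K : Type u} [Field K] (A : Over (Spec (.of K))) [GrpObj A] [IsAbVar A]
    (F : Type u) [Field F] [Algebra K F]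
    (ψ : (AlgebraicClosure F ≃ₐ[F] AlgebraicClosure F) →* ℤˣ) : ℕ :=
  Module.finrank ℤ (psiPtsO A F ψ)

/-- The subgroup of the points `P` of `A(Kbar)` with `σ P = P` for the elements `σ` of `Gal(Kbar/L)`
which fix the square roots of `b`, and `σ P = - P` for the others. -/
noncomputable def twPts {K : Type u} [Field K] (A : Over (Spec (.of K))) [GrpObj A] [IsAbVar A]
    (L : IntermediateField K (AlgebraicClosure K)) (b : AlgebraicClosure K) :
    AddSubgroup (Pts A (AlgebraicClosure K)) where
  carrier := {P | ∀ σ ∈ L.fixingSubgroup, ∀ s : AlgebraicClosure K, s ^ 2 = b →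
    (σ s = s → galHom A σ P = P) ∧ (σ s ≠ s → galHom A σ P = -P)}
  zero_mem' := fun σ _ s _ => by rw [map_zero, neg_zero]; exact ⟨fun _ => rfl, fun _ => rfl⟩
  add_mem' := fun {x y} hx hy σ hσ s hs => by
    rw [map_add]
    refine ⟨fun h => ?_, fun h => ?_⟩
    · rw [((hx σ hσ s hs).1 h), ((hy σ hσ s hs).1 h)]
    · rw [((hx σ hσ s hs).2 h), ((hy σ hσ s hs).2 h)]
      abel
  neg_mem' := fun {x} hx σ hσ s hs => by
    rw [map_neg]
    refine ⟨fun h => ?_, fun h => ?_⟩
    · rw [((hx σ hσ s hs).1 h)]
    · rw [((hx σ hσ s hs).2 h)]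

/-- The rank of `twPts A L b`. -/
noncomputable def twRk {K : Type u} [Field K] (A : Over (Spec (.of K))) [GrpObj A] [IsAbVar A]
    (L : IntermediateField K (AlgebraicClosure K)) (b : AlgebraicClosure K) : ℕ :=
  Module.finrank ℤ (twPts A L b)

/-- The additive form of the sign. -/
def sg (ε : ℤˣ) : ZMod 2 := if ε = 1 then 0 else 1

/-- For all large `m` the ranks over `F` of the twists of `A` by `a` and by `D m * a` are finite and
their sum is odd. -/
def OffT {K : Type u} [Field K] (A : Over (Spec (.of K))) [GrpObj A] [IsAbVar A] (D : ℕ → K)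
    (F : IntermediateField K (AlgebraicClosure K)) (a : AlgebraicClosure K) : Prop :=
  ∃ m₀ : ℕ, ∀ m, m₀ ≤ m → Module.rank ℤ (twPts A F a) < Cardinal.aleph0 ∧
    Module.rank ℤ (twPts A F (algebraMap K (AlgebraicClosure K) (D m) * a)) < Cardinal.aleph0 ∧
    ¬ Even (twRk A F a + twRk A F (algebraMap K (AlgebraicClosure K) (D m) * a))

end Pool.Agent.H.MP_ac3185_nt.D14
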