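import Pool.Agent.H.MP_ac3185_nt.D14.Defs
import Pool.Agent.H.MP_ac3185_nt.O42.Eps

/-! The isotypic parts of the points of a quadratic twist over an extension of `K`. -/

set_option autoImplicit false

open CategoryTheory AlgebraicGeometry NumberField
open scoped MonObj TensorProduct

namespace Pool.Agent.H.MP_ac3185_nt.D14

open OE

universe u

variable {K : Type u} [Field K] {F : Type u} [Field F] [CharZero F] [Algebra K F]

theorem Eps_twist (A : Over (Spec (.of K))) [GrpObj A] [IsAbVar A] (B : Over (Spec (.of F)))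
    [GrpObj B] [IsAbVar B] (e : F) (φ : Pts A (AlgebraicClosure F) ≃+ Pts B (AlgebraicClosure F))
    (hφ : ∀ (σ : AlgebraicClosure F ≃ₐ[F] AlgebraicClosure F) (s : AlgebraicClosure F),
      s ^ 2 = algebraMap F (AlgebraicClosure F) e → ∀ x : Pts A (AlgebraicClosure F),
        (σ s = s → φ (galHom A (σ.restrictScalars K) x) = galHom B σ (φ x)) ∧
        (σ s ≠ s → φ (galHom A (σ.restrictScalars K) x) = -galHom B σ (φ x)))
    (σ : AlgebraicClosure F ≃ₐ[F] AlgebraicClosure F) (x : Pts A (AlgebraicClosure F)) :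
    φ (galHom A (σ.restrictScalars K) x) = (chiK e σ : ℤ) • galHom B σ (φ x) := by
  have h1 := hφ σ (rtK F e) (rtK_sq F e) x
  have h2 := chiK_eq_one_iff e σ (rtK F e) (rtK_sq F e)
  by_cases h : σ (rtK F e) = rtK F e
  · rw [h1.1 h, h2.2 h, Units.val_one, one_smul]
  · have h3 : chiK e σ = -1 := by
      rcases Int.units_eq_one_or (chiK e σ) with h4 | h4
      · exact absurd (h2.1 h4) h
      · exact h4
    rw [h1.2 h, h3, Units.val_neg, Units.val_one, neg_smul, one_smul]

/-- As `exists_repK` in `O42/Eps.lean`, for `A` over a subfield `K` of the base field `F`. -/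
theorem exists_repO
    (A : Over (Spec (.of K))) [GrpObj A] [IsAbVar A] (B : Over (Spec (.of F))) [GrpObj B] [IsAbVar B]
    (e : F) (hAB : IsTwistOver A B e) (L : IntermediateField F (AlgebraicClosure F))
    [FiniteDimensional F L] [IsGalois F L] :
    ∃ (M : Type u) (_ : AddCommGroup M) (_ : Module ℚ M) (ρ : Representation ℚ (L ≃ₐ[F] L) M),
      Module.rank ℚ M = Module.rank ℤ (Pts B L) ∧
      ∀ (ε : (L ≃ₐ[F] L) →* ℤˣ) (ψ : (AlgebraicClosure F ≃ₐ[F] AlgebraicClosure F) →* ℤˣ),
        (∀ σ : AlgebraicClosure F ≃ₐ[F] AlgebraicClosure F,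
          ε (AlgEquiv.restrictNormalHom L σ) * chiK e σ = ψ σ) →
        Module.rank ℚ (epsPart ρ ε) = Module.rank ℤ (psiPtsO A F ψ) := by
  have hfin : Finite (L ≃ₐ[F] L) := inferInstance
  refine ⟨ℚ ⊗[ℤ] Pts B L, inferInstance, inferInstance,
    ptsb_rep (galHom B) (ptsb_galHom_one B) (ptsb_galHom_mul B), ptsb_rank _, ?_⟩
  intro ε ψ hε
  obtain ⟨φ, hφ⟩ := hAB
  obtain ⟨j, hj, hj2, hj3⟩ := pts_descent_closure B L
  have htw := Eps_twist A B e φ hφ
  have hres : ∀ (σ : AlgebraicClosure F ≃ₐ[F] AlgebraicClosure F) (x : L),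
      σ (x : AlgebraicClosure F) = ((AlgEquiv.restrictNormalHom L σ) x : AlgebraicClosure F) :=
    fun σ x => (AlgEquiv.restrictNormal_commutes σ L x).symm
  have hsurj : ∀ g : L ≃ₐ[F] L, ∃ σ : AlgebraicClosure F ≃ₐ[F] AlgebraicClosure F,
      AlgEquiv.restrictNormalHom L σ = g :=
    AlgEquiv.restrictNormalHom_surjective (AlgebraicClosure F)
  have hε' : ∀ σ : AlgebraicClosure F ≃ₐ[F] AlgebraicClosure F,
      (chiK e σ : ℤ) * (ψ σ : ℤ) = (ε (AlgEquiv.restrictNormalHom L σ) : ℤ) := by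
    intro σ
    rw [← hε σ, Units.val_mul, mul_comm, mul_assoc, ueps_unit_sq, mul_one]
  -- the action on the points coming from `psiPts`
  have hact : ∀ x ∈ psiPtsO A F ψ, ∀ σ : AlgebraicClosure F ≃ₐ[F] AlgebraicClosure F,
      galHom B σ (φ x) = (ε (AlgEquiv.restrictNormalHom L σ) : ℤ) • φ x := by
    intro x hx σ
    have h1 := htw σ x
    have h2 : galHom A (σ.restrictScalars K) x = (ψ σ : ℤ) • x := hx σ
    rw [h2, map_zsmul] at h1
    have h3 : (chiK e σ : ℤ) • (ψ σ : ℤ) • φ x = galHom B σ (φ x) := by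
      rw [h1, ueps_smul_smul]
    rw [← h3, smul_smul, hε']
  have hmem : ∀ x : psiPtsO A F ψ, φ (x : Pts A (AlgebraicClosure F)) ∈ j.range := by
    intro x
    obtain ⟨y, hy⟩ := (hj3 (φ (x : Pts A (AlgebraicClosure F)))).2 (by
      intro σ hσ
      rw [hact x x.2 σ]
      have h1 : AlgEquiv.restrictNormalHom L σ = 1 := by
        apply AlgEquiv.ext
        intro z
        apply Subtype.ext
        rw [← hres σ z]
        exact (IntermediateField.mem_fixingSubgroup_iff _ _).1 hσ z z.2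
      rw [h1, map_one, Units.val_one, one_smul])
    exact ⟨y, hy⟩
  let j' : psiPtsO A F ψ →+ Pts B L :=
    (AddMonoidHom.ofInjective hj).symm.toAddMonoidHom.comp
      (((φ.toAddMonoidHom).comp (psiPtsO A F ψ).subtype).codRestrict j.range hmem)
  have hj' : ∀ x : psiPtsO A F ψ, j (j' x) = φ (x : Pts A (AlgebraicClosure F)) := by
    intro x
    exact AddMonoidHom.apply_ofInjective_symm hj
      (((φ.toAddMonoidHom).comp (psiPtsO A F ψ).subtype).codRestrict j.range hmem x)
  refine eps_main (galHom B) (ptsb_galHom_one B) (ptsb_galHom_mul B) ε j' ?_ ?_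
  · intro x x' h
    have h1 : φ (x : Pts A (AlgebraicClosure F)) = φ (x' : Pts A (AlgebraicClosure F)) := by
      rw [← hj', ← hj', h]
    exact Subtype.ext (φ.injective h1)
  · intro y
    constructor
    · rintro ⟨x, rfl⟩ g
      obtain ⟨σ, hσ⟩ := hsurj g
      apply hj
      rw [hj2 σ g (fun z => by rw [hres σ z, hσ]), hj', hact x x.2 σ, hσ, map_zsmul, hj']
    · intro hy
      have hz : φ.symm (j y) ∈ psiPtsO A F ψ := by
        intro σ
        apply φ.injective
        rw [htw σ, AddEquiv.apply_symm_apply,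
          ← hj2 σ (AlgEquiv.restrictNormalHom L σ) (hres σ) y, hy, map_zsmul, map_zsmul,
          AddEquiv.apply_symm_apply, smul_smul, ← hε σ, Units.val_mul, mul_comm]
      refine ⟨⟨φ.symm (j y), hz⟩, ?_⟩
      apply hj
      rw [hj']
      exact AddEquiv.apply_symm_apply φ (j y)

end Pool.Agent.H.MP_ac3185_nt.D14
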