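import Pool.Agent.H.MP_ac3185_nt.D14.Indep
import Pool.Agent.H.MP_ac3185_nt.Q42.Main

/-! One square root, and the global root number. -/

set_option autoImplicit false

open CategoryTheory AlgebraicGeometry NumberField IsDedekindDomain
open scoped MonObj

namespace Pool.Agent.H.MP_ac3185_nt.D14

open OE KT QF

universe u

/-- A finite extension `M` of `F` which meets the field generated by the square roots of the elements of
`Z` in more than `F` contains the square root of a product of elements of `Z` which is not a square.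

PROOF. `M₀ = M ⊓ sqrtExt Z` is finite over `F` and not `⊥`, so its degree is at least `2`
(`IntermediateField.finrank_eq_one_iff`); `exists_indep_roots` with `m = 1`. -/
theorem exists_root_inf {F : Type u} [Field F] [CharZero F] (Z : Set F) (hZ : ∀ b ∈ Z, b ≠ 0)
    (M : IntermediateField F (AlgebraicClosure F)) [FiniteDimensional F M]
    (hM : M ⊓ sqrtExt Z ≠ ⊥) :
    ∃ (e : F) (t : Finset F), (∀ b ∈ t, b ∈ Z) ∧ e = ∏ b ∈ t, b ∧ (∀ y : F, y ^ 2 ≠ e) ∧
      rtK F e ∈ M := by
  have hfin : FiniteDimensional F (M ⊓ sqrtExt Z : IntermediateField F (AlgebraicClosure F)) :=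
    FiniteDimensional.of_injective
      (IntermediateField.inclusion (inf_le_left : M ⊓ sqrtExt Z ≤ M)).toLinearMap
      (IntermediateField.inclusion (inf_le_left : M ⊓ sqrtExt Z ≤ M)).injective
  have h1 : 2 ^ 1 ≤ Module.finrank F
      (M ⊓ sqrtExt Z : IntermediateField F (AlgebraicClosure F)) := by
    have h2 : 0 < Module.finrank F
      (M ⊓ sqrtExt Z : IntermediateField F (AlgebraicClosure F)) := Module.finrank_pos
    have h3 : Module.finrank F
      (M ⊓ sqrtExt Z : IntermediateField F (AlgebraicClosure F)) ≠ 1 := fun h =>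
      hM (IntermediateField.finrank_eq_one_iff.1 h)
    omega
  obtain ⟨e, he1, he2, he3⟩ := exists_indep_roots Z hZ (M ⊓ sqrtExt Z) inf_le_right 1 h1
  obtain ⟨t, ht, het⟩ := he3 0
  refine ⟨e 0, t, ht, het, fun y hy => ?_, ?_⟩
  · exact he1 {0} (Finset.singleton_nonempty 0) y (by rw [hy, Finset.prod_singleton])
  · exact (inf_le_left : M ⊓ sqrtExt Z ≤ M) (he2 0)

/-- The global root number over `M`, if `M` contains a square root of an element which is positive at
the real places and a square at the finite places above `2 N`.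

PROOF. `root_quad` (`Q42/Root.lean`) for `A = B`, `a = 1` (`IsTwistBy B B 1` with the identity: every
square root of `1` is fixed by every `σ`). -/
theorem sign_of_root {F : Type u} [Field F] [NumberField F] (B : Over (Spec (.of F))) [GrpObj B]
    [IsAbVar B] {N : ℕ} (hN : GoodOutside B N) (W : LocalSigns F) (hW : IsRootNumberFamily B W)
    (g : ℕ) (M : IntermediateField F (AlgebraicClosure F)) [FiniteDimensional F M] [IsGalois F M]
    (e : F) (he : ∀ y : F, y ^ 2 ≠ e) (heM : rtK F e ∈ M) (hpos : QF.TotPos e)
    (hloc : ∀ v : HeightOneSpectrum (𝓞 F), ((2 * N : ℕ) : 𝓞 F) ∈ v.asIdeal → LocSq v e) :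
    signOver W g M = 1 := by
  have he0 : e ≠ 0 := fun h => he 0 (by rw [h, zero_pow two_ne_zero])
  have htw : IsTwistBy B B (1 : F) := by
    refine ⟨AddEquiv.refl _, fun σ s hs x => ⟨fun _ => rfl, fun h => absurd ?_ h⟩⟩
    rw [map_one] at hs
    rcases sq_eq_sq_iff_eq_or_eq_neg.1 (hs.trans (one_pow 2).symm) with h1 | h1
    · rw [h1, map_one]
    · rw [h1, map_neg, map_one]
  exact root_quad B B hN 1 one_ne_zero htw W hW g M e he0 (rtK F e) heM (rtK_sq F e) he hpos hloc

end Pool.Agent.H.MP_ac3185_nt.D14
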