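import Pool.Agent.H.MP_ac3185_nt.D14.Defs
import Pool.Agent.H.MP_ac3185_nt.Q42.Main

/-! Local conditions for products over blocks. -/

set_option autoImplicit false

open NumberField IsDedekindDomain

namespace Pool.Agent.H.MP_ac3185_nt.D14

open OE KT QF

universe u

/-- If the truth of `LocSq v` is the same for all finite products of the `E j` with large indices, then
it is true for them.

PROOF. `exists_locSq` (`helper16/K/Local.lean`) for the elements `E (m + i)`, `i < 3 [F : ℚ] + 2`, gives
a nonempty set `T` of indices `≥ m` with `LocSq v (∏ j ∈ T, E j)`. -/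
theorem locSq_tail {F : Type u} [Field F] [NumberField F] (E : ℕ → F) (hE : ∀ j, E j ≠ 0)
    (v : HeightOneSpectrum (𝓞 F)) (m : ℕ) (p : Prop)
    (h : ∀ T : Finset ℕ, T.Nonempty → (∀ j ∈ T, m ≤ j) → (LocSq v (∏ j ∈ T, E j) ↔ p)) :
    ∀ T : Finset ℕ, T.Nonempty → (∀ j ∈ T, m ≤ j) → LocSq v (∏ j ∈ T, E j) := by
  classical
  obtain ⟨T, hT, hloc⟩ := exists_locSq v (k := 3 * Module.finrank ℚ F + 2) le_rfl
    (fun i => E (m + (i : ℕ))) fun i => hE _
  have hinj : Function.Injective fun i : Fin (3 * Module.finrank ℚ F + 2) => m + (i : ℕ) := by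
    intro i j hij
    exact Fin.ext (Nat.add_left_cancel hij)
  have hp : p := by
    refine (h (T.image fun i : Fin (3 * Module.finrank ℚ F + 2) => m + (i : ℕ)) (hT.image _) ?_).1 ?_
    · intro j hj
      obtain ⟨i, -, rfl⟩ := Finset.mem_image.1 hj
      exact Nat.le_add_right m _
    · rw [Finset.prod_image fun i _ j _ hij => hinj hij]
      exact hloc
  exact fun T hT hj => (h T hT hj).2 hp

/-- The same for positivity at the real places.

PROOF. The map `j ↦ (φ ↦ 0 < (φ (E j)).re)` to the finite set `(F →+* ℂ) → Prop` takes the same value at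
two different indices `j, j' ≥ m`; `totPos_mul` (`Q42/Main.lean`) for `T = {j, j'}`. -/
theorem totPos_tail {F : Type u} [Field F] [NumberField F] (E : ℕ → F) (hE : ∀ j, E j ≠ 0)
    (m : ℕ) (p : Prop)
    (h : ∀ T : Finset ℕ, T.Nonempty → (∀ j ∈ T, m ≤ j) → (QF.TotPos (∏ j ∈ T, E j) ↔ p)) :
    ∀ T : Finset ℕ, T.Nonempty → (∀ j ∈ T, m ≤ j) → QF.TotPos (∏ j ∈ T, E j) := by
  classical
  have hfin : Finite ((F →+* ℂ) → Prop) := inferInstance
  obtain ⟨i, j, hij, hf⟩ := Finite.exists_ne_map_eq_of_infinite
    (fun j : ℕ => fun φ : F →+* ℂ => 0 < (φ (E (m + j))).re)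
  have hne : m + i ≠ m + j := fun h => hij (Nat.add_left_cancel h)
  have hp : p := by
    refine (h {m + i, m + j} ⟨m + i, Finset.mem_insert_self _ _⟩ ?_).1 ?_
    · intro l hl
      rcases Finset.mem_insert.1 hl with h1 | h1
      · rw [h1]
        exact Nat.le_add_right m i
      · rw [Finset.mem_singleton.1 h1]
        exact Nat.le_add_right m j
    · rw [Finset.prod_pair hne]
      exact totPos_mul _ _ (hE _) (hE _) fun φ => iff_of_eq (congrFun hf φ)
  exact fun T hT hj => (h T hT hj).2 hp

/-- The finite places of a number field can be enumerated.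

PROOF. `𝓞 F` is countable (it embeds into `F`, `countable_of_numberField`) and Noetherian, so it has
only countably many ideals (each is the span of a finite set), so `HeightOneSpectrum (𝓞 F)` is countable
(`HeightOneSpectrum.ext`); it is nonempty (for instance a maximal ideal containing `2`). Then
`exists_surjective_nat`. -/
theorem exists_enum (F : Type u) [Field F] [NumberField F] :
    ∃ f : ℕ → HeightOneSpectrum (𝓞 F), Function.Surjective f := by
  have h1 : Countable F := countable_of_numberField F
  have h2 : Countable (𝓞 F) :=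
    (show Function.Injective (algebraMap (𝓞 F) F) from
      RingOfIntegers.coe_injective).countable
  have h3 : Countable (Ideal (𝓞 F)) := by
    refine Function.Surjective.countable
      (f := fun s : Finset (𝓞 F) => Ideal.span (s : Set (𝓞 F))) fun I => ?_
    obtain ⟨s, hs⟩ := (isNoetherianRing_iff_ideal_fg (𝓞 F)).1 inferInstance I
    exact ⟨s, hs⟩
  have h4 : Countable (HeightOneSpectrum (𝓞 F)) := by
    refine Function.Injective.countable (f := fun v : HeightOneSpectrum (𝓞 F) => v.asIdeal) ?_
    intro v w hvw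
    exact HeightOneSpectrum.ext hvw
  have h5 : Nonempty (HeightOneSpectrum (𝓞 F)) := by
    obtain ⟨M, hM⟩ := Ideal.exists_maximal (𝓞 F)
    exact ⟨⟨M, hM.isPrime, Ring.ne_bot_of_isMaximal_of_not_isField hM
      (RingOfIntegers.not_isField F)⟩⟩
  exact exists_surjective_nat _

end Pool.Agent.H.MP_ac3185_nt.D14
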