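import Pool.Agent.H.MP_ac3185_nt.D14.Eps
import Pool.Agent.H.MP_ac3185_nt.Q42.Rank

/-! The parity of the ranks of the quadratic twists over an extension of `K`. -/

set_option autoImplicit false

open CategoryTheory AlgebraicGeometry NumberField IsDedekindDomain
open scoped MonObj

namespace Pool.Agent.H.MP_ac3185_nt.D14

open OE

universe u

/-- As `rankK_even` in `O42/Rank.lean`, for `A` over a subfield `K` of the base field `F`. -/
theorem rankO_even {K : Type u} [Field K] {F : Type u} [Field F] [CharZero F] [Algebra K F]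
    (A : Over (Spec (.of K))) [GrpObj A] [IsAbVar A] (B : Over (Spec (.of F))) [GrpObj B] [IsAbVar B]
    (a : F) (hAB : IsTwistOver A B a) (X : Set F) (hX : ∀ b ∈ X, b ≠ 0)
    (L : IntermediateField F (AlgebraicClosure F)) (hL : AboveTower (sqrtExt X) L)
    (c : F) (x : AlgebraicClosure F) (hxL : x ∈ L)
    (hx : x ^ 2 = algebraMap F (AlgebraicClosure F) c) (hc : chiK c ≠ 1)
    (b : F) (y : AlgebraicClosure F) (hyL : y ∈ L)
    (hy : y ^ 2 = algebraMap F (AlgebraicClosure F) b) (hb : chiK b ≠ 1)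
    (hbc : chiK c ≠ chiK b) (δ : ℕ)
    (hP : ∀ t : Finset F, (∀ b ∈ t, b ∈ X) →
      psiRkO A F (chiK (∏ b ∈ t, b) * chiK a) + psiRkO A F (chiK (∏ b ∈ t, b) * chiK c * chiK a) ≡
        δ [MOD 2]) :
    Even (Module.rank ℤ (Pts B L)) := by
  classical
  obtain ⟨hfd0, hgal, hnil, -, hq⟩ := hL
  rcases lt_or_ge (Module.rank ℤ (Pts B L)) Cardinal.aleph0 with h1 | h1
  · obtain ⟨r, hr⟩ := Cardinal.lt_aleph0.1 h1
    rw [hr]
    apply gt_even_nat
    have hfinG : Finite (L ≃ₐ[F] L) := inferInstance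
    obtain ⟨M, _, _, ρ, hM, hε⟩ := exists_repO A B _ hAB L
    have hMr : Module.rank ℚ M = (r : Cardinal) := hM.trans hr
    have hfd : FiniteDimensional ℚ M := Module.rank_lt_aleph0_iff.1 (by
      rw [hMr]; exact Cardinal.natCast_lt_aleph0)
    have hMf : Module.finrank ℚ M = r := Module.finrank_eq_of_rank_eq hMr
    obtain ⟨N, hN, hodd, h2⟩ := hnil
    have hmod := finrank_two_nilpotent N hodd h2 ρ
    obtain ⟨ε₀, hε₀⟩ := epsK L c x hxL hx
    obtain ⟨ε₁, hε₁⟩ := epsK L b y hyL hy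
    have hval : ∀ (ε : (L ≃ₐ[F] L) →* ℤˣ) (χ : (AlgebraicClosure F ≃ₐ[F] AlgebraicClosure F) →* ℤˣ),
        (∀ σ, ε (AlgEquiv.restrictNormalHom L σ) = χ σ) → ε = 1 → χ = 1 := by
      intro ε χ h3 h4
      apply MonoidHom.ext
      intro σ
      rw [← h3 σ, h4]
      rfl
    have hne₀ : ε₀ ≠ 1 := fun h => hc (hval ε₀ _ hε₀ h)
    have hne₁ : ε₁ ≠ 1 := fun h => hb (hval ε₁ _ hε₁ h)
    have hne : ε₀ ≠ ε₁ := by
      intro h
      apply hbc
      apply MonoidHom.ext
      intro σ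
      rw [← hε₀ σ, h, hε₁ σ]
    have h4 := four_dvd_chars ε₀ ε₁ hne₀ hne₁ hne
    have hfin : Finite ((L ≃ₐ[F] L) →* ℤˣ) := DFunLike.finite _
    have _ : Fintype ((L ≃ₐ[F] L) →* ℤˣ) := Fintype.ofFinite _
    rw [Nat.card_eq_fintype_card] at h4
    rw [hMf, finsum_eq_sum_of_fintype] at hmod
    have hg : ∀ (ε : (L ≃ₐ[F] L) →* ℤˣ) (ψ : (AlgebraicClosure F ≃ₐ[F] AlgebraicClosure F) →* ℤˣ),
        (∀ σ, ε (AlgEquiv.restrictNormalHom L σ) * chiK a σ = ψ σ) →
        Module.finrank ℚ (epsPart ρ ε) = psiRkO A F ψ := by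
      intro ε ψ h5
      have h6 := hε ε ψ h5
      unfold psiRkO Module.finrank
      rw [h6]
    have hinv : ∀ ε : (L ≃ₐ[F] L) →* ℤˣ, ε * ε₀ * ε₀ = ε := by
      intro ε
      rw [mul_assoc]
      have h9 : ε₀ * ε₀ = 1 := by
        apply MonoidHom.ext
        intro g
        rw [MonoidHom.mul_apply, Int.units_mul_self, MonoidHom.one_apply]
      rw [h9, mul_one]
    have hev := even_sum_pair (fun ε : (L ≃ₐ[F] L) →* ℤˣ => Module.finrank ℚ (epsPart ρ ε))
      (fun ε => ε * ε₀) hinv (fun ε h => hne₀ (mul_eq_left.1 h)) δ (fun ε => by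
        obtain ⟨t, ht, ht2⟩ := charK_tower X hX L hq ε
        have h7 := hg ε (chiK (∏ b ∈ t, b) * chiK a) (fun σ => by
          rw [ht2, MonoidHom.mul_apply])
        have h8 := hg (ε * ε₀) (chiK (∏ b ∈ t, b) * chiK c * chiK a) (fun σ => by
          rw [MonoidHom.mul_apply, ht2, hε₀, MonoidHom.mul_apply, MonoidHom.mul_apply])
        show Module.finrank ℚ (epsPart ρ ε) + Module.finrank ℚ (epsPart ρ (ε * ε₀)) ≡ δ [MOD 2]
        rw [h7, h8]
        exact hP t ht) h4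
    rw [Nat.even_iff] at hev ⊢
    exact (show r % 2 = _ from hmod).trans hev
  · have h2 := gt_even_infinite _ h1 0
    rwa [Nat.cast_zero, add_zero] at h2

/-- As `rankQ_even` in `Q42/Rank.lean`, for `A` over a subfield `K` of the base field `F`. -/
theorem rankO_even0 {K : Type u} [Field K] {F : Type u} [Field F] [CharZero F] [Algebra K F]
    (A : Over (Spec (.of K))) [GrpObj A] [IsAbVar A] (B : Over (Spec (.of F))) [GrpObj B] [IsAbVar B]
    (a : F) (hAB : IsTwistOver A B a) (X : Set F) (hX : ∀ b ∈ X, b ≠ 0)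
    (L : IntermediateField F (AlgebraicClosure F)) (hL : AboveTower (sqrtExt X) L)
    (c : F) (x : AlgebraicClosure F) (hxL : x ∈ L)
    (hx : x ^ 2 = algebraMap F (AlgebraicClosure F) c) (hc : chiK c ≠ 1)
    (hP : ∀ t : Finset F, (∀ b ∈ t, b ∈ X) →
      psiRkO A F (chiK (∏ b ∈ t, b) * chiK a) + psiRkO A F (chiK (∏ b ∈ t, b) * chiK c * chiK a) ≡
        0 [MOD 2]) :
    Even (Module.rank ℤ (Pts B L)) := by
  classical
  obtain ⟨hfd0, hgal, hnil, -, hq⟩ := hL
  rcases lt_or_ge (Module.rank ℤ (Pts B L)) Cardinal.aleph0 with h1 | h1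
  · obtain ⟨r, hr⟩ := Cardinal.lt_aleph0.1 h1
    rw [hr]
    apply gt_even_nat
    have hfinG : Finite (L ≃ₐ[F] L) := inferInstance
    obtain ⟨M, _, _, ρ, hM, hε⟩ := exists_repO A B _ hAB L
    have hMr : Module.rank ℚ M = (r : Cardinal) := hM.trans hr
    have hfd : FiniteDimensional ℚ M := Module.rank_lt_aleph0_iff.1 (by
      rw [hMr]; exact Cardinal.natCast_lt_aleph0)
    have hMf : Module.finrank ℚ M = r := Module.finrank_eq_of_rank_eq hMr
    obtain ⟨N, hN, hodd, h2⟩ := hnil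
    have hmod := finrank_two_nilpotent N hodd h2 ρ
    obtain ⟨ε₀, hε₀⟩ := epsK L c x hxL hx
    have hne₀ : ε₀ ≠ 1 := fun h => hc (by
      apply MonoidHom.ext
      intro σ
      rw [← hε₀ σ, h]
      rfl)
    have hfin : Finite ((L ≃ₐ[F] L) →* ℤˣ) := DFunLike.finite _
    have _ : Fintype ((L ≃ₐ[F] L) →* ℤˣ) := Fintype.ofFinite _
    rw [hMf, finsum_eq_sum_of_fintype] at hmod
    have hg : ∀ (ε : (L ≃ₐ[F] L) →* ℤˣ) (ψ : (AlgebraicClosure F ≃ₐ[F] AlgebraicClosure F) →* ℤˣ),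
        (∀ σ, ε (AlgEquiv.restrictNormalHom L σ) * chiK a σ = ψ σ) →
        Module.finrank ℚ (epsPart ρ ε) = psiRkO A F ψ := by
      intro ε ψ h5
      have h6 := hε ε ψ h5
      unfold psiRkO Module.finrank
      rw [h6]
    have hinv : ∀ ε : (L ≃ₐ[F] L) →* ℤˣ, ε * ε₀ * ε₀ = ε := by
      intro ε
      rw [mul_assoc]
      have h9 : ε₀ * ε₀ = 1 := by
        apply MonoidHom.ext
        intro g
        rw [MonoidHom.mul_apply, Int.units_mul_self, MonoidHom.one_apply]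
      rw [h9, mul_one]
    have hev := QF.even_sum_inv (fun ε : (L ≃ₐ[F] L) →* ℤˣ => Module.finrank ℚ (epsPart ρ ε))
      (fun ε => ε * ε₀) hinv (fun ε h => hne₀ (mul_eq_left.1 h)) (fun ε => by
        obtain ⟨t, ht, ht2⟩ := charK_tower X hX L hq ε
        have h7 := hg ε (chiK (∏ b ∈ t, b) * chiK a) (fun σ => by
          rw [ht2, MonoidHom.mul_apply])
        have h8 := hg (ε * ε₀) (chiK (∏ b ∈ t, b) * chiK c * chiK a) (fun σ => by
          rw [MonoidHom.mul_apply, ht2, hε₀, MonoidHom.mul_apply, MonoidHom.mul_apply])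
        show Module.finrank ℚ (epsPart ρ ε) + Module.finrank ℚ (epsPart ρ (ε * ε₀)) ≡ 0 [MOD 2]
        rw [h7, h8]
        exact hP t ht)
    rw [Nat.even_iff] at hev ⊢
    exact (show r % 2 = _ from hmod).trans hev
  · have h2 := gt_even_infinite _ h1 0
    rwa [Nat.cast_zero, add_zero] at h2

end Pool.Agent.H.MP_ac3185_nt.D14
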