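import Pool.Agent.H.MP_ac3185_nt.D14.Trans
import Pool.Agent.H.MP_ac3185_nt.D14.Fin1
import Pool.Agent.H.MP_ac3185_nt.D14.LocD
import Pool.Agent.H.MP_ac3185_nt.D14.Rank
import Pool.Agent.H.MP_ac3185_nt.O42.Main

/-! The data of one field, and the fields over which the twists are good. -/

set_option autoImplicit false

open CategoryTheory AlgebraicGeometry NumberField IsDedekindDomain
open scoped MonObj

namespace Pool.Agent.H.MP_ac3185_nt.D14

open OE

universe u

/-- The field generated over `F` by the square roots of `c` and of the `D j` with `j ≥ n`. -/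
noncomputable def tailField {K : Type u} [Field K] (D : ℕ → K) (n : ℕ) (F : Type u) [Field F]
    [Algebra K F] (c : F) : IntermediateField F (AlgebraicClosure F) :=
  sqrtExt (insert c {z | ∃ j, n ≤ j ∧ z = algebraMap K F (D j)})

/-- Let `B` be the quadratic twist of `A` by `a`, over `F`. There is an `n` with the following property.
Let `T` be the field generated over `F` by the square roots of the `D j` with `j ≥ n`. Let `M` be a
finite extension of `F` which contains a square root of `c`, with `M ∩ T ≠ F`, and which is contained in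
`T(√c)` or, more generally, is a Galois extension of `F` whose quadratic subextensions lie in `T(√c)` and
whose Galois group has a normal `2`-complement, for instance a nilpotent group. Then `B` has global root
number `1` over `M`, and its rank over `M` is even. (The rank is the cardinal number `Module.rank`; a
cardinal `x` is even if `x = b + b` for some `b`, so infinite cardinals, which do not occur by the
theorem of Mordell and Weil, are even.) -/
def GoodTail {K : Type u} [Field K] (A : Over (Spec (.of K))) [GrpObj A] [IsAbVar A] (D : ℕ → K)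
    (F : Type u) [Field F] [NumberField F] [Algebra K F] (c a : F) : Prop :=
  ∀ (B : Over (Spec (.of F))) [GrpObj B] [IsAbVar B], IsTwistOver A B a → ∃ n : ℕ,
    ∀ M : IntermediateField F (AlgebraicClosure F), FiniteDimensional F M →
      (∃ y ∈ M, y ^ 2 = algebraMap F (AlgebraicClosure F) c) → M ⊓ tailField D n F 1 ≠ ⊥ →
      (M ≤ tailField D n F c ∨ AboveTower (tailField D n F c) M) →
        (∀ W : LocalSigns F, IsRootNumberFamily B W → ∀ g : ℕ, signOver W g M = 1) ∧
          Even (Module.rank ℤ (Pts B M))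

/-- The same with `c = 1` and odd rank: let `B` be the quadratic twist of `A` by `a`, over `F`. There is
an `n` such that for the fields `T` and `M` as in `GoodTail` (with `c = 1`) the global root number of `B`
over `M` is `1`, and the rank of `B` over `M` is not even if it is finite, so that the parity
conjecture is false for `B` over all these `M`. -/
def BadTail {K : Type u} [Field K] (A : Over (Spec (.of K))) [GrpObj A] [IsAbVar A] (D : ℕ → K)
    (F : Type u) [Field F] [NumberField F] [Algebra K F] (a : F) : Prop :=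
  ∀ (B : Over (Spec (.of F))) [GrpObj B] [IsAbVar B], IsTwistOver A B a → ∃ n : ℕ,
    ∀ M : IntermediateField F (AlgebraicClosure F), FiniteDimensional F M →
      M ⊓ tailField D n F 1 ≠ ⊥ →
      (M ≤ tailField D n F 1 ∨ AboveTower (tailField D n F 1) M) →
        (∀ W : LocalSigns F, IsRootNumberFamily B W → ∀ g : ℕ, signOver W g M = 1) ∧
          (Module.rank ℤ (Pts B M) < Cardinal.aleph0 → ¬ Even (Module.rank ℤ (Pts B M)))

/-- The parities and the finiteness of the ranks of the twists over `F` by the products of the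
`D (n + j)`. -/
structure FieldData {K : Type u} [Field K] [CharZero K] {I : Type}
    (A : I → Over (Spec (.of K))) [∀ i, GrpObj (A i)] [∀ i, IsAbVar (A i)]
    (D : ℕ → K) (F : IntermediateField K (AlgebraicClosure K)) (n : ℕ)
    (α φ : F → I → Prop) (k : F → I → ℕ) : Prop where
  h0 : ∀ j, algebraMap K F (D (n + j)) ≠ 0
  hi : ∀ T : Finset ℕ, T.Nonempty → ∀ y : F, y ^ 2 ≠ ∏ j ∈ T, algebraMap K F (D (n + j))
  hα : ∀ a i, ∀ T : Finset ℕ, T.Nonempty → (∀ j ∈ T, k a i ≤ j) →
    (Even (psiRkO (A i) F (chiK (∏ j ∈ T, algebraMap K F (D (n + j))) * chiK a)) ↔ α a i)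
  hφ : ∀ a i, ∀ T : Finset ℕ, T.Nonempty → (∀ j ∈ T, k a i ≤ j) →
    (Module.rank ℤ (psiPtsO (A i) F (chiK (∏ j ∈ T, algebraMap K F (D (n + j))) * chiK a)) <
      Cardinal.aleph0 ↔ φ a i)

/-- The products of the `D (n + j)` are squares at the finite places and positive at the real places,
for large `j`. -/
structure FieldLoc {K : Type u} [Field K] [NumberField K] (D : ℕ → K)
    (F : IntermediateField K (AlgebraicClosure K)) [NumberField F] (n : ℕ) : Prop where
  hloc : ∀ v : HeightOneSpectrum (𝓞 F), ∃ m : ℕ, ∀ T : Finset ℕ, T.Nonempty → (∀ j ∈ T, m ≤ j) →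
    KT.LocSq v (∏ j ∈ T, algebraMap K F (D (n + j)))
  hpos : ∃ m : ℕ, ∀ T : Finset ℕ, T.Nonempty → (∀ j ∈ T, m ≤ j) →
    QF.TotPos (∏ j ∈ T, algebraMap K F (D (n + j)))

/-- The rank of the part of `A(Fbar)` for a character of `Gal(L/F)` times the character of `a` is at
most the rank of the twist over `L`. -/
theorem FD_le {K : Type u} [Field K] {F : Type u} [Field F] [CharZero F] [Algebra K F]
    (A : Over (Spec (.of K))) [GrpObj A] [IsAbVar A] (B : Over (Spec (.of F))) [GrpObj B] [IsAbVar B]
    (a : F) (hAB : IsTwistOver A B a) (L : IntermediateField F (AlgebraicClosure F))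
    [FiniteDimensional F L] [IsGalois F L] (ε : (L ≃ₐ[F] L) →* ℤˣ)
    (ψ : (AlgebraicClosure F ≃ₐ[F] AlgebraicClosure F) →* ℤˣ)
    (hε : ∀ σ : AlgebraicClosure F ≃ₐ[F] AlgebraicClosure F,
      ε (AlgEquiv.restrictNormalHom L σ) * chiK a σ = ψ σ) :
    Module.rank ℤ (psiPtsO A F ψ) ≤ Module.rank ℤ (Pts B L) := by
  obtain ⟨M, _, _, ρ, hM, h⟩ := exists_repO A B a hAB L
  rw [← h ε ψ hε, ← hM]
  exact Submodule.rank_le _

theorem FD_chi_ne {F : Type u} [Field F] [CharZero F] {e : F} (h : ∀ y : F, y ^ 2 ≠ e) :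
    chiK e ≠ 1 := fun h' => by
  obtain ⟨y, hy⟩ := isSquare_of_chiK h'
  exact h y hy

theorem FD_ne {F : Type u} [Field F] {e : F} (h : ∀ y : F, y ^ 2 ≠ e) : e ≠ 0 := by
  rintro rfl
  exact h 0 (zero_pow two_ne_zero)

theorem FD_set {K : Type u} [Field K] (D : ℕ → K) (n N : ℕ) (F : Type u) [Field F] [Algebra K F] :
    {z : F | ∃ j, n + N ≤ j ∧ z = algebraMap K F (D j)} =
      {z : F | ∃ j, N ≤ j ∧ z = algebraMap K F (D (n + j))} := by
  ext z
  constructor
  · rintro ⟨j, hj, rfl⟩
    exact ⟨j - n, by omega, by rw [show n + (j - n) = j by omega]⟩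
  · rintro ⟨j, hj, rfl⟩
    exact ⟨n + j, by omega, rfl⟩

theorem FD_symm {G J : Type*} [CommGroup G] [DecidableEq J] (f : J → G) (hf : ∀ j, f j * f j = 1)
    (S T : Finset J) : (∏ j ∈ S, f j) * ∏ j ∈ T, f j = ∏ j ∈ symmDiff S T, f j := by
  have h1 : ∏ j ∈ S, f j = (∏ j ∈ S \ T, f j) * ∏ j ∈ S ∩ T, f j := by
    rw [← Finset.prod_union (Finset.disjoint_sdiff_inter S T), Finset.sdiff_union_inter]
  have h2 : ∏ j ∈ T, f j = (∏ j ∈ T \ S, f j) * ∏ j ∈ S ∩ T, f j := by
    rw [Finset.inter_comm, ← Finset.prod_union (Finset.disjoint_sdiff_inter T S),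
      Finset.sdiff_union_inter]
  have h3 : (∏ j ∈ S ∩ T, f j) * ∏ j ∈ S ∩ T, f j = 1 := by
    rw [← Finset.prod_mul_distrib]
    exact Finset.prod_eq_one fun j _ => hf j
  have h4 : ∏ j ∈ symmDiff S T, f j = (∏ j ∈ S \ T, f j) * ∏ j ∈ T \ S, f j := by
    rw [symmDiff_def]
    exact Finset.prod_union (disjoint_sdiff_sdiff)
  rw [h1, h2, h4, mul_mul_mul_comm, h3, mul_one]

end Pool.Agent.H.MP_ac3185_nt.D14
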