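import Mathlib

/-! The part of finite multiplicity of a representation of a finite group, of any dimension. -/

set_option autoImplicit false

namespace Pool.Agent.H.MP_ac3185_nt.D14

/-- The eigenspace. -/
noncomputable def egs {G M : Type*} [Group G] [AddCommGroup M] [Module ℚ M]
    (ρ : Representation ℚ G M) (x : G) (ε : ℤˣ) : Submodule ℚ M :=
  LinearMap.ker (ρ x - ((ε : ℤ) : ℚ) • (LinearMap.id : M →ₗ[ℚ] M))

theorem mem_egs {G M : Type*} [Group G] [AddCommGroup M] [Module ℚ M]
    (ρ : Representation ℚ G M) (x : G) (ε : ℤˣ) (v : M) :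
    v ∈ egs ρ x ε ↔ ρ x v = ((ε : ℤ) : ℚ) • v := by
  unfold egs
  rw [LinearMap.mem_ker, LinearMap.sub_apply, LinearMap.smul_apply, LinearMap.id_apply, sub_eq_zero]

theorem egs_map {G M : Type*} [Group G] [AddCommGroup M] [Module ℚ M]
    (ρ : Representation ℚ G M) (g x : G) (ε : ℤˣ) :
    (egs ρ x ε).map (ρ g) = egs ρ (g * x * g⁻¹) ε := by
  have hinv : ∀ (h : G) (v : M), ρ h (ρ h⁻¹ v) = v := by
    intro h v
    rw [← Module.End.mul_apply, ← map_mul, mul_inv_cancel, map_one, Module.End.one_apply]
  have hinv' : ∀ (h : G) (v : M), ρ h⁻¹ (ρ h v) = v := by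
    intro h v
    rw [← Module.End.mul_apply, ← map_mul, inv_mul_cancel, map_one, Module.End.one_apply]
  ext v
  rw [Submodule.mem_map, mem_egs]
  constructor
  · rintro ⟨w, hw, rfl⟩
    rw [mem_egs] at hw
    rw [map_mul, map_mul, Module.End.mul_apply, Module.End.mul_apply, hinv', hw, map_smul]
  · intro hv
    refine ⟨ρ g⁻¹ v, ?_, hinv g v⟩
    rw [mem_egs]
    have h1 : ρ g (ρ x (ρ g⁻¹ v)) = ((ε : ℤ) : ℚ) • v := by
      rw [← hv, map_mul, map_mul, Module.End.mul_apply, Module.End.mul_apply]
    rw [← hinv' g (ρ x (ρ g⁻¹ v)), h1, map_smul]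

/-- Let `ρ` be a representation of a finite group on a space `M` of any dimension. There is a
representation `ρ0` on a finite dimensional space, such that the eigenspaces of `ρ x` for the eigenvalues
`1` and `-1` which have finite dimension have the same dimension as those of `ρ0 x`. (Take the sum of
all these eigenspaces.) -/
theorem exists_fin_rep {G : Type*} {M : Type*} [Group G] [Finite G] [AddCommGroup M] [Module ℚ M]
    (ρ : Representation ℚ G M) :
    ∃ (W : Submodule ℚ M) (_ : FiniteDimensional ℚ W) (ρ0 : Representation ℚ G W),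
      ∀ (x : G) (ε : ℤˣ), FiniteDimensional ℚ (egs ρ x ε) →
        Module.finrank ℚ (egs ρ0 x ε) = Module.finrank ℚ (egs ρ x ε) := by
  classical
  let S : Set (G × ℤˣ) := {p | FiniteDimensional ℚ (egs ρ p.1 p.2)}
  let W : Submodule ℚ M := ⨆ p : S, egs ρ p.1.1 p.1.2
  have hfin : FiniteDimensional ℚ W := by
    have : ∀ p : S, FiniteDimensional ℚ (egs ρ p.1.1 p.1.2) := fun p => p.2
    exact Submodule.finiteDimensional_iSup _
  have hle : ∀ (x : G) (ε : ℤˣ), FiniteDimensional ℚ (egs ρ x ε) → egs ρ x ε ≤ W := by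
    intro x ε h
    exact le_iSup (fun p : S => egs ρ p.1.1 p.1.2) ⟨(x, ε), h⟩
  have hst : ∀ g : G, ∀ v ∈ W, ρ g v ∈ W := by
    intro g v hv
    have h1 : W.map (ρ g) ≤ W := by
      rw [Submodule.map_iSup]
      refine iSup_le fun p => ?_
      rw [egs_map]
      refine hle _ _ ?_
      rw [← egs_map]
      have : FiniteDimensional ℚ (egs ρ p.1.1 p.1.2) := p.2
      infer_instance
    exact h1 (Submodule.mem_map_of_mem hv)
  let ρ0 : Representation ℚ G W :=
    { toFun := fun g => (ρ g).restrict (hst g)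
      map_one' := by
        ext v
        simp
      map_mul' := fun g h => by
        ext v
        simp }
  refine ⟨W, hfin, ρ0, fun x ε h => ?_⟩
  have h1 : egs ρ0 x ε = (egs ρ x ε).comap W.subtype := by
    ext v
    rw [mem_egs, Submodule.mem_comap, mem_egs]
    constructor
    · intro h2
      have h3 := congrArg (W.subtype) h2
      simpa [ρ0] using h3
    · intro h2
      apply Subtype.ext
      simpa [ρ0] using h2
  rw [h1]
  have h2 : ((egs ρ x ε).comap W.subtype).map W.subtype = egs ρ x ε := by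
    rw [Submodule.map_comap_subtype]
    exact inf_eq_right.2 (hle x ε h)
  have h3 := LinearEquiv.finrank_eq
    (Submodule.equivMapOfInjective W.subtype W.injective_subtype ((egs ρ x ε).comap W.subtype))
  rw [h3, h2]

end Pool.Agent.H.MP_ac3185_nt.D14
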