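import Pool.Agent.H.MP_ac3185_nt.D14.Defs
import Pool.Agent.H.MP_ac3185_nt.O42.Deg

/-! Independent square roots in a field of large degree. -/

set_option autoImplicit false

open NumberField

namespace Pool.Agent.H.MP_ac3185_nt.D14

open OE

universe u

/-- The characters with values `±1` of a finite group of exponent `2` separate the elements. -/
theorem exists_char_ne {G : Type*} [Group G] [Finite G] (h2 : ∀ g : G, g * g = 1) {g : G}
    (hg : g ≠ 1) : ∃ ε : G →* ℤˣ, ε g ≠ 1 := by
  have hexp : Monoid.exponent G = 2 := by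
    have h3 : Monoid.exponent G ∣ 2 := Monoid.exponent_dvd_of_forall_pow_eq_one fun x => by
      rw [pow_two]
      exact h2 x
    rcases (Nat.dvd_prime Nat.prime_two).1 h3 with h4 | h4
    · exfalso
      apply hg
      have h5 := Monoid.pow_exponent_eq_one g
      rwa [h4, pow_one] at h5
    · exact h4
  let _ : CommGroup G := { (inferInstance : Group G) with
    mul_comm := mul_comm_of_exponent_two hexp }
  have h1 : HasEnoughRootsOfUnity ℤ 2 :=
    ⟨⟨-1, IsPrimitiveRoot.neg_one 0 (by norm_num)⟩, inferInstance⟩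
  have h3 : HasEnoughRootsOfUnity ℤ (Monoid.exponent G) := by
    rw [hexp]
    exact h1
  exact CommGroup.exists_apply_ne_one_of_hasEnoughRootsOfUnity G ℤ hg

/-- A finite extension `M₀` of `F` of degree at least `2 ^ m` which is contained in the field generated by
the square roots of the elements of `Z` contains the square roots of `m` elements of `F` which are
independent modulo squares, and are products of elements of `Z`. -/
theorem exists_indep_roots {F : Type u} [Field F] [CharZero F] (Z : Set F) (hZ : ∀ b ∈ Z, b ≠ 0)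
    (M₀ : IntermediateField F (AlgebraicClosure F)) [FiniteDimensional F M₀]
    (hM₀ : M₀ ≤ sqrtExt Z) (m : ℕ) (hm : 2 ^ m ≤ Module.finrank F M₀) :
    ∃ e : Fin m → F, (∀ J : Finset (Fin m), J.Nonempty → ∀ y : F, y ^ 2 ≠ ∏ j ∈ J, e j) ∧
      (∀ j, rtK F (e j) ∈ M₀) ∧ ∀ j, ∃ t : Finset F, (∀ b ∈ t, b ∈ Z) ∧ e j = ∏ b ∈ t, b := by
  classical
  induction m with
  | zero =>
    refine ⟨fun j => j.elim0, fun J hJ => ?_, fun j => j.elim0, fun j => j.elim0⟩
    obtain ⟨j, -⟩ := hJ
    exact j.elim0
  | succ m ih =>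
    obtain ⟨e, he1, he2, he3⟩ := ih (le_trans (Nat.pow_le_pow_right two_pos (Nat.le_succ m)) hm)
    have he0 : ∀ j, e j ≠ 0 := by
      intro j
      obtain ⟨t, ht, hj⟩ := he3 j
      rw [hj]
      exact Finset.prod_ne_zero_iff.2 fun b hb => hZ b (ht b hb)
    obtain ⟨S, hS⟩ : ∃ S : Finset F, S = Finset.univ.image e := ⟨_, rfl⟩
    have hfd := sqrtExt_finite (S : Set F) S.finite_toSet
    have hroot : ∀ j, rtK F (e j) ∈ sqrtExt (S : Set F) := fun j =>
      mem_sqrtExt (Finset.mem_coe.2 (by rw [hS]; exact Finset.mem_image_of_mem e (Finset.mem_univ j)))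
        (rtK_sq F _)
    have hnot : ¬ M₀ ≤ sqrtExt (S : Set F) := by
      intro hle
      have h1 : Module.finrank F M₀ ≤ Module.finrank F (sqrtExt (S : Set F)) :=
        LinearMap.finrank_le_finrank_of_injective
          (f := (IntermediateField.inclusion hle).toLinearMap)
          (IntermediateField.inclusion hle).injective
      have h2 := sqrtExt_finrank_le S
      have h3 : S.card ≤ m := by
        rw [hS]
        exact Finset.card_image_le.trans (by rw [Finset.card_univ, Fintype.card_fin])
      have h4 : 2 ^ S.card ≤ 2 ^ m := Nat.pow_le_pow_right two_pos h3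
      have h5 : 2 ^ m < 2 ^ (m + 1) := Nat.pow_lt_pow_right one_lt_two (Nat.lt_succ_self m)
      omega
    obtain ⟨x, hxM, hxS⟩ := Set.not_subset.1 (show ¬ (M₀ : Set (AlgebraicClosure F)) ⊆
      (sqrtExt (S : Set F) : Set (AlgebraicClosure F)) from hnot)
    obtain ⟨σ, hσ, hσx⟩ : ∃ σ ∈ (sqrtExt (S : Set F)).fixingSubgroup, σ x ≠ x := by
      by_contra hcon
      push Not at hcon
      exact hxS (rank_mem_of_fixed _ x hcon)
    obtain ⟨hgal, hsq⟩ := tow_isGalois Z M₀ hM₀
    have hg : AlgEquiv.restrictNormalHom M₀ σ ≠ 1 := by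
      intro h
      apply hσx
      have h1 := AlgEquiv.restrictNormal_commutes σ M₀ ⟨x, hxM⟩
      have h2 : σ.restrictNormal M₀ = 1 := h
      rw [h2] at h1
      exact h1.symm
    obtain ⟨ε, hε⟩ := exists_char_ne hsq hg
    obtain ⟨t, htZ, ht⟩ := charK_tower Z hZ M₀ (fun Q hQ _ => hQ.trans hM₀) ε
    obtain ⟨a, ha⟩ : ∃ a, a = ∏ b ∈ t, b := ⟨_, rfl⟩
    rw [← ha] at ht
    have haM : rtK F a ∈ M₀ := by
      refine rank_mem_of_fixed M₀ _ fun τ hτ => ?_
      refine (chiK_eq_one_iff a τ _ (rtK_sq F a)).1 ?_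
      rw [← ht τ]
      have h1 : AlgEquiv.restrictNormalHom M₀ τ = 1 := by
        apply AlgEquiv.ext
        intro y
        apply Subtype.ext
        have h2 : ((AlgEquiv.restrictNormalHom M₀ τ y : M₀) : AlgebraicClosure F) =
            τ (y : AlgebraicClosure F) := AlgEquiv.restrictNormal_commutes τ M₀ y
        rw [h2]
        exact (IntermediateField.mem_fixingSubgroup_iff M₀ τ).1 hτ y y.2
      rw [h1, map_one]
    have haS : ∀ r : AlgebraicClosure F, r ^ 2 = algebraMap F (AlgebraicClosure F) a →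
        r ∉ sqrtExt (S : Set F) := by
      intro r hr hrS
      apply hε
      rw [ht σ]
      exact (chiK_eq_one_iff a σ r hr).2
        ((IntermediateField.mem_fixingSubgroup_iff _ σ).1 hσ r hrS)
    refine ⟨Fin.cons a e, ?_, ?_, ?_⟩
    · intro J hJ y hy
      obtain ⟨J', hJ'⟩ : ∃ J' : Finset (Fin m), J' = Finset.univ.filter fun j => j.succ ∈ J :=
        ⟨_, rfl⟩
      have hprod : ∏ j ∈ J, (Fin.cons a e : Fin (m + 1) → F) j =
          (if (0 : Fin (m + 1)) ∈ J then a else 1) * ∏ j ∈ J', e j := by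
        rw [hJ', Finset.prod_filter, ← Finset.univ_inter J, ← Finset.prod_ite_mem,
          Fin.prod_univ_succ]
        congr 1
        · simp
        · refine Finset.prod_congr rfl fun j _ => ?_
          simp
      rw [hprod] at hy
      by_cases h0 : (0 : Fin (m + 1)) ∈ J
      · rw [if_pos h0] at hy
        have hp0 : ∏ j ∈ J', rtK F (e j) ≠ 0 :=
          Finset.prod_ne_zero_iff.2 fun j _ => rtK_ne_zero (he0 j)
        refine haS (algebraMap F (AlgebraicClosure F) y / ∏ j ∈ J', rtK F (e j)) ?_ ?_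
        · rw [div_pow, ← map_pow, hy, map_mul, ← Finset.prod_pow, map_prod]
          simp only [rtK_sq]
          rw [mul_div_assoc, div_self, mul_one]
          rw [Finset.prod_ne_zero_iff]
          intro j _ h
          exact he0 j ((map_eq_zero _).1 h)
        · exact div_mem (algebraMap_mem _ _) (prod_mem fun j _ => hroot j)
      · rw [if_neg h0, one_mul] at hy
        refine he1 J' ?_ y hy
        obtain ⟨j, hj⟩ := hJ
        obtain ⟨i, rfl⟩ := Fin.exists_succ_eq.2 (fun h : j = 0 => h0 (h ▸ hj))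
        exact ⟨i, by rw [hJ']; exact Finset.mem_filter.2 ⟨Finset.mem_univ i, hj⟩⟩
    · intro j
      refine Fin.cases ?_ (fun i => ?_) j
      · rw [Fin.cons_zero]
        exact haM
      · rw [Fin.cons_succ]
        exact he2 i
    · intro j
      refine Fin.cases ?_ (fun i => ?_) j
      · rw [Fin.cons_zero]
        exact ⟨t, htZ, ha⟩
      · rw [Fin.cons_succ]
        exact he3 i

end Pool.Agent.H.MP_ac3185_nt.D14
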