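import Pool.Agent.H.MP_ac3185_nt.D14.Defs
import Pool.Agent.H.MP_ac3185_nt.R.CorE

/-! The parities of the dimensions of the eigenspaces of the elements of a finite group. -/

set_option autoImplicit false

namespace Pool.Agent.H.MP_ac3185_nt.D14

private theorem Lin_real {V : Type*} [AddCommGroup V] [Module ℝ V] [FiniteDimensional ℝ V]
    (S : V →ₗ[ℝ] V) {k : ℕ} (hk : 1 ≤ k) (hS : S ^ k = 1) (hker : ∀ v, S v = -v → v = 0) :
    0 < LinearMap.det S := by
  have hq : ∀ s : ℝ, 0 ≤ s → (LinearMap.charpoly (-S)).eval s ≠ 0 := by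
    intro s hs h
    have h1 : Module.End.HasEigenvalue (-S) s :=
      (Module.End.hasEigenvalue_iff_isRoot_charpoly (-S) s).2 h
    obtain ⟨v, hv⟩ := h1.exists_hasEigenvector
    have h2 : S v = (-s) • v := by
      have h3 : (-S) v = s • v := hv.apply_eq_smul
      rw [LinearMap.neg_apply] at h3
      rw [neg_smul, ← h3, neg_neg]
    have h3 : ∀ j : ℕ, (S ^ j) v = (-s) ^ j • v := by
      intro j
      induction j with
      | zero => simp
      | succ j ih => rw [pow_succ', Module.End.mul_apply, ih, map_smul, h2, smul_smul, pow_succ]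
    have h4 := h3 k
    rw [hS, Module.End.one_apply] at h4
    have h5 : (-s) ^ k = 1 := by
      have h6 : ((-s) ^ k - 1) • v = 0 := by
        rw [sub_smul, one_smul, ← h4, sub_self]
      rcases smul_eq_zero.1 h6 with h7 | h7
      · linarith
      · exact absurd h7 hv.2
    have h6 : s ^ k = 1 := by
      have h7 : |(-s) ^ k| = 1 := by rw [h5, abs_one]
      rwa [abs_pow, abs_neg, abs_of_nonneg hs] at h7
    have h7 : s = 1 := (pow_eq_one_iff_of_nonneg hs (by omega)).1 h6
    refine hv.2 (hker v ?_)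
    rw [h2, h7, neg_smul, one_smul]
  have h0 : (LinearMap.charpoly (-S)).eval 0 = LinearMap.det S := by
    rw [LinearMap.eval_charpoly, map_zero, zero_sub, neg_neg]
  by_contra hcon
  rw [not_lt, ← h0] at hcon
  have hneg : (LinearMap.charpoly (-S)).eval 0 < 0 := lt_of_le_of_ne hcon (hq 0 le_rfl)
  have hmon : (LinearMap.charpoly (-S)).Monic := LinearMap.charpoly_monic _
  have hdeg : 0 < (LinearMap.charpoly (-S)).degree := by
    by_contra hd
    have h1 : (LinearMap.charpoly (-S)).natDegree = 0 :=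
      Polynomial.natDegree_eq_zero_iff_degree_le_zero.2 (not_lt.1 hd)
    have h2 := (Polynomial.Monic.natDegree_eq_zero hmon).1 h1
    rw [h2, Polynomial.eval_one] at hneg
    linarith
  have ht := Polynomial.tendsto_atTop_of_leadingCoeff_nonneg _ hdeg (by
    rw [hmon.leadingCoeff]; exact zero_le_one)
  obtain ⟨s, hs0, hs⟩ := ((Filter.eventually_ge_atTop (0 : ℝ)).and
    (ht.eventually_ge_atTop 0)).exists
  have hIVT := intermediate_value_Icc hs0
    (f := fun x => (LinearMap.charpoly (-S)).eval x) (Polynomial.continuous _).continuousOn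
  obtain ⟨x, hx, hx0⟩ := hIVT ⟨hneg.le, hs⟩
  exact hq x hx.1 hx0

private theorem Lin_rat {V : Type*} [AddCommGroup V] [Module ℚ V] [FiniteDimensional ℚ V]
    (S : V →ₗ[ℚ] V) {k : ℕ} (hk : 1 ≤ k) (hS : S ^ k = 1) (hker : ∀ v, S v = -v → v = 0) :
    LinearMap.det S = 1 := by
  have h1 : (S.baseChange ℝ) ^ k = 1 := by
    rw [← LinearMap.baseChange_pow, hS]
    exact LinearMap.baseChange_id
  have h2 : LinearMap.det (S + LinearMap.id) ≠ 0 := by
    intro h
    rw [LinearMap.det_eq_zero_iff_ker_ne_bot] at h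
    apply h
    rw [LinearMap.ker_eq_bot']
    intro v hv
    rw [LinearMap.add_apply, LinearMap.id_apply] at hv
    exact hker v (eq_neg_of_add_eq_zero_left hv)
  have h3 : ∀ v, (S.baseChange ℝ) v = -v → v = 0 := by
    have h4 : LinearMap.det ((S + LinearMap.id).baseChange ℝ) ≠ 0 := by
      rw [LinearMap.det_baseChange]
      intro h
      exact h2 ((map_eq_zero _).1 h)
    intro v hv
    by_contra hv0
    apply h4
    rw [LinearMap.det_eq_zero_iff_ker_ne_bot]
    intro h5
    rw [LinearMap.ker_eq_bot'] at h5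
    refine hv0 (h5 v ?_)
    rw [LinearMap.baseChange_add, LinearMap.baseChange_id, LinearMap.add_apply, hv,
      LinearMap.id_apply, neg_add_cancel]
  have h4 := Lin_real (S.baseChange ℝ) hk h1 h3
  rw [LinearMap.det_baseChange] at h4
  have h5 : 0 < LinearMap.det S := by
    have h6 : (0 : ℝ) < ((LinearMap.det S : ℚ) : ℝ) := h4
    exact_mod_cast h6
  have h6 : (LinearMap.det S) ^ k = 1 := by
    rw [← map_pow, hS, map_one]
  exact (pow_eq_one_iff_of_nonneg h5.le (by omega)).1 h6

private theorem Lin_det {V : Type*} [AddCommGroup V] [Module ℚ V] [FiniteDimensional ℚ V]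
    (T : V →ₗ[ℚ] V) {k : ℕ} (hk : 1 ≤ k) (hT : T ^ k = 1) :
    LinearMap.det T = (-1) ^ Module.finrank ℚ (LinearMap.ker (T + LinearMap.id)) := by
  obtain ⟨W, hW⟩ : ∃ W : Submodule ℚ V, W = LinearMap.ker (T + LinearMap.id) := ⟨_, rfl⟩
  have hmem : ∀ v, v ∈ W ↔ T v = -v := by
    intro v
    rw [hW, LinearMap.mem_ker, LinearMap.add_apply, LinearMap.id_apply]
    exact ⟨fun h => eq_neg_of_add_eq_zero_left h, fun h => by rw [h, neg_add_cancel]⟩
  have he : W ≤ W.comap T := by
    intro v hv
    rw [Submodule.mem_comap, (hmem v).1 hv]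
    exact W.neg_mem hv
  have h1 := LinearMap.det_eq_det_mul_det W T he
  have h2 : T.restrict he = (-1 : ℚ) • LinearMap.id := by
    ext v
    have := (hmem v).1 v.2
    simpa using this
  have h3 : W.mapQ W T he ^ k = 1 := by
    have h4 := Submodule.mapQ_pow W he k
    rw [← h4]
    ext v
    simp [hT]
  have h4 : ∀ v, W.mapQ W T he v = -v → v = 0 := by
    intro v
    obtain ⟨v, rfl⟩ := Submodule.mkQ_surjective W v
    intro h
    rw [Submodule.mkQ_apply, Submodule.mapQ_apply, ← Submodule.Quotient.mk_neg,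
      Submodule.Quotient.eq, sub_neg_eq_add] at h
    rw [Submodule.mkQ_apply, Submodule.Quotient.mk_eq_zero, hmem]
    obtain ⟨w, hw⟩ : ∃ w, w = T v + v := ⟨_, rfl⟩
    rw [← hw, hmem] at h
    have h5 : ∀ j : ℕ, (T ^ j) v = (-1 : ℚ) ^ j • (v - (j : ℚ) • w) := by
      intro j
      induction j with
      | zero => simp
      | succ j ih =>
        have h6 : T v = w - v := by rw [hw, add_sub_cancel_right]
        rw [pow_succ', Module.End.mul_apply, ih, map_smul, map_sub, map_smul, h, h6]
        push_cast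
        module
    have h6 := h5 (2 * k)
    rw [pow_mul', hT, one_pow, Module.End.one_apply, pow_mul, neg_one_sq, one_pow, one_smul] at h6
    have h7 : ((2 * k : ℕ) : ℚ) • w = 0 := by
      have h8 : v = v - ((2 * k : ℕ) : ℚ) • w := h6
      exact sub_eq_self.1 h8.symm
    have h8 : w = 0 := by
      rcases smul_eq_zero.1 h7 with h9 | h9
      · have : (2 * k : ℕ) = 0 := by exact_mod_cast h9
        omega
      · exact h9
    rw [hw] at h8
    exact eq_neg_of_add_eq_zero_left h8
  rw [h1, h2, Lin_rat _ hk h3 h4, mul_one, LinearMap.det_smul, LinearMap.det_id, mul_one, ← hW]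

private theorem Lin_par {a b : ℕ} (h : (-1 : ℚ) ^ a = (-1) ^ b) : (a : ZMod 2) = (b : ZMod 2) := by
  rcases Nat.even_or_odd a with ha | ha <;> rcases Nat.even_or_odd b with hb | hb
  · rw [(ZMod.natCast_eq_zero_iff_even).2 ha, (ZMod.natCast_eq_zero_iff_even).2 hb]
  · rw [ha.neg_one_pow, hb.neg_one_pow] at h
    norm_num at h
  · rw [ha.neg_one_pow, hb.neg_one_pow] at h
    norm_num at h
  · rw [(ZMod.natCast_eq_one_iff_odd).2 ha, (ZMod.natCast_eq_one_iff_odd).2 hb]

/-- PROOF. `δ` is the determinant of `ρ` (`det (ρ x)` is a rational number with a finite order, so it is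
`1` or `-1`). Let `T = ρ x`, `T ^ k = 1` with `k ≥ 1`, `n = finrank M`, `m₊ = finrank (ker (T - 1))`,
`m₋ = finrank (ker (T + 1))`. To prove: `det T = (-1) ^ m₋` and `n ≡ m₊ + m₋` modulo `2`.
For both one can use: `M = ker (T + 1) ⊕ M'` with `M' = range (T + 1)`, since `T` has finite order (if
`(T + 1) ^ 2 v = 0` then `(T + 1) v = 0`: `T` is semisimple because `X ^ k - 1` is squarefree; or by the
projection `(1 / k') ∑ (-1) ^ i T ^ i`, `k' = 2 k`). On `M'` the map `T'` has no eigenvalue `-1`. Its
characteristic polynomial `p` (monic, rational, degree `n'`) has no real root `r ≤ 0`: such a root is a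
root of `X ^ k - 1` (it is an eigenvalue of the base change to `ℝ`; or `minpoly`), so `r = -1`, which is
excluded (it would be a rational eigenvalue). So `(-1) ^ n' p(0) > 0` by the intermediate value theorem
(`(-1) ^ n' p(-t) > 0` for large `t`), that is `det T' > 0`, `det T' = 1`. The same argument with `T - 1`
(on the complement `M''` of `ker (T - 1)` in `M'`, a real polynomial without real roots has even
degree) gives that `n - m₊ - m₋` is even. The second statement is also `finrank_two_nilpotent` /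
`finrank_two_group` in `R/CorE.lean` for the cyclic group generated by `x` (it has a normal
`2`-complement, and its characters with values `±1` are `1` and, if the order is even, the one with
`x ↦ -1`). -/
theorem exists_det {G M : Type*} [Group G] [Finite G] [AddCommGroup M] [Module ℚ M]
    [FiniteDimensional ℚ M] (ρ : Representation ℚ G M) :
    ∃ δ : G →* ℤˣ, ∀ (x : G) (ε : ℤˣ),
      ((Module.finrank ℚ (LinearMap.ker (ρ x - ((ε : ℤ) : ℚ) • (LinearMap.id : M →ₗ[ℚ] M))) : ℕ) :
        ZMod 2) = ((Module.finrank ℚ M : ℕ) : ZMod 2) * (1 + sg ε) + sg (δ x) := by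
  classical
  obtain ⟨k, hk, hρ⟩ : ∃ k : ℕ, 1 ≤ k ∧ ∀ x, (ρ x) ^ k = 1 := by
    refine ⟨Nat.card G, Nat.card_pos, fun x => ?_⟩
    rw [← map_pow, pow_card_eq_one', map_one]
  have hdet : ∀ x, LinearMap.det (ρ x) =
      (-1) ^ Module.finrank ℚ (LinearMap.ker (ρ x + LinearMap.id)) := fun x =>
    Lin_det (ρ x) hk (hρ x)
  have hpm : ∀ x, LinearMap.det (ρ x) = 1 ∨ LinearMap.det (ρ x) = -1 := by
    intro x
    rw [hdet x]
    exact neg_one_pow_eq_or ℚ _
  have hplus : ∀ x, (-1 : ℚ) ^ Module.finrank ℚ (LinearMap.ker (ρ x - LinearMap.id)) =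
      (-1) ^ (Module.finrank ℚ M + Module.finrank ℚ (LinearMap.ker (ρ x + LinearMap.id))) := by
    intro x
    have h1 : (-(ρ x)) ^ (2 * k) = 1 := by
      rw [pow_mul, neg_sq, ← pow_mul, pow_mul', hρ x, one_pow]
    have h2 := Lin_det (-(ρ x)) (by omega) h1
    have h3 : LinearMap.ker (-(ρ x) + LinearMap.id) = LinearMap.ker (ρ x - LinearMap.id) := by
      rw [← LinearMap.ker_neg (ρ x - LinearMap.id), neg_sub, sub_eq_add_neg, add_comm]
    have h4 : LinearMap.det (-(ρ x)) = (-1) ^ Module.finrank ℚ M * LinearMap.det (ρ x) := by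
      rw [← neg_one_smul ℚ (ρ x), LinearMap.det_smul]
    rw [← h3, ← h2, h4, hdet x, pow_add]
  refine ⟨{ toFun := fun x => if LinearMap.det (ρ x) = 1 then 1 else -1
            map_one' := by simp
            map_mul' := ?_ }, ?_⟩
  · intro x y
    show (if LinearMap.det (ρ (x * y)) = 1 then (1 : ℤˣ) else -1) =
      (if LinearMap.det (ρ x) = 1 then 1 else -1) * (if LinearMap.det (ρ y) = 1 then 1 else -1)
    rw [map_mul, map_mul]
    rcases hpm x with hx | hx <;> rcases hpm y with hy | hy <;> rw [hx, hy] <;> norm_num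
  · intro x ε
    show _ = _ + sg (if LinearMap.det (ρ x) = 1 then 1 else -1)
    have hsg : sg (if LinearMap.det (ρ x) = 1 then 1 else -1) =
        ((Module.finrank ℚ (LinearMap.ker (ρ x + LinearMap.id)) : ℕ) : ZMod 2) := by
      rw [hdet x]
      rcases Nat.even_or_odd (Module.finrank ℚ (LinearMap.ker (ρ x + LinearMap.id))) with h | h
      · rw [h.neg_one_pow, if_pos rfl, (ZMod.natCast_eq_zero_iff_even).2 h]
        rfl
      · rw [h.neg_one_pow, if_neg (by norm_num), (ZMod.natCast_eq_one_iff_odd).2 h]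
        rfl
    rw [hsg]
    rcases Int.units_eq_one_or ε with rfl | rfl
    · have h1 : ρ x - (((1 : ℤˣ) : ℤ) : ℚ) • (LinearMap.id : M →ₗ[ℚ] M) = ρ x - LinearMap.id := by
        norm_num
      have h2 : sg 1 = 0 := rfl
      rw [h1, h2, add_zero, mul_one, Lin_par (hplus x), Nat.cast_add]
    · have h1 : ρ x - (((-1 : ℤˣ) : ℤ) : ℚ) • (LinearMap.id : M →ₗ[ℚ] M) = ρ x + LinearMap.id := by
        norm_num
      have h2 : (1 + sg (-1) : ZMod 2) = 0 := by
        have h3 : sg (-1) = 1 := rfl
        rw [h3]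
        rfl
      rw [h1, h2, mul_zero, zero_add]

end Pool.Agent.H.MP_ac3185_nt.D14
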