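import Pool.Agent.H.MP_ac3185_nt.D14.Defs
import Pool.Agent.H.MP_ac3185_nt.D14.FinRep
import Pool.Agent.H.MP_ac3185_nt.O42.Eps

/-! The twisted representation of `Gal(N/K)` on the points of `A`. -/

set_option autoImplicit false

open CategoryTheory AlgebraicGeometry NumberField
open scoped MonObj TensorProduct

namespace Pool.Agent.H.MP_ac3185_nt.D14

open OE

universe u

/-- The eigenspace of one element in `ℚ ⊗ V`. -/
theorem reptw_rank {G : Type*} [Group G] {V : Type u} [AddCommGroup V] (φ : G → V →+ V)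
    (h1 : φ 1 = AddMonoidHom.id V) (hm : ∀ a b, φ (a * b) = (φ a).comp (φ b)) (g : G) (ε : ℤˣ)
    {V' : Type u} [AddCommGroup V'] (j : V' →+ V) (hj : Function.Injective j)
    (hfix : ∀ x : V, (∃ y, j y = x) ↔ φ g x = (ε : ℤ) • x) :
    Module.rank ℚ (egs (ptsb_rep φ h1 hm) g ε) = Module.rank ℤ V' := by
  let f : V →ₗ[ℤ] V := (φ g).toIntLinearMap - (ε : ℤ) • LinearMap.id
  have hf : ∀ x, f x = φ g x - (ε : ℤ) • x := fun x => rfl
  let J : ℚ ⊗[ℤ] V' →ₗ[ℚ] ℚ ⊗[ℤ] V := j.toIntLinearMap.baseChange ℚ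
  have hJ : Function.Injective J := by
    have h2 : Function.Injective (j.toIntLinearMap.lTensor ℚ) :=
      Module.Flat.lTensor_preserves_injective_linearMap _ hj
    exact h2
  have hex : Function.Exact j.toIntLinearMap f := by
    intro x
    rw [hf, sub_eq_zero]
    exact (hfix x).symm
  have hex2 : Function.Exact (j.toIntLinearMap.lTensor ℚ) (f.lTensor ℚ) :=
    Module.Flat.lTensor_exact ℚ hex
  have hlin : ∀ x : ℚ ⊗[ℤ] V, f.lTensor ℚ x = ptsb_rep φ h1 hm g x - ((ε : ℤ) : ℚ) • x := by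
    intro x
    induction x using TensorProduct.induction_on with
    | zero => rw [map_zero, map_zero, smul_zero, sub_zero]
    | tmul q y =>
      rw [LinearMap.lTensor_tmul, hf, ptsb_rep_tmul, TensorProduct.tmul_sub,
        TensorProduct.tmul_smul, Int.cast_smul_eq_zsmul]
    | add x y hx hy => rw [map_add, map_add, hx, hy, smul_add]; abel
  have hr : LinearMap.range J = egs (ptsb_rep φ h1 hm) g ε := by
    ext x
    rw [mem_egs]
    have h3 := hex2 x
    rw [hlin, sub_eq_zero] at h3
    exact h3.symm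
  rw [← hr, ← (LinearEquiv.ofInjective J hJ).rank_eq]
  exact ptsb_rank V'

variable {K : Type u} [Field K] [CharZero K]

/-- The points `P` with `τ P = χ_z(τ) P` for `τ ∈ Gal(Kbar/N)`. -/
noncomputable def zPts (A : Over (Spec (.of K))) [GrpObj A] [IsAbVar A]
    (N : IntermediateField K (AlgebraicClosure K)) (z : K) :
    AddSubgroup (Pts A (AlgebraicClosure K)) where
  carrier := {P | ∀ τ ∈ N.fixingSubgroup, galHom A τ P = (chiK z τ : ℤ) • P}
  zero_mem' := fun τ _ => by rw [map_zero, smul_zero]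
  add_mem' := fun {x y} hx hy τ hτ => by rw [map_add, hx τ hτ, hy τ hτ, smul_add]
  neg_mem' := fun {x} hx τ hτ => by rw [map_neg, hx τ hτ, smul_neg]

/-- The twisted action. -/
noncomputable def zAct (A : Over (Spec (.of K))) [GrpObj A] [IsAbVar A] (z : K)
    (σ : AlgebraicClosure K ≃ₐ[K] AlgebraicClosure K) :
    Pts A (AlgebraicClosure K) →+ Pts A (AlgebraicClosure K) :=
  (chiK z σ : ℤ) • galHom A σ

theorem zAct_apply (A : Over (Spec (.of K))) [GrpObj A] [IsAbVar A] (z : K)
    (σ : AlgebraicClosure K ≃ₐ[K] AlgebraicClosure K) (P : Pts A (AlgebraicClosure K)) :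
    zAct A z σ P = (chiK z σ : ℤ) • galHom A σ P := rfl

theorem zAct_one (A : Over (Spec (.of K))) [GrpObj A] [IsAbVar A] (z : K)
    (P : Pts A (AlgebraicClosure K)) : zAct A z 1 P = P := by
  rw [zAct_apply, map_one, Units.val_one, one_smul, ptsb_galHom_one]
  rfl

theorem zAct_mul (A : Over (Spec (.of K))) [GrpObj A] [IsAbVar A] (z : K)
    (σ τ : AlgebraicClosure K ≃ₐ[K] AlgebraicClosure K) (P : Pts A (AlgebraicClosure K)) :
    zAct A z (σ * τ) P = zAct A z σ (zAct A z τ P) := by
  rw [zAct_apply, zAct_apply, zAct_apply, map_mul, ptsb_galHom_mul, map_zsmul, smul_smul,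
    Units.val_mul]
  rfl

theorem zPts_iff (A : Over (Spec (.of K))) [GrpObj A] [IsAbVar A]
    (N : IntermediateField K (AlgebraicClosure K)) (z : K) (P : Pts A (AlgebraicClosure K)) :
    P ∈ zPts A N z ↔ ∀ τ ∈ N.fixingSubgroup, zAct A z τ P = P := by
  constructor
  · intro h τ hτ
    rw [zAct_apply, h τ hτ, ueps_smul_smul]
  · intro h τ hτ
    have h1 := h τ hτ
    rw [zAct_apply] at h1
    conv_rhs => rw [← h1]
    rw [ueps_smul_smul]

section normal

variable (N : IntermediateField K (AlgebraicClosure K)) [FiniteDimensional K N] [IsGalois K N]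

theorem resN (σ : AlgebraicClosure K ≃ₐ[K] AlgebraicClosure K) (x : N) :
    σ (x : AlgebraicClosure K) = ((AlgEquiv.restrictNormalHom N σ) x : AlgebraicClosure K) :=
  (AlgEquiv.restrictNormal_commutes σ N x).symm

theorem mem_fixN_iff (σ : AlgebraicClosure K ≃ₐ[K] AlgebraicClosure K) :
    σ ∈ N.fixingSubgroup ↔ AlgEquiv.restrictNormalHom N σ = 1 := by
  rw [IntermediateField.mem_fixingSubgroup_iff]
  constructor
  · intro h
    apply AlgEquiv.ext
    intro x
    apply Subtype.ext
    rw [← resN N σ x]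
    exact h x x.2
  · intro h x hx
    have h1 := resN N σ ⟨x, hx⟩
    rw [h] at h1
    exact h1

theorem zAct_mem (A : Over (Spec (.of K))) [GrpObj A] [IsAbVar A] (z : K)
    (σ : AlgebraicClosure K ≃ₐ[K] AlgebraicClosure K) {P : Pts A (AlgebraicClosure K)}
    (hP : P ∈ zPts A N z) : zAct A z σ P ∈ zPts A N z := by
  rw [zPts_iff] at hP ⊢
  intro τ hτ
  have h1 : σ⁻¹ * τ * σ ∈ N.fixingSubgroup := by
    rw [mem_fixN_iff] at hτ ⊢
    rw [map_mul, map_mul, hτ, map_inv, mul_one, inv_mul_cancel]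
  have h2 : τ * σ = σ * (σ⁻¹ * τ * σ) := by group
  rw [← zAct_mul, h2, zAct_mul, hP _ h1]

theorem zAct_congr (A : Over (Spec (.of K))) [GrpObj A] [IsAbVar A] (z : K)
    {σ σ' : AlgebraicClosure K ≃ₐ[K] AlgebraicClosure K}
    (h : AlgEquiv.restrictNormalHom N σ = AlgEquiv.restrictNormalHom N σ')
    {P : Pts A (AlgebraicClosure K)} (hP : P ∈ zPts A N z) : zAct A z σ P = zAct A z σ' P := by
  rw [zPts_iff] at hP
  have h1 : σ'⁻¹ * σ ∈ N.fixingSubgroup := by
    rw [mem_fixN_iff, map_mul, map_inv, h, inv_mul_cancel]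
  have h2 : σ = σ' * (σ'⁻¹ * σ) := by group
  rw [h2, zAct_mul, hP _ h1]

/-- A lift. -/
noncomputable def liftN (g : N ≃ₐ[K] N) : AlgebraicClosure K ≃ₐ[K] AlgebraicClosure K :=
  Classical.choose (AlgEquiv.restrictNormalHom_surjective (AlgebraicClosure K) (K₁ := N) g)

theorem liftN_spec (g : N ≃ₐ[K] N) : AlgEquiv.restrictNormalHom N (liftN N g) = g :=
  Classical.choose_spec (AlgEquiv.restrictNormalHom_surjective (AlgebraicClosure K) (K₁ := N) g)

/-- The action of `Gal(N/K)` on `zPts`. -/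
noncomputable def zPhi (A : Over (Spec (.of K))) [GrpObj A] [IsAbVar A] (z : K)
    (g : N ≃ₐ[K] N) : zPts A N z →+ zPts A N z :=
  ((zAct A z (liftN N g)).comp (zPts A N z).subtype).codRestrict (zPts A N z)
    fun P => zAct_mem N A z _ P.2

theorem zPhi_coe (A : Over (Spec (.of K))) [GrpObj A] [IsAbVar A] (z : K)
    (σ : AlgebraicClosure K ≃ₐ[K] AlgebraicClosure K) (P : zPts A N z) :
    (zPhi N A z (AlgEquiv.restrictNormalHom N σ) P : Pts A (AlgebraicClosure K)) =
      zAct A z σ P :=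
  zAct_congr N A z (liftN_spec N _) P.2

theorem zPhi_one (A : Over (Spec (.of K))) [GrpObj A] [IsAbVar A] (z : K) :
    zPhi N A z 1 = AddMonoidHom.id _ := by
  refine AddMonoidHom.ext fun P => Subtype.ext ?_
  have h := zPhi_coe N A z 1 P
  rw [map_one, zAct_one] at h
  exact h

theorem zPhi_mul (A : Over (Spec (.of K))) [GrpObj A] [IsAbVar A] (z : K) (a b : N ≃ₐ[K] N) :
    zPhi N A z (a * b) = (zPhi N A z a).comp (zPhi N A z b) := by
  refine AddMonoidHom.ext fun P => Subtype.ext ?_
  have h := zPhi_coe N A z (liftN N a * liftN N b) P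
  rw [map_mul, liftN_spec, liftN_spec, zAct_mul] at h
  rw [h]
  rfl

/-- The elements which fix `L` are the products of a power of `σ` and an element which fixes `N`. -/
theorem fix_eq (σ τ : AlgebraicClosure K ≃ₐ[K] AlgebraicClosure K)
    (L : IntermediateField K (AlgebraicClosure K))
    (hL : ∀ y : AlgebraicClosure K, y ∈ L ↔ y ∈ N ∧ σ y = y) (hτ : τ ∈ L.fixingSubgroup) :
    ∃ k : ℤ, ∃ τ' ∈ N.fixingSubgroup, τ = σ ^ k * τ' := by
  have h1 : AlgEquiv.restrictNormalHom N τ ∈
      Subgroup.zpowers (AlgEquiv.restrictNormalHom N σ) := by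
    rw [← IntermediateField.fixingSubgroup_fixedField
      (Subgroup.zpowers (AlgEquiv.restrictNormalHom N σ)), IntermediateField.mem_fixingSubgroup_iff]
    intro y hy
    rw [IntermediateField.mem_fixedField_iff] at hy
    have h2 := hy _ (Subgroup.mem_zpowers _)
    apply Subtype.ext
    rw [← resN N τ y]
    refine (IntermediateField.mem_fixingSubgroup_iff _ _).1 hτ y ((hL y).2 ⟨y.2, ?_⟩)
    rw [resN N σ y, h2]
  obtain ⟨k, hk⟩ := Subgroup.mem_zpowers_iff.1 h1
  refine ⟨k, (σ ^ k)⁻¹ * τ, ?_, by group⟩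
  rw [mem_fixN_iff, map_mul, map_inv, map_zpow, hk, inv_mul_cancel]

theorem tw_iff (A : Over (Spec (.of K))) [GrpObj A] [IsAbVar A] (z : K) (hz : z ≠ 0)
    (σ : AlgebraicClosure K ≃ₐ[K] AlgebraicClosure K)
    (L : IntermediateField K (AlgebraicClosure K))
    (hL : ∀ y : AlgebraicClosure K, y ∈ L ↔ y ∈ N ∧ σ y = y) (a r : AlgebraicClosure K)
    (hr : r ∈ N) (hra : r ^ 2 = a) (hr0 : r ≠ 0) (ε : ℤˣ)
    (hσr : σ r = ((ε : ℤ) : AlgebraicClosure K) * r) (P : Pts A (AlgebraicClosure K)) :
    P ∈ twPts A L (algebraMap K (AlgebraicClosure K) z * a) ↔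
      P ∈ zPts A N z ∧ zAct A z σ P = (ε : ℤ) • P := by
  have hz0 : rtK K z ≠ 0 := rtK_ne_zero hz
  have hs0 : rtK K z * r ≠ 0 := mul_ne_zero hz0 hr0
  have hsq : (rtK K z * r) ^ 2 = algebraMap K (AlgebraicClosure K) z * a := by
    rw [mul_pow, rtK_sq, hra]
  have hunit : ∀ u : ℤˣ, ((u : ℤ) : AlgebraicClosure K) * (rtK K z * r) = rtK K z * r →
      u = 1 := by
    intro u hu
    rcases Int.units_eq_one_or u with h | h
    · exact h
    · rw [h] at hu
      exfalso
      have h2 : (2 : AlgebraicClosure K) * (rtK K z * r) = 0 := by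
        rw [two_mul]
        nth_rewrite 1 [← hu]
        push_cast
        ring
      rcases mul_eq_zero.1 h2 with h3 | h3
      · exact two_ne_zero h3
      · exact hs0 h3
  have hNτ : ∀ τ ∈ N.fixingSubgroup, τ (rtK K z * r) =
      ((chiK z τ : ℤ) : AlgebraicClosure K) * (rtK K z * r) := by
    intro τ hτ
    rw [map_mul, chiK_smul z τ _ (rtK_sq K z),
      (IntermediateField.mem_fixingSubgroup_iff _ _).1 hτ r hr]
    ring
  have hσs : σ (rtK K z * r) =
      (((chiK z σ * ε : ℤˣ) : ℤ) : AlgebraicClosure K) * (rtK K z * r) := by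
    rw [map_mul, chiK_smul z σ _ (rtK_sq K z), hσr, Units.val_mul]
    push_cast
    ring
  have hcase : ∀ (τ : AlgebraicClosure K ≃ₐ[K] AlgebraicClosure K) (u : ℤˣ),
      τ (rtK K z * r) = ((u : ℤ) : AlgebraicClosure K) * (rtK K z * r) →
      ((∀ s : AlgebraicClosure K, s ^ 2 = algebraMap K (AlgebraicClosure K) z * a →
        (τ s = s → galHom A τ P = P) ∧ (τ s ≠ s → galHom A τ P = -P)) ↔
        galHom A τ P = (u : ℤ) • P) := by
    intro τ u hu
    constructor
    · intro h
      have h1 := h _ hsq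
      rcases Int.units_eq_one_or u with h2 | h2
      · rw [h2, Units.val_one, one_smul]
        refine h1.1 ?_
        rw [hu, h2]
        simp
      · rw [h2, Units.val_neg, Units.val_one, neg_smul, one_smul]
        refine h1.2 fun h3 => ?_
        rw [hu] at h3
        have h4 := hunit u h3
        rw [h4] at h2
        exact absurd h2 (by decide)
    · intro h s hs
      have h1 : s = rtK K z * r ∨ s = -(rtK K z * r) := by
        rw [← sq_eq_sq_iff_eq_or_eq_neg, hs, hsq]
      have h2 : τ s = s ↔ τ (rtK K z * r) = rtK K z * r := by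
        rcases h1 with rfl | rfl
        · exact Iff.rfl
        · rw [map_neg, neg_inj]
      rcases Int.units_eq_one_or u with h3 | h3
      · rw [h3, Units.val_one, one_smul] at h
        refine ⟨fun _ => h, fun h4 => absurd (h2.2 ?_) h4⟩
        rw [hu, h3]
        simp
      · rw [h3, Units.val_neg, Units.val_one, neg_smul, one_smul] at h
        refine ⟨fun h4 => ?_, fun _ => h⟩
        have h5 := h2.1 h4
        rw [hu] at h5
        have h6 := hunit u h5
        rw [h6] at h3
        exact absurd h3 (by decide)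
  constructor
  · intro hP
    have hP' : ∀ τ ∈ L.fixingSubgroup, ∀ s : AlgebraicClosure K,
        s ^ 2 = algebraMap K (AlgebraicClosure K) z * a →
        (τ s = s → galHom A τ P = P) ∧ (τ s ≠ s → galHom A τ P = -P) := hP
    constructor
    · intro τ hτ
      refine (hcase τ (chiK z τ) (hNτ τ hτ)).1 (hP' τ ?_)
      rw [IntermediateField.mem_fixingSubgroup_iff] at hτ ⊢
      exact fun y hy => hτ y ((hL y).1 hy).1
    · have h1 := (hcase σ (chiK z σ * ε) hσs).1 (hP' σ (by
        rw [IntermediateField.mem_fixingSubgroup_iff]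
        exact fun y hy => ((hL y).1 hy).2))
      rw [zAct_apply, h1, Units.val_mul, ← smul_smul, ueps_smul_smul]
  · rintro ⟨hP, hσP⟩
    have hσP' : galHom A σ P = ((chiK z σ * ε : ℤˣ) : ℤ) • P := by
      rw [zAct_apply] at hσP
      rw [Units.val_mul, ← smul_smul, ← hσP, ueps_smul_smul]
    let S : Subgroup (AlgebraicClosure K ≃ₐ[K] AlgebraicClosure K) :=
      { carrier := {τ | ∃ u : ℤˣ, τ (rtK K z * r) = ((u : ℤ) : AlgebraicClosure K) *
          (rtK K z * r) ∧ galHom A τ P = (u : ℤ) • P}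
        one_mem' := ⟨1, by simp, by
          rw [ptsb_galHom_one, Units.val_one, one_smul]
          rfl⟩
        mul_mem' := by
          rintro τ τ' ⟨u, hu1, hu2⟩ ⟨v, hv1, hv2⟩
          refine ⟨u * v, ?_, ?_⟩
          · rw [AlgEquiv.mul_apply, hv1, map_mul, hu1, Units.val_mul, map_intCast]
            push_cast
            ring
          · rw [ptsb_galHom_mul, AddMonoidHom.comp_apply, hv2, map_zsmul, hu2, smul_smul,
              Units.val_mul, mul_comm]
        inv_mem' := by
          rintro τ ⟨u, hu1, hu2⟩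
          refine ⟨u, ?_, ?_⟩
          · have h1 : τ⁻¹ (τ (rtK K z * r)) = rtK K z * r := by
              rw [← AlgEquiv.mul_apply, inv_mul_cancel, AlgEquiv.one_apply]
            rw [hu1, map_mul, map_intCast] at h1
            have h2 : ((u : ℤ) : AlgebraicClosure K) * ((u : ℤ) : AlgebraicClosure K) = 1 := by
              rw [← Int.cast_mul, ueps_unit_sq, Int.cast_one]
            have h3 : ((u : ℤ) : AlgebraicClosure K) *
                (((u : ℤ) : AlgebraicClosure K) * τ⁻¹ (rtK K z * r)) = τ⁻¹ (rtK K z * r) := by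
              rw [← mul_assoc, h2, one_mul]
            exact h3.symm.trans
              (congrArg (fun w => ((u : ℤ) : AlgebraicClosure K) * w) h1)
          · have h1 : galHom A τ⁻¹ (galHom A τ P) = P := by
              rw [← AddMonoidHom.comp_apply, ← ptsb_galHom_mul, inv_mul_cancel, ptsb_galHom_one]
              rfl
            rw [hu2, map_zsmul] at h1
            conv_rhs => rw [← h1]
            rw [ueps_smul_smul] }
    intro τ hτ
    obtain ⟨k, τ', hτ', rfl⟩ := fix_eq N σ τ L hL hτ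
    have h1 : σ ∈ S := ⟨_, hσs, hσP'⟩
    have h2 : τ' ∈ S := ⟨_, hNτ τ' hτ', hP τ' hτ'⟩
    obtain ⟨u, hu1, hu2⟩ := S.mul_mem (S.zpow_mem h1 k) h2
    exact (hcase _ u hu1).2 hu2

end normal

/-- The twisted representation: the dimensions of the eigenspaces are the ranks of the twists, if
these are finite. -/
theorem exists_repTw (A : Over (Spec (.of K))) [GrpObj A] [IsAbVar A]
    (N : IntermediateField K (AlgebraicClosure K)) [FiniteDimensional K N] [IsGalois K N]
    (z : K) (hz : z ≠ 0) :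
    ∃ (M : Type u) (_ : AddCommGroup M) (_ : Module ℚ M) (_ : FiniteDimensional ℚ M)
      (ρ : Representation ℚ (N ≃ₐ[K] N) M),
      ∀ (σ : AlgebraicClosure K ≃ₐ[K] AlgebraicClosure K)
        (L : IntermediateField K (AlgebraicClosure K)),
        (∀ y : AlgebraicClosure K, y ∈ L ↔ y ∈ N ∧ σ y = y) →
        ∀ a ∈ L, ∀ r ∈ N, r ^ 2 = a → r ≠ 0 → ∀ ε : ℤˣ,
          σ r = ((ε : ℤ) : AlgebraicClosure K) * r →
          Module.rank ℤ (twPts A L (algebraMap K (AlgebraicClosure K) z * a)) <
            Cardinal.aleph0 →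
          Module.finrank ℚ (LinearMap.ker (ρ (AlgEquiv.restrictNormalHom N σ) -
            ((ε : ℤ) : ℚ) • (LinearMap.id : M →ₗ[ℚ] M))) =
              twRk A L (algebraMap K (AlgebraicClosure K) z * a) := by
  obtain ⟨W, hW, ρ0, hρ0⟩ := exists_fin_rep
    (ptsb_rep (zPhi N A z) (zPhi_one N A z) (zPhi_mul N A z))
  refine ⟨W, inferInstance, inferInstance, hW, ρ0, ?_⟩
  intro σ L hL a _ r hr hra hr0 ε hσr hfin
  have htw := tw_iff N A z hz σ L hL a r hr hra hr0 ε hσr
  let j : twPts A L (algebraMap K (AlgebraicClosure K) z * a) →+ zPts A N z :=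
    ((twPts A L (algebraMap K (AlgebraicClosure K) z * a)).subtype).codRestrict (zPts A N z)
      fun P => ((htw _).1 P.2).1
  have hjc : ∀ P, ((j P : zPts A N z) : Pts A (AlgebraicClosure K)) = P := fun P => rfl
  have h1 := reptw_rank (zPhi N A z) (zPhi_one N A z) (zPhi_mul N A z)
    (AlgEquiv.restrictNormalHom N σ) ε j
    (fun P P' h => Subtype.ext (by rw [← hjc, ← hjc, h])) (fun P => by
      constructor
      · rintro ⟨Q, rfl⟩
        apply Subtype.ext
        rw [zPhi_coe, hjc, ((htw _).1 Q.2).2]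
        rfl
      · intro h
        have h2 : zAct A z σ P = (ε : ℤ) • (P : Pts A (AlgebraicClosure K)) := by
          rw [← zPhi_coe N A z σ P, h]
          rfl
        exact ⟨⟨P, (htw _).2 ⟨P.2, h2⟩⟩, Subtype.ext rfl⟩)
  have h2 : FiniteDimensional ℚ (egs (ptsb_rep (zPhi N A z) (zPhi_one N A z) (zPhi_mul N A z))
      (AlgEquiv.restrictNormalHom N σ) ε) := by
    rw [FiniteDimensional, ← Module.rank_lt_aleph0_iff, h1]
    exact hfin
  have h3 := hρ0 (AlgEquiv.restrictNormalHom N σ) ε h2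
  have h4 : Module.finrank ℚ (egs (ptsb_rep (zPhi N A z) (zPhi_one N A z) (zPhi_mul N A z))
      (AlgEquiv.restrictNormalHom N σ) ε) =
      twRk A L (algebraMap K (AlgebraicClosure K) z * a) := by
    unfold Module.finrank twRk Module.finrank
    rw [h1]
  rw [← h4, ← h3]
  rfl

end Pool.Agent.H.MP_ac3185_nt.D14
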