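import Pool.Agent.H.MP_ac3185_nt.D14.Lin
import Pool.Agent.H.MP_ac3185_nt.D14.RepTw

/-! The parities of the ranks over the fixed fields of the elements of a Galois group. -/

set_option autoImplicit false

open CategoryTheory AlgebraicGeometry NumberField
open scoped MonObj

namespace Pool.Agent.H.MP_ac3185_nt.D14

open OE

universe u

theorem Par_sg_mul (a b : ℤˣ) : sg (a * b) = sg a + sg b := by
  rcases Int.units_eq_one_or a with rfl | rfl <;> rcases Int.units_eq_one_or b with rfl | rfl <;>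
    decide

/-- Hilbert 90 for a character with values `±1`. -/
theorem Par_res {K N : Type*} [Field K] [Field N] [Algebra K N] [FiniteDimensional K N]
    (δ : (N ≃ₐ[K] N) →* ℤˣ) :
    ∃ s : N, s ≠ 0 ∧ ∀ g : N ≃ₐ[K] N, g s = ((δ g : ℤ) : N) * s := by
  have h := groupCohomology.isMulCoboundary₁_of_isMulCocycle₁_of_aut_to_units (K := K) (L := N)
    (fun g => Units.map (Int.castRingHom N).toMonoidHom (δ g)) (by
      intro g h
      apply Units.ext
      show ((Units.map (Int.castRingHom N).toMonoidHom (δ (g * h)) : Nˣ) : N) =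
        ((g • Units.map (Int.castRingHom N).toMonoidHom (δ h) *
          Units.map (Int.castRingHom N).toMonoidHom (δ g) : Nˣ) : N)
      rw [map_mul, map_mul, Units.val_mul, Units.val_mul]
      have h1 : ((g • Units.map (Int.castRingHom N).toMonoidHom (δ h) : Nˣ) : N) =
          g (((δ h : ℤ)) : N) := rfl
      rw [h1, map_intCast, mul_comm]
      rfl)
  obtain ⟨x, hx⟩ := h
  refine ⟨x, x.ne_zero, fun g => ?_⟩
  have h1 := hx g
  rw [div_eq_iff_eq_mul] at h1
  have h2 := congrArg (fun y : Nˣ => (y : N)) h1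
  exact h2

/-- PROOF. Apply `exists_repTw` with `1` and with `z`, and `exists_det` to both representations.
`d` is the sum of the two dimensions, `δ` the product of the two characters. -/
theorem exists_par {K : Type u} [Field K] [CharZero K] (A : Over (Spec (.of K))) [GrpObj A]
    [IsAbVar A]
    (N : IntermediateField K (AlgebraicClosure K)) [FiniteDimensional K N] [IsGalois K N]
    (z : K) (hz : z ≠ 0) :
    ∃ (d : ZMod 2) (δ : (N ≃ₐ[K] N) →* ℤˣ),
      ∀ (σ : AlgebraicClosure K ≃ₐ[K] AlgebraicClosure K)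
        (L : IntermediateField K (AlgebraicClosure K)),
        (∀ y : AlgebraicClosure K, y ∈ L ↔ y ∈ N ∧ σ y = y) →
        ∀ a ∈ L, ∀ r ∈ N, r ^ 2 = a → r ≠ 0 → ∀ ε : ℤˣ,
          σ r = ((ε : ℤ) : AlgebraicClosure K) * r →
          Module.rank ℤ (twPts A L a) < Cardinal.aleph0 →
          Module.rank ℤ (twPts A L (algebraMap K (AlgebraicClosure K) z * a)) < Cardinal.aleph0 →
          ((twRk A L a + twRk A L (algebraMap K (AlgebraicClosure K) z * a) : ℕ) : ZMod 2) =
            d * (1 + sg ε) + sg (δ (AlgEquiv.restrictNormalHom N σ)) := by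
  obtain ⟨M₁, i₁, j₁, k₁, ρ₁, h₁⟩ := exists_repTw A N 1 one_ne_zero
  obtain ⟨M₂, i₂, j₂, k₂, ρ₂, h₂⟩ := exists_repTw A N z hz
  obtain ⟨δ₁, g₁⟩ := exists_det ρ₁
  obtain ⟨δ₂, g₂⟩ := exists_det ρ₂
  refine ⟨((Module.finrank ℚ M₁ : ℕ) : ZMod 2) + ((Module.finrank ℚ M₂ : ℕ) : ZMod 2), δ₁ * δ₂, ?_⟩
  intro σ L hL a ha r hr hra hr0 ε hε f₁ f₂
  have e₁ := h₁ σ L hL a ha r hr hra hr0 ε hε (by rwa [map_one, one_mul])
  have e₂ := h₂ σ L hL a ha r hr hra hr0 ε hε f₂
  rw [map_one, one_mul] at e₁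
  rw [Nat.cast_add, ← e₁, ← e₂, g₁, g₂, MonoidHom.mul_apply, Par_sg_mul]
  ring

/-- The character of a quadratic extension of `K` in `N`.

PROOF. The kernel of `δ` composed with the restriction is a subgroup of `Gal(Kbar/K)` which contains
`Gal(Kbar/N)`; if it is everything take `q = 1`. Otherwise the fixed field of the kernel of `δ` in `N`
has degree `2` over `K` (Galois theory for `N/K`), it is generated by a square root of an element `q` of
`K` (characteristic `0`), and `σ` fixes `√q` if and only if `δ (σ|N) = 1`. -/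
theorem exists_chiK {K : Type u} [Field K] [CharZero K]
    (N : IntermediateField K (AlgebraicClosure K)) [FiniteDimensional K N] [IsGalois K N]
    (δ : (N ≃ₐ[K] N) →* ℤˣ) :
    ∃ q : Kˣ, ∀ σ : AlgebraicClosure K ≃ₐ[K] AlgebraicClosure K,
      δ (AlgEquiv.restrictNormalHom N σ) = chiK (q : K) σ := by
  obtain ⟨s, hs0, hs⟩ := Par_res δ
  have h1 : ∀ σ : AlgebraicClosure K ≃ₐ[K] AlgebraicClosure K, σ (s : AlgebraicClosure K) =
      ((δ (AlgEquiv.restrictNormalHom N σ) : ℤ) : AlgebraicClosure K) * s := by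
    intro σ
    have h2 := AlgEquiv.restrictNormal_commutes σ N s
    have h3 := hs (AlgEquiv.restrictNormalHom N σ)
    have h4 : algebraMap N (AlgebraicClosure K) ((AlgEquiv.restrictNormalHom N σ) s) =
        ((δ (AlgEquiv.restrictNormalHom N σ) : ℤ) : AlgebraicClosure K) * s := by
      rw [h3, map_mul, map_intCast]
      rfl
    exact h2.symm.trans h4
  have hS0 : (s : AlgebraicClosure K) ≠ 0 := fun h => hs0 (Subtype.ext h)
  have h5 : (s : AlgebraicClosure K) ^ 2 ∈ (⊥ : IntermediateField K (AlgebraicClosure K)) := by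
    refine rank_mem_of_fixed ⊥ _ fun σ _ => ?_
    rw [map_pow, h1 σ, mul_pow]
    rcases Int.units_eq_one_or (δ (AlgEquiv.restrictNormalHom N σ)) with h | h <;> rw [h] <;> simp
  obtain ⟨q, hq⟩ := IntermediateField.mem_bot.1 h5
  have hq0 : q ≠ 0 := by
    rintro rfl
    rw [map_zero] at hq
    exact hS0 (pow_eq_zero_iff two_ne_zero |>.1 hq.symm)
  refine ⟨Units.mk0 q hq0, fun σ => ?_⟩
  have h6 := chiK_smul q σ (s : AlgebraicClosure K) hq.symm
  rw [h1 σ] at h6
  have h7 := mul_right_cancel₀ hS0 h6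
  have h8 : (δ (AlgEquiv.restrictNormalHom N σ) : ℤ) = (chiK q σ : ℤ) := by exact_mod_cast h7
  exact Units.ext h8

end Pool.Agent.H.MP_ac3185_nt.D14
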