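import Pool.Agent.H.MP_ac3185_nt.D14.Char
import Pool.Agent.H.MP_ac3185_nt.D14.Par

/-! Finitely many exceptional pairs. -/

set_option autoImplicit false

open CategoryTheory AlgebraicGeometry NumberField
open scoped MonObj

namespace Pool.Agent.H.MP_ac3185_nt.D14

open OE

universe u

/-- The sign of the action on a square root `r` of an element of `F`. -/
private noncomputable def Loc_eps {K : Type u} [Field K] [CharZero K]
    (F : IntermediateField K (AlgebraicClosure K)) (r : AlgebraicClosure K) (hr0 : r ≠ 0)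
    (hr : r ^ 2 ∈ F) : ↥F.fixingSubgroup →* ℤˣ :=
  have hs : ∀ σ : ↥F.fixingSubgroup, σ.1 r = r ∨ σ.1 r = -r := fun σ => by
    rw [← sq_eq_sq_iff_eq_or_eq_neg, ← map_pow]
    exact (IntermediateField.mem_fixingSubgroup_iff F σ.1).1 σ.2 _ hr
  { toFun := fun σ => by classical exact if σ.1 r = r then 1 else -1
    map_one' := if_pos rfl
    map_mul' := fun σ τ => by
      have h0 : -r ≠ r := fun h => hr0 (by
        have h1 : (2 : AlgebraicClosure K) * r = 0 := by linear_combination -h
        rcases mul_eq_zero.1 h1 with h2 | h2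
        · exact absurd h2 two_ne_zero
        · exact h2)
      have hst : (σ * τ).1 r = σ.1 (τ.1 r) := rfl
      rw [hst]
      rcases hs τ with h1 | h1
      · rw [h1, if_pos rfl, mul_one]
      · rw [h1, map_neg, if_neg h0]
        rcases hs σ with h2 | h2
        · rw [h2, if_neg h0, if_pos rfl, one_mul]
        · rw [h2, neg_neg, if_pos rfl, if_neg h0]
          rfl }

private theorem Loc_eps_smul {K : Type u} [Field K] [CharZero K]
    (F : IntermediateField K (AlgebraicClosure K)) (r : AlgebraicClosure K) (hr0 : r ≠ 0)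
    (hr : r ^ 2 ∈ F) (σ : ↥F.fixingSubgroup) :
    σ.1 r = ((Loc_eps F r hr0 hr σ : ℤ) : AlgebraicClosure K) * r := by
  classical
  have hs : σ.1 r = r ∨ σ.1 r = -r := by
    rw [← sq_eq_sq_iff_eq_or_eq_neg, ← map_pow]
    exact (IntermediateField.mem_fixingSubgroup_iff F σ.1).1 σ.2 _ hr
  have h0 : -r ≠ r := fun h => hr0 (by
    have h1 : (2 : AlgebraicClosure K) * r = 0 := by linear_combination -h
    rcases mul_eq_zero.1 h1 with h2 | h2
    · exact absurd h2 two_ne_zero
    · exact h2)
  have hv : Loc_eps F r hr0 hr σ = if σ.1 r = r then 1 else -1 := rfl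
  rw [hv]
  rcases hs with h1 | h1
  · rw [if_pos h1, h1]; simp
  · rw [h1, if_neg h0]; simp

/-- A finite Galois extension which contains finitely many finite extensions and elements. -/
private theorem Loc_galois {K : Type u} [Field K] [CharZero K] {Θ : Type*} [Finite Θ]
    (F : Θ → IntermediateField K (AlgebraicClosure K)) (hF : ∀ t, FiniteDimensional K (F t))
    (r : Θ → AlgebraicClosure K) :
    ∃ N : IntermediateField K (AlgebraicClosure K), FiniteDimensional K N ∧ IsGalois K N ∧
      (∀ t, F t ≤ N) ∧ ∀ t, r t ∈ N := by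
  have h1 : FiniteDimensional K (⨆ t, F t : IntermediateField K (AlgebraicClosure K)) :=
    IntermediateField.finiteDimensional_iSup_of_finite
  have h2 : FiniteDimensional K (IntermediateField.adjoin K (Set.range r)) :=
    IntermediateField.finiteDimensional_adjoin fun x _ => Algebra.IsIntegral.isIntegral x
  have h3 : FiniteDimensional K ((⨆ t, F t) ⊔ IntermediateField.adjoin K (Set.range r) :
    IntermediateField K (AlgebraicClosure K)) := IntermediateField.finiteDimensional_sup _ _
  refine ⟨IntermediateField.normalClosure K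
    ((⨆ t, F t) ⊔ IntermediateField.adjoin K (Set.range r) :
      IntermediateField K (AlgebraicClosure K)) (AlgebraicClosure K), inferInstance, ?_, ?_, ?_⟩
  · exact { }
  · intro t
    exact ((le_iSup F t).trans le_sup_left).trans (IntermediateField.le_normalClosure _)
  · intro t
    refine (le_sup_right.trans (IntermediateField.le_normalClosure _)) ?_
    exact IntermediateField.subset_adjoin K _ ⟨t, rfl⟩

/-- PROOF. Let `N` be a finite Galois extension of `K` which contains all the `F t` and all square roots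
of the `a t` (for instance the normal closure of the field generated by them). The fields `L` between
`K` and `N` are finitely many, so there is an `m` which is large enough for all the `OffT` in
question. Take `d i`, `δ i` from `exists_par` for `A i` and `z = D m`, and `q i` from `exists_chiK` for
`δ i`. For `t` apply `char_lin` to `G = (F t).fixingSubgroup`, the character `ε_t` of `G` which gives the
action on a square root `r` of `a t`, and the characters `chiK (q i)`: for `σ ∈ G` let `L` be the field
of the elements of `N` fixed by `σ`; it contains `F t`, so there is an `i` with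
`OffT (A i) D L (a t)` by `hbad`; so the number of `exists_par` is `1` and not `0`. The result is `J`
with `ε_t * ∏ chiK (q i) = 1` on `G`, so `r * ∏ √(q i)` is fixed by `G` and lies in `F t`; its square
is `a t * ∏ q i`. -/
theorem fin_bad {K : Type u} [Field K] [CharZero K] {I : Type} [Finite I]
    (A : I → Over (Spec (.of K))) [∀ i, GrpObj (A i)] [∀ i, IsAbVar (A i)]
    (D : ℕ → K) (hD0 : ∀ j, D j ≠ 0)
    {Θ : Type*} [Finite Θ] (F : Θ → IntermediateField K (AlgebraicClosure K))
    (hF : ∀ t, FiniteDimensional K (F t)) (a : Θ → AlgebraicClosure K) (haF : ∀ t, a t ∈ F t)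
    (ha0 : ∀ t, a t ≠ 0)
    (hbad : ∀ t, ∀ F₁ : IntermediateField K (AlgebraicClosure K), F t ≤ F₁ →
      FiniteDimensional K F₁ → ((∃ y ∈ F₁, y ^ 2 = a t) → ∃ y ∈ F t, y ^ 2 = a t) →
        ∃ i, OffT (A i) D F₁ (a t)) :
    ∃ q : I → Kˣ, ∀ t, ∃ J : Finset I, J.Nonempty ∧
      ∃ y ∈ F t, y ^ 2 = a t * algebraMap K (AlgebraicClosure K) (∏ i ∈ J, (q i : K)) := by
  classical
  choose r hr using fun t => IsAlgClosed.exists_pow_nat_eq (a t) (n := 2) two_pos
  have hr0 : ∀ t, r t ≠ 0 := by
    intro t h
    have h1 := hr t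
    rw [h, zero_pow two_ne_zero] at h1
    exact ha0 t h1.symm
  have hrF : ∀ t, r t ^ 2 ∈ F t := fun t => by rw [hr]; exact haF t
  obtain ⟨N, hN1, hN2, hFN, hrN⟩ := Loc_galois F hF r
  have hfin : Finite (IntermediateField K N) :=
    Field.finite_intermediateField_of_exists_primitive_element K N (Field.exists_primitive_element K N)
  have hfd : ∀ E : IntermediateField K N, FiniteDimensional K (IntermediateField.lift E) := by
    intro E
    exact Module.Finite.equiv (IntermediateField.liftAlgEquiv E).toLinearEquiv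
  -- the bound for the twisting elements
  have hm : ∀ x : IntermediateField K N × Θ × I, ∃ m₀ : ℕ,
      OffT (A x.2.2) D (IntermediateField.lift x.1) (a x.2.1) → ∀ m, m₀ ≤ m →
        Module.rank ℤ (twPts (A x.2.2) (IntermediateField.lift x.1) (a x.2.1)) < Cardinal.aleph0 ∧
        Module.rank ℤ (twPts (A x.2.2) (IntermediateField.lift x.1)
          (algebraMap K (AlgebraicClosure K) (D m) * a x.2.1)) < Cardinal.aleph0 ∧
        ¬ Even (twRk (A x.2.2) (IntermediateField.lift x.1) (a x.2.1) +
          twRk (A x.2.2) (IntermediateField.lift x.1)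
            (algebraMap K (AlgebraicClosure K) (D m) * a x.2.1)) := by
    intro x
    by_cases h : OffT (A x.2.2) D (IntermediateField.lift x.1) (a x.2.1)
    · obtain ⟨m₀, hm₀⟩ := h
      exact ⟨m₀, fun _ => hm₀⟩
    · exact ⟨0, fun h' => absurd h' h⟩
  choose m₀ hm₀ using hm
  obtain ⟨m, hm⟩ : ∃ m, ∀ x, m₀ x ≤ m := by
    obtain ⟨m, hm⟩ := (Set.finite_range m₀).bddAbove
    exact ⟨m, fun x => hm ⟨x, rfl⟩⟩
  have hpar := fun i => exists_par (A i) N (D m) (hD0 m)
  choose d δ hdδ using hpar
  choose q hq using fun i => exists_chiK N (δ i)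
  refine ⟨q, fun t => ?_⟩
  obtain ⟨J, hJ, hJ1⟩ := char_lin (Loc_eps (F t) (r t) (hr0 t) (hrF t))
    (fun i => (chiK (q i : K)).comp (F t).fixingSubgroup.subtype) d (by
    intro σ hσ1
    -- the fixed field of `σ` in `N`
    obtain ⟨L, hL⟩ : ∃ L : IntermediateField K (AlgebraicClosure K),
        L = N ⊓ IntermediateField.fixedField (Subgroup.zpowers σ.1) := ⟨_, rfl⟩
    have hLmem : ∀ y : AlgebraicClosure K, y ∈ L ↔ y ∈ N ∧ σ.1 y = y := by
      intro y
      rw [hL, IntermediateField.mem_inf, IntermediateField.mem_fixedField_iff]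
      refine and_congr_right fun _ => ⟨fun h => h _ (Subgroup.mem_zpowers σ.1), fun h => ?_⟩
      intro g hg
      have h1 : Subgroup.zpowers σ.1 ≤ MulAction.stabilizer
          (AlgebraicClosure K ≃ₐ[K] AlgebraicClosure K) y := by
        rw [Subgroup.zpowers_le, MulAction.mem_stabilizer_iff]
        exact h
      exact MulAction.mem_stabilizer_iff.1 (h1 hg)
    have hLN : L ≤ N := by rw [hL]; exact inf_le_left
    have hFL : F t ≤ L := by
      intro y hy
      rw [hLmem]
      exact ⟨hFN t hy, (IntermediateField.mem_fixingSubgroup_iff (F t) σ.1).1 σ.2 _ hy⟩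
    have hLE : IntermediateField.lift (IntermediateField.restrict hLN) = L :=
      IntermediateField.lift_restrict hLN
    have hLfd : FiniteDimensional K L := by
      have h1 := hfd (IntermediateField.restrict hLN)
      rwa [hLE] at h1
    have hsq : (∃ y ∈ L, y ^ 2 = a t) → ∃ y ∈ F t, y ^ 2 = a t := by
      rintro ⟨y, hy, hy2⟩
      have hrL : r t ∈ L := by
        rcases sq_eq_sq_iff_eq_or_eq_neg.1 ((hr t).trans hy2.symm) with h | h
        · rw [h]
          exact hy
        · rw [h]
          exact neg_mem hy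
      have h1 : Loc_eps (F t) (r t) (hr0 t) (hrF t) σ = 1 := if_pos ((hLmem _).1 hrL).2
      have h2 := hσ1 h1
      refine ⟨r t, rank_mem_of_fixed (F t) _ fun τ hτ => ?_, hr t⟩
      rw [Loc_eps_smul (F t) (r t) (hr0 t) (hrF t) ⟨τ, hτ⟩, h2]
      simp
    obtain ⟨i, hi⟩ := hbad t L hFL hLfd hsq
    refine ⟨i, ?_⟩
    have h1 := hm₀ (IntermediateField.restrict hLN, t, i)
    dsimp only at h1
    rw [hLE] at h1
    obtain ⟨h5, h6, h2⟩ := h1 hi m (hm _)
    have h3 := hdδ i σ.1 L hLmem (a t) (hFL (haF t)) (r t) (hrN t) (hr t) (hr0 t)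
      (Loc_eps (F t) (r t) (hr0 t) (hrF t) σ) (Loc_eps_smul (F t) (r t) (hr0 t) (hrF t) σ) h5 h6
    rw [hq i] at h3
    change d i * (1 + sg _) + sg (chiK (q i : K) σ.1) ≠ 0
    rw [← h3]
    intro h4
    exact h2 ((ZMod.natCast_eq_zero_iff_even).1 h4))
  refine ⟨J, hJ, r t * ∏ i ∈ J, rtK K (q i : K), ?_, ?_⟩
  · apply rank_mem_of_fixed (F t)
    intro σ hσ
    have h1 := DFunLike.congr_fun hJ1 ⟨σ, hσ⟩
    rw [MonoidHom.mul_apply, MonoidHom.finsetProd_apply, MonoidHom.one_apply] at h1
    rw [map_mul, map_prod, Loc_eps_smul (F t) (r t) (hr0 t) (hrF t) ⟨σ, hσ⟩,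
      Finset.prod_congr rfl fun i _ => chiK_smul (q i : K) σ _ (rtK_sq K (q i : K)),
      Finset.prod_mul_distrib]
    have h2 : ((Loc_eps (F t) (r t) (hr0 t) (hrF t) ⟨σ, hσ⟩ : ℤ) : AlgebraicClosure K) *
        ∏ i ∈ J, ((chiK (q i : K) σ : ℤ) : AlgebraicClosure K) = 1 := by
      have h3 := congrArg (fun u : ℤˣ => ((u : ℤ) : AlgebraicClosure K)) h1
      simp only [Units.val_mul, Units.coe_prod, Int.cast_mul, Int.cast_prod, Units.val_one,
        Int.cast_one] at h3
      exact h3
    linear_combination (r t * ∏ i ∈ J, rtK K (q i : K)) * h2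
  · rw [mul_pow, hr, ← Finset.prod_pow, map_prod]
    congr 1
    exact Finset.prod_congr rfl fun i _ => rtK_sq K (q i : K)

end Pool.Agent.H.MP_ac3185_nt.D14
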