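import Pool.Agent.H.MP_ac3185_nt.D14.Rank
import Pool.Agent.H.MP_ac3185_nt.O42.Main

/-! The tower of an element with a partner. -/

set_option autoImplicit false

open CategoryTheory AlgebraicGeometry NumberField IsDedekindDomain
open scoped MonObj

namespace Pool.Agent.H.MP_ac3185_nt.D14

open OE

universe u

/-- The rank of the part of `A(Fbar)` for a character of `Gal(L/F)` times the character of `a` is at
most the rank of the twist over `L`. -/
theorem Part_le {K : Type u} [Field K] {F : Type u} [Field F] [CharZero F] [Algebra K F]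
    (A : Over (Spec (.of K))) [GrpObj A] [IsAbVar A] (B : Over (Spec (.of F))) [GrpObj B] [IsAbVar B]
    (a : F) (hAB : IsTwistOver A B a) (L : IntermediateField F (AlgebraicClosure F))
    [FiniteDimensional F L] [IsGalois F L] (ε : (L ≃ₐ[F] L) →* ℤˣ)
    (ψ : (AlgebraicClosure F ≃ₐ[F] AlgebraicClosure F) →* ℤˣ)
    (hε : ∀ σ : AlgebraicClosure F ≃ₐ[F] AlgebraicClosure F,
      ε (AlgEquiv.restrictNormalHom L σ) * chiK a σ = ψ σ) :
    Module.rank ℤ (psiPtsO A F ψ) ≤ Module.rank ℤ (Pts B L) := by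
  obtain ⟨M, _, _, ρ, hM, h⟩ := exists_repO A B a hAB L
  rw [← h ε ψ hε, ← hM]
  exact Submodule.rank_le _

/-- As the second half of `one_exception` in `O42/Main.lean`, over the extension `F` of `K`. -/
theorem tower_of_partner {K : Type u} [Field K] {I : Type} [Finite I]
    (A : I → Over (Spec (.of K))) [∀ i, GrpObj (A i)] [∀ i, IsAbVar (A i)] (X : Set K)
    (x : ℕ → K) (hx : ∀ j, x j ∈ X) (s : ℕ → Finset ℕ)
    (F : Type u) [Field F] [NumberField F] [Algebra K F]
    (D : ℕ → F) (hD : ∀ j, D j = algebraMap K F (∏ q ∈ s j, x q)) (hD0 : ∀ j, D j ≠ 0)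
    (hDi : ∀ T : Finset ℕ, T.Nonempty → ∀ y : F, y ^ 2 ≠ ∏ j ∈ T, D j)
    (α φ : F → I → Prop) (k : F → I → ℕ)
    (hα : ∀ a i, ∀ T : Finset ℕ, T.Nonempty → (∀ j ∈ T, k a i ≤ j) →
      (Even (psiRkO (A i) F (chiK (∏ j ∈ T, D j) * chiK a)) ↔ α a i))
    (hφ : ∀ a i, ∀ T : Finset ℕ, T.Nonempty → (∀ j ∈ T, k a i ≤ j) →
      (Module.rank ℤ (psiPtsO (A i) F (chiK (∏ j ∈ T, D j) * chiK a)) < Cardinal.aleph0 ↔ φ a i))
    (a a' : Fˣ) (haa : ¬ IsSquare (a * a'))
    (hbet : ∀ i, Module.rank ℤ (psiPtsO (A i) F (chiK (a : F))) < Cardinal.aleph0 → φ (a : F) i →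
      (Bet (fun (i : I) ψ => psiRkO (A i) F ψ) α (a : F) i ↔
        Bet (fun (i : I) ψ => psiRkO (A i) F ψ) α (a' : F) i)) :
    GoodTower A X F (a : F) := by
  classical
  have _ : Fintype I := Fintype.ofFinite I
  obtain ⟨c, hc⟩ : ∃ c : F, c = (a : F) * (a' : F) := ⟨_, rfl⟩
  have hc0 : c ≠ 0 := by
    rw [hc]
    exact mul_ne_zero a.ne_zero a'.ne_zero
  have hcK : ∀ y : F, y ^ 2 ≠ c := by
    intro y hy
    apply haa
    have hy0 : y ≠ 0 := by
      rintro rfl
      rw [zero_pow two_ne_zero] at hy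
      exact hc0 hy.symm
    refine ⟨Units.mk0 y hy0, Units.ext ?_⟩
    rw [Units.val_mul, Units.val_mul, Units.val_mk0, ← sq, hy, hc]
  have hchic : chiK c ≠ 1 := fun h => by
    obtain ⟨y, hy⟩ := isSquare_of_chiK h
    exact hcK y hy
  have hchiD : ∀ j, chiK (D j) ≠ 1 := fun j h => by
    obtain ⟨y, hy⟩ := isSquare_of_chiK h
    refine hDi {j} (Finset.singleton_nonempty j) y ?_
    rw [hy, Finset.prod_singleton]
  have hchiDD : ∀ i j, i ≠ j → chiK (D i) ≠ chiK (D j) := by
    intro i j hij h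
    have h2 : chiK (D i * D j) = 1 := by
      rw [chiK_mul (hD0 _) (hD0 _), h, Chi_self_mul]
    obtain ⟨y, hy⟩ := isSquare_of_chiK h2
    refine hDi {i, j} ⟨i, Finset.mem_insert_self _ _⟩ y ?_
    rw [hy, Finset.prod_pair hij]
  -- the index
  obtain ⟨n, hn⟩ : ∃ n, ∀ i, k (a : F) i ≤ n ∧ k (a' : F) i ≤ n := by
    refine ⟨∑ i, (k (a : F) i + k (a' : F) i), fun i => ?_⟩
    have h1 := Finset.single_le_sum (f := fun i => k (a : F) i + k (a' : F) i)
      (fun _ _ => Nat.zero_le _) (Finset.mem_univ i)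
    omega
  obtain ⟨m, hm⟩ : ∃ m, m = 3 * Module.finrank ℚ F + 2 := ⟨_, rfl⟩
  obtain ⟨S, hS⟩ : ∃ S : Finset F, S = insert c ((Finset.range m).image fun j => D (n + j)) :=
    ⟨_, rfl⟩
  obtain ⟨Y, hY⟩ : ∃ Y : Set F, Y = insert c {z | ∃ j, n ≤ j ∧ z = D j} := ⟨_, rfl⟩
  have hSY : (S : Set F) ⊆ Y := by
    intro z hz
    rw [hS, Finset.mem_coe, Finset.mem_insert, Finset.mem_image] at hz
    rw [hY]
    rcases hz with h | ⟨j, -, h⟩
    · exact Or.inl h
    · exact Or.inr ⟨n + j, Nat.le_add_right n j, h.symm⟩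
  have hDY : ∀ j, n ≤ j → D j ∈ Y := by
    intro j hj
    rw [hY]
    exact Or.inr ⟨j, hj, rfl⟩
  have hDS : ∀ j, j < m → D (n + j) ∈ (S : Set F) := by
    intro j hj
    rw [hS, Finset.mem_coe]
    exact Finset.mem_insert_of_mem (Finset.mem_image_of_mem _ (Finset.mem_range.2 hj))
  have hcS : c ∈ (S : Set F) := by
    rw [hS, Finset.mem_coe]
    exact Finset.mem_insert_self _ _
  have hY0 : ∀ b ∈ Y, b ≠ 0 := by
    intro b hb
    rw [hY] at hb
    rcases hb with h | ⟨j, -, h⟩
    · rw [h]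
      exact hc0
    · rw [h]
      exact hD0 j
  refine ⟨c, sqrtExt (S : Set F), sqrtExt Y, sqrtExt_mono hSY, ?_,
    sqrtExt_finite _ S.finite_toSet, ?_, infinite_of_indep D hD0 hDi n Y hDY, ?_⟩
  · -- the tower lies in the given field
    conv_lhs => unfold sqrtExt
    rw [IntermediateField.adjoin_le_iff]
    rintro z ⟨b, hb, hz⟩
    rw [hY] at hb
    rcases hb with h | ⟨j, -, h⟩
    · exact mem_sqrtExt (Set.mem_insert_iff.2 (Or.inl h)) hz
    · have h1 : (∏ q ∈ s j, rtK F (algebraMap K F (x q))) ^ 2 = z ^ 2 := by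
        rw [hz, h, hD, ← Finset.prod_pow, map_prod, map_prod]
        exact Finset.prod_congr rfl fun q _ => rtK_sq F _
      have h2 : ∏ q ∈ s j, rtK F (algebraMap K F (x q)) ∈
          sqrtExt (insert c (algebraMap K F '' X)) :=
        prod_mem fun q _ => mem_sqrtExt
          (Set.mem_insert_of_mem c (Set.mem_image_of_mem _ (hx q))) (rtK_sq F _)
      rcases sq_eq_sq_iff_eq_or_eq_neg.1 h1 with h3 | h3
      · rwa [h3] at h2
      · rw [h3] at h2
        exact neg_mem_iff.1 h2
  · -- the degree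
    refine (sqrtExt_finrank_le S).trans (Nat.pow_le_pow_right (by norm_num) ?_)
    rw [hS]
    refine (Finset.card_insert_le _ _).trans ?_
    have h1 := Finset.card_image_le (s := Finset.range m) (f := fun j => D (n + j))
    rw [Finset.card_range] at h1
    omega
  · -- the fields
    intro M hfd hLF hF i B _ _ hAB
    have hmemF : ∀ b ∈ (S : Set F), rtK F b ∈ M := fun b hb =>
      hLF (mem_sqrtExt hb (rtK_sq F b))
    have hFT : AboveTower (sqrtExt Y) M := by
      rcases hF with hF | hF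
      · exact tow_above Y M hF c (rtK F c) (hmemF c hcS) (rtK_sq F c) hcK
      · exact hF
    have hgal : IsGalois F M := hFT.2.1
    refine ⟨fun W hW g => ?_, ?_⟩
    · refine KT.signK M (k := m) hm.ge (fun j : Fin m => D (n + j)) ?_ (fun j =>
        ⟨rtK F (D (n + j)), hmemF _ (hDS j j.2), rtK_sq F _⟩) W hW g
      intro J hJ y hy
      refine hDi (J.image fun j : Fin m => n + (j : ℕ)) (hJ.image _) y ?_
      rw [hy, Finset.prod_image]
      intro j _ j' _ h
      apply Fin.ext
      have h' : n + (j : ℕ) = n + (j' : ℕ) := h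
      omega
    · rcases lt_or_ge (Module.rank ℤ (Pts B M)) Cardinal.aleph0 with hfr | hfr
      swap
      · have h2 := gt_even_infinite _ hfr 0
        rwa [Nat.cast_zero, add_zero] at h2
      -- the finite ranks
      have hfin1 : Module.rank ℤ (psiPtsO (A i) F (chiK (a : F))) < Cardinal.aleph0 := by
        refine lt_of_le_of_lt (Part_le (A i) B (a : F) hAB M 1 _ fun σ => ?_) hfr
        rw [MonoidHom.one_apply, one_mul]
      have hfin2 : φ (a : F) i := by
        obtain ⟨ε, hε⟩ := epsK M (D n) (rtK F (D n)) (hmemF _ (hDS 0 (by omega))) (rtK_sq F _)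
        refine (hφ (a : F) i {n} (Finset.singleton_nonempty n) fun j hj => ?_).1 ?_
        · rw [Finset.mem_singleton] at hj
          rw [hj]
          exact (hn i).1
        · rw [Finset.prod_singleton]
          refine lt_of_le_of_lt (Part_le (A i) B (a : F) hAB M ε _ fun σ => ?_) hfr
          rw [hε σ, MonoidHom.mul_apply]
      have hbeti := hbet i hfin1 hfin2
      -- the second square root
      obtain ⟨b, hbS, hb1, hbc⟩ : ∃ b ∈ (S : Set F), chiK b ≠ 1 ∧ chiK c ≠ chiK b := by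
        by_cases h : chiK c = chiK (D (n + 0))
        · refine ⟨D (n + 1), hDS 1 (by omega), hchiD _, ?_⟩
          rw [h]
          exact hchiDD _ _ (by omega)
        · exact ⟨D (n + 0), hDS 0 (by omega), hchiD _, h⟩
      refine rankO_even (A i) B (a : F) hAB Y hY0 M hFT c (rtK F c) (hmemF c hcS) (rtK_sq F c)
        hchic b (rtK F b) (hmemF b hbS) (rtK_sq F b) hb1 hbc
        (psiRkO (A i) F (chiK (a : F)) + psiRkO (A i) F (chiK (a' : F))) ?_
      intro t ht
      rw [hY] at ht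
      obtain ⟨T, hT, hprod⟩ := prod_split D n c t ht
      have hsum := comb_sum (fun (i : I) ψ => psiRkO (A i) F ψ) D α k hα (a : F) (a' : F) i
        hbeti T (fun j hj => (hn i).1.trans (hT j hj)) (fun j hj => (hn i).2.trans (hT j hj))
      have hD1 : ∏ j ∈ T, D j ≠ 0 := Finset.prod_ne_zero_iff.2 fun j _ => hD0 j
      have hcc : chiK c = chiK (a : F) * chiK (a' : F) := by
        rw [hc, chiK_mul a.ne_zero a'.ne_zero]
      have hca : chiK c * chiK (a : F) = chiK (a' : F) := by
        rw [hcc, mul_comm (chiK (a : F)), mul_assoc, Chi_self_mul, mul_one]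
      rcases hprod with h | h
      · rw [h, mul_assoc _ (chiK c), hca]
        exact hsum
      · rw [h, chiK_mul hc0 hD1, mul_comm (chiK c) (chiK (∏ j ∈ T, D j)),
          mul_assoc _ (chiK c) (chiK c), Chi_self_mul, mul_one, mul_assoc _ (chiK c), hca,
          add_comm]
        exact hsum

end Pool.Agent.H.MP_ac3185_nt.D14
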