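import Pool.Agent.H.MP_ac3185_nt.D14.Defs
import Pool.Agent.H.MP_ac3185_nt.O42.Deg

/-! Two algebraic closures: the ranks of the twists over an intermediate field. -/

set_option autoImplicit false

open CategoryTheory AlgebraicGeometry NumberField
open scoped MonObj

namespace Pool.Agent.H.MP_ac3185_nt.D14

open OE

universe u

section transport

variable {K : Type u} [Field K]

private theorem Trans_w {E E' : Type u} [Field E] [Algebra K E] [Field E'] [Algebra K E']
    (f : E ≃ₐ[K] E') :
    Spec.map (CommRingCat.ofHom (f : E →+* E')) ≫ Spec.map (CommRingCat.ofHom (algebraMap K E)) =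
      Spec.map (CommRingCat.ofHom (algebraMap K E')) := by
  rw [← Spec.map_comp]
  congr 1
  ext x
  exact f.commutes x

/-- The isomorphism `Spec f`. -/
private noncomputable def Trans_sp {E E' : Type u} [Field E] [Algebra K E] [Field E'] [Algebra K E']
    (f : E ≃ₐ[K] E') : specOver K E' ⟶ specOver K E :=
  Over.homMk (Spec.map (CommRingCat.ofHom (f : E →+* E'))) (Trans_w f)

/-- Transport of points. -/
private noncomputable def Trans_fn (A : Over (Spec (.of K))) {E E' : Type u} [Field E] [Algebra K E]
    [Field E'] [Algebra K E'] (f : E ≃ₐ[K] E') (x : Pts A E) : Pts A E' :=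
  Additive.ofMul (Trans_sp f ≫ (Additive.toMul x : specOver K E ⟶ A))

private theorem Trans_sp_comp {E E' E'' : Type u} [Field E] [Algebra K E] [Field E'] [Algebra K E']
    [Field E''] [Algebra K E''] (f : E ≃ₐ[K] E') (g : E' ≃ₐ[K] E'') (h : E ≃ₐ[K] E'')
    (hfg : ∀ x, h x = g (f x)) : Trans_sp g ≫ Trans_sp f = Trans_sp h := by
  apply Over.OverMorphism.ext
  show Spec.map (CommRingCat.ofHom (g : E' →+* E'')) ≫ Spec.map (CommRingCat.ofHom (f : E →+* E')) =
    Spec.map (CommRingCat.ofHom (h : E →+* E''))
  rw [← Spec.map_comp]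
  congr 1
  ext x
  exact (hfg x).symm

private theorem Trans_comp (A : Over (Spec (.of K))) {E E' E'' : Type u} [Field E] [Algebra K E]
    [Field E'] [Algebra K E'] [Field E''] [Algebra K E''] (f : E ≃ₐ[K] E') (g : E' ≃ₐ[K] E'')
    (h : E ≃ₐ[K] E'') (hfg : ∀ x, h x = g (f x)) (x : Pts A E) :
    Trans_fn A g (Trans_fn A f x) = Trans_fn A h x := by
  show Additive.ofMul (Trans_sp g ≫ (Trans_sp f ≫ (Additive.toMul x : specOver K E ⟶ A))) =
    Additive.ofMul (Trans_sp h ≫ (Additive.toMul x : specOver K E ⟶ A))
  rw [← Category.assoc, Trans_sp_comp f g h hfg]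

private theorem Trans_refl (A : Over (Spec (.of K))) {E : Type u} [Field E] [Algebra K E]
    (f : E ≃ₐ[K] E) (hf : ∀ x, f x = x) (x : Pts A E) : Trans_fn A f x = x := by
  have h1 : Trans_sp f = 𝟙 (specOver K E) := by
    apply Over.OverMorphism.ext
    show Spec.map (CommRingCat.ofHom (f : E →+* E)) = 𝟙 _
    have h2 : CommRingCat.ofHom (f : E →+* E) = 𝟙 (CommRingCat.of E) := by
      ext x
      exact hf x
    rw [h2]
    exact Spec.map_id _
  show Additive.ofMul (Trans_sp f ≫ (Additive.toMul x : specOver K E ⟶ A)) = x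
  rw [h1, Category.id_comp]
  rfl

/-- Transport of points, as an isomorphism of groups. -/
private noncomputable def Trans_eq (A : Over (Spec (.of K))) [GrpObj A] [IsAbVar A] {E E' : Type u}
    [Field E] [Algebra K E] [Field E'] [Algebra K E'] (f : E ≃ₐ[K] E') : Pts A E ≃+ Pts A E' where
  toFun := Trans_fn A f
  invFun := Trans_fn A f.symm
  left_inv x := by
    rw [Trans_comp A f f.symm AlgEquiv.refl fun x => (f.symm_apply_apply x).symm]
    exact Trans_refl A _ (fun _ => rfl) x
  right_inv x := by
    rw [Trans_comp A f.symm f AlgEquiv.refl fun x => (f.apply_symm_apply x).symm]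
    exact Trans_refl A _ (fun _ => rfl) x
  map_add' x y := by
    have h : Trans_sp f ≫ ((Additive.toMul x : specOver K E ⟶ A) * Additive.toMul y) =
        (Trans_sp f ≫ Additive.toMul x) * (Trans_sp f ≫ Additive.toMul y) := MonObj.comp_mul _ _ _
    exact congrArg Additive.ofMul h

/-- Compatibility with the automorphisms. -/
private theorem Trans_gal (A : Over (Spec (.of K))) [GrpObj A] [IsAbVar A] {E E' : Type u}
    [Field E] [Algebra K E] [Field E'] [Algebra K E'] (f : E ≃ₐ[K] E') (g : E ≃ₐ[K] E)
    (g' : E' ≃ₐ[K] E') (h : ∀ x, f (g x) = g' (f x)) (x : Pts A E) :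
    galHom A g' (Trans_eq A f x) = Trans_eq A f (galHom A g x) := by
  have h1 := Trans_comp A f g' (f.trans g') (fun _ => rfl) x
  have h2 := Trans_comp A g f (f.trans g') (fun x => (h x).symm) x
  exact h1.trans h2.symm

end transport

/-- PROOF. `AlgebraicClosure K` is an algebraic closure of `L` (`IsAlgClosure L (AlgebraicClosure K)`),
so there is an isomorphism `e : AlgebraicClosure L ≃ₐ[L] AlgebraicClosure K` (`IsAlgClosure.equiv`).
Composition with the isomorphism `Spec e` of `specOver K (AlgebraicClosure K)` and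
`specOver K (AlgebraicClosure L)` gives an isomorphism of the groups `Pts A (AlgebraicClosure L)` and
`Pts A (AlgebraicClosure K)` (as `upts_map`, `upts_fn`, `upts_j` in `U/Pts.lean`), which transports the
action of `σ.restrictScalars K`, `σ ∈ Gal(AlgebraicClosure L / L)`, to the action of the automorphism
`e σ e⁻¹` of `AlgebraicClosure K`, and `σ ↦ e σ e⁻¹` is a bijection from
`Gal(AlgebraicClosure L / L)` to `L.fixingSubgroup`. It maps `psiPtsO A L (chiK b)` onto
`twPts A L b`: `chiK b σ = 1` if and only if `σ` fixes the square roots of `b` (`chiK_eq_one_iff`),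
if and only if `e σ e⁻¹` fixes the square roots of `b` in `AlgebraicClosure K`. -/
theorem psiRank_eq_twRank {K : Type u} [Field K] [CharZero K] (A : Over (Spec (.of K))) [GrpObj A]
    [IsAbVar A] (L : IntermediateField K (AlgebraicClosure K)) (b : L) :
    Module.rank ℤ (psiPtsO A L (chiK b)) = Module.rank ℤ (twPts A L (b : AlgebraicClosure K)) := by
  haveI : IsAlgClosure L (AlgebraicClosure K) :=
    ⟨inferInstance, Algebra.IsAlgebraic.tower_top (K := K) L⟩
  let e : AlgebraicClosure L ≃ₐ[L] AlgebraicClosure K :=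
    IsAlgClosure.equiv L (AlgebraicClosure L) (AlgebraicClosure K)
  let f : AlgebraicClosure L ≃ₐ[K] AlgebraicClosure K := e.restrictScalars K
  have hfe : ∀ x, f x = e x := fun _ => rfl
  have heb : ∀ s : AlgebraicClosure L, s ^ 2 = algebraMap L (AlgebraicClosure L) b →
      (e s) ^ 2 = (b : AlgebraicClosure K) := by
    intro s hs
    rw [← map_pow, hs, AlgEquiv.commutes]
    rfl
  have heb' : ∀ s : AlgebraicClosure K, s ^ 2 = (b : AlgebraicClosure K) →
      (e.symm s) ^ 2 = algebraMap L (AlgebraicClosure L) b := by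
    intro s hs
    rw [← map_pow, hs]
    exact e.symm.commutes b
  -- two related automorphisms
  have key : ∀ (σ : AlgebraicClosure L ≃ₐ[L] AlgebraicClosure L)
      (τ : AlgebraicClosure K ≃ₐ[K] AlgebraicClosure K), (∀ x, e (σ x) = τ (e x)) →
      ∀ x : Pts A (AlgebraicClosure L), galHom A τ (Trans_eq A f x) =
        Trans_eq A f (galHom A (σ.restrictScalars K) x) := fun σ τ h x =>
    Trans_gal A f (σ.restrictScalars K) τ (fun y => h y) x
  have hmap : (psiPtsO A L (chiK b)).map (Trans_eq A f).toAddMonoidHom =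
      twPts A L (b : AlgebraicClosure K) := by
    ext y
    constructor
    · rintro ⟨x, hx, rfl⟩ τ hτ s hs
      obtain ⟨σ, hσ⟩ : ∃ σ : AlgebraicClosure L ≃ₐ[L] AlgebraicClosure L,
          ∀ x, e (σ x) = τ (e x) := by
        let τ' : AlgebraicClosure K ≃ₐ[L] AlgebraicClosure K :=
          IntermediateField.fixingSubgroupEquiv L ⟨τ, hτ⟩
        refine ⟨(e.trans τ').trans e.symm, fun x => ?_⟩
        show e (e.symm (τ' (e x))) = τ (e x)
        rw [AlgEquiv.apply_symm_apply]
        rfl
      have h1 := key σ τ hσ x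
      have h2 := hx σ
      have h3 := chiK_eq_one_iff b σ (e.symm s) (heb' s hs)
      have h4 : σ (e.symm s) = e.symm s ↔ τ s = s := by
        rw [← e.injective.eq_iff, hσ, AlgEquiv.apply_symm_apply]
      show (τ s = s → galHom A τ (Trans_eq A f x) = Trans_eq A f x) ∧
        (τ s ≠ s → galHom A τ (Trans_eq A f x) = -Trans_eq A f x)
      rw [h1, h2]
      constructor
      · intro h5
        rw [h3.2 (h4.2 h5), Units.val_one, one_smul]
      · intro h5
        rw [(Int.units_eq_one_or (chiK b σ)).resolve_left fun h6 => h5 (h4.1 (h3.1 h6)),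
          Units.val_neg, Units.val_one, neg_smul, one_smul, map_neg]
    · intro hy
      refine ⟨(Trans_eq A f).symm y, ?_, (Trans_eq A f).apply_symm_apply y⟩
      intro σ
      obtain ⟨x, hx⟩ : ∃ x, x = (Trans_eq A f).symm y := ⟨_, rfl⟩
      have hxy : y = Trans_eq A f x := by rw [hx, AddEquiv.apply_symm_apply]
      rw [← hx]
      let τ : AlgebraicClosure K ≃ₐ[K] AlgebraicClosure K :=
        ((e.symm.trans σ).trans e).restrictScalars K
      have hτ : τ ∈ L.fixingSubgroup := by
        rw [IntermediateField.mem_fixingSubgroup_iff]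
        intro z hz
        exact ((e.symm.trans σ).trans e).commutes (⟨z, hz⟩ : L)
      have hσ : ∀ x, e (σ x) = τ (e x) := by
        intro x
        show e (σ x) = e (σ (e.symm (e x)))
        rw [AlgEquiv.symm_apply_apply]
      have h1 := key σ τ hσ x
      have h3 := chiK_eq_one_iff b σ (rtK L b) (rtK_sq L b)
      have h4 : σ (rtK L b) = rtK L b ↔ τ (e (rtK L b)) = e (rtK L b) := by
        rw [← e.injective.eq_iff, hσ]
      have h5 := hy τ hτ (e (rtK L b)) (heb _ (rtK_sq L b))
      rw [hxy] at h5
      apply (Trans_eq A f).injective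
      rw [← h1]
      rcases Int.units_eq_one_or (chiK b σ) with h6 | h6
      · rw [h6, Units.val_one, one_smul]
        exact h5.1 (h4.1 (h3.1 h6))
      · rw [h6, Units.val_neg, Units.val_one, neg_smul, one_smul, map_neg]
        refine h5.2 fun h7 => ?_
        rw [h3.2 (h4.2 h7)] at h6
        exact absurd h6 (by decide)
  rw [← hmap]
  exact ((Trans_eq A f).addSubgroupMap (psiPtsO A L (chiK b))).toIntLinearEquiv.rank_eq

theorem psiRkO_eq_twRk {K : Type u} [Field K] [CharZero K] (A : Over (Spec (.of K))) [GrpObj A]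
    [IsAbVar A] (L : IntermediateField K (AlgebraicClosure K)) (b : L) :
    psiRkO A L (chiK b) = twRk A L (b : AlgebraicClosure K) := by
  unfold psiRkO twRk Module.finrank
  rw [psiRank_eq_twRank]

end Pool.Agent.H.MP_ac3185_nt.D14
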