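import Pool.Agent.H.MP_ac3185_nt.D14.Loc
import Pool.Agent.H.MP_ac3185_nt.D14.Hit
import Pool.Agent.H.MP_ac3185_nt.D14.Trans
import Pool.Agent.H.MP_ac3185_nt.D14.Part
import Pool.Agent.H.MP_ac3185_nt.D14.Data

/-! One finite set of classes for all finite extensions: the theorem. -/

set_option autoImplicit false

open CategoryTheory AlgebraicGeometry NumberField IsDedekindDomain
open scoped MonObj

namespace Pool.Agent.H.MP_ac3185_nt.D14

open OE

universe u

variable {K : Type u} [Field K] [CharZero K] {I : Type}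
    (A : I → Over (Spec (.of K))) [∀ i, GrpObj (A i)] [∀ i, IsAbVar (A i)]

/-- The parities and the finiteness of the ranks of the twists over `F` by the products of the
`D (n + j)`. -/
structure FieldData (D : ℕ → K) (F : IntermediateField K (AlgebraicClosure K)) (n : ℕ)
    (α φ : F → I → Prop) (k : F → I → ℕ) : Prop where
  h0 : ∀ j, algebraMap K F (D (n + j)) ≠ 0
  hi : ∀ T : Finset ℕ, T.Nonempty → ∀ y : F, y ^ 2 ≠ ∏ j ∈ T, algebraMap K F (D (n + j))
  hα : ∀ a i, ∀ T : Finset ℕ, T.Nonempty → (∀ j ∈ T, k a i ≤ j) →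
    (Even (psiRkO (A i) F (chiK (∏ j ∈ T, algebraMap K F (D (n + j))) * chiK a)) ↔ α a i)
  hφ : ∀ a i, ∀ T : Finset ℕ, T.Nonempty → (∀ j ∈ T, k a i ≤ j) →
    (Module.rank ℤ (psiPtsO (A i) F (chiK (∏ j ∈ T, algebraMap K F (D (n + j))) * chiK a)) <
      Cardinal.aleph0 ↔ φ a i)

theorem Main_mul (F : IntermediateField K (AlgebraicClosure K)) (i : I) (a : F)
    (ha : a ≠ 0) (z : K) (hz : algebraMap K F z ≠ 0) :
    psiRkO (A i) F (chiK (algebraMap K F z) * chiK a) =
      twRk (A i) F (algebraMap K (AlgebraicClosure K) z * (a : AlgebraicClosure K)) := by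
  rw [← chiK_mul hz ha, psiRkO_eq_twRk]
  rfl

/-- The two cases for a twist over `F`. -/
theorem Main_cases {D : ℕ → K} {F : IntermediateField K (AlgebraicClosure K)} {n : ℕ}
    {α φ : F → I → Prop} {k : F → I → ℕ} (h : FieldData A D F n α φ k) (a : F) (ha : a ≠ 0) (i : I)
    (m : ℕ) (hm : n + k a i ≤ m) :
    Even (twRk (A i) F a + twRk (A i) F (algebraMap K (AlgebraicClosure K) (D m) * a)) ↔
      Bet (fun (i : I) ψ => psiRkO (A i) F ψ) α a i := by
  obtain ⟨j, rfl⟩ : ∃ j, m = n + j := ⟨m - n, by omega⟩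
  have h1 := h.hα a i {j} (Finset.singleton_nonempty j) (fun l hl => by
    rw [Finset.mem_singleton] at hl
    omega)
  rw [Finset.prod_singleton, Main_mul A F i a ha _ (h.h0 j)] at h1
  unfold Bet
  rw [Nat.even_add, h1]
  have h2 : psiRkO (A i) F (chiK a) = twRk (A i) F (a : AlgebraicClosure K) := psiRkO_eq_twRk _ _ _
  show _ ↔ (Even (psiRkO (A i) F (chiK a)) ↔ α a i)
  rw [h2]

theorem Main_fin {D : ℕ → K} {F : IntermediateField K (AlgebraicClosure K)} {n : ℕ}
    {α φ : F → I → Prop} {k : F → I → ℕ} (h : FieldData A D F n α φ k) (a : F) (ha : a ≠ 0) (i : I)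
    (m : ℕ) (hm : n + k a i ≤ m) (hf : φ a i) :
    Module.rank ℤ (twPts (A i) F (algebraMap K (AlgebraicClosure K) (D m) * a)) <
      Cardinal.aleph0 := by
  obtain ⟨j, rfl⟩ : ∃ j, m = n + j := ⟨m - n, by omega⟩
  have h1 := (h.hφ a i {j} (Finset.singleton_nonempty j) (fun l hl => by
    rw [Finset.mem_singleton] at hl
    omega)).2 hf
  rw [Finset.prod_singleton, ← chiK_mul (h.h0 j) ha, psiRank_eq_twRank] at h1
  exact h1

/-- If `a` is not exceptional for `A i` and the ranks are finite, then `Bet` holds. -/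
theorem Main_bet {D : ℕ → K} {F : IntermediateField K (AlgebraicClosure K)} {n : ℕ}
    {α φ : F → I → Prop} {k : F → I → ℕ} (h : FieldData A D F n α φ k) (a : F) (ha : a ≠ 0) (i : I)
    (hb : ¬ OffT (A i) D F a)
    (hf : Module.rank ℤ (psiPtsO (A i) F (chiK a)) < Cardinal.aleph0) (hf' : φ a i) :
    Bet (fun (i : I) ψ => psiRkO (A i) F ψ) α a i := by
  by_contra hcon
  refine hb ⟨n + k a i, fun m hm => ⟨?_, Main_fin A h a ha i m hm hf', fun h' =>
    hcon ((Main_cases A h a ha i m hm).1 h')⟩⟩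
  rw [psiRank_eq_twRank] at hf
  exact hf

/-- The tower over `F` for an element which is not exceptional. -/
theorem Main_tower [Finite I] (X : Set K) (x : ℕ → K) (hx : ∀ j, x j ∈ X) (s : ℕ → Finset ℕ)
    {D : ℕ → K} (hD : ∀ j, D j = ∏ q ∈ s j, x q) {F : IntermediateField K (AlgebraicClosure K)}
    [NumberField F] {n : ℕ} {α φ : F → I → Prop} {k : F → I → ℕ} (h : FieldData A D F n α φ k)
    (a : Fˣ) (hb : ∀ i, ¬ OffT (A i) D F (a : F)) : GoodTower A X F (a : F) := by
  classical
  have _ : Fintype I := Fintype.ofFinite I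
  obtain ⟨l, hl⟩ : ∃ l, ∀ i, k (a : F) i ≤ l := by
    refine ⟨∑ i, k (a : F) i, fun i => ?_⟩
    exact Finset.single_le_sum (f := fun i => k (a : F) i) (fun _ _ => Nat.zero_le _)
      (Finset.mem_univ i)
  obtain ⟨u, hu⟩ : ∃ u : Fˣ, (u : F) = a * algebraMap K F (D (n + l)) :=
    ⟨Units.mk0 ((a : F) * algebraMap K F (D (n + l))) (mul_ne_zero a.ne_zero (h.h0 l)), rfl⟩
  refine tower_of_partner A X x hx (fun j => s (n + j)) F (fun j => algebraMap K F (D (n + j)))
    (fun j => by rw [hD]) h.h0 h.hi α φ k h.hα h.hφ a u ?_ ?_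
  · rintro ⟨z, hz⟩
    have h1 := congrArg (fun t : Fˣ => (t : F)) hz
    simp only [Units.val_mul, hu] at h1
    refine h.hi {l} (Finset.singleton_nonempty l) ((z : F) / (a : F)) ?_
    rw [Finset.prod_singleton, div_pow, div_eq_iff (pow_ne_zero 2 a.ne_zero), sq, ← h1]
    ring
  · intro i hf hf'
    have h2 := Main_bet A h (a : F) a.ne_zero i (hb i) hf hf'
    have h3 := comb_bet (fun (i : I) ψ => psiRkO (A i) F ψ) (fun j => algebraMap K F (D (n + j)))
      α k h.h0 h.hα a.ne_zero i l (hl i)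
    rw [hu]
    exact ⟨fun _ => h3, fun _ => h2⟩

/-- The theorem. -/
theorem all_fields {K : Type u} [Field K] [NumberField K] {I : Type} [Finite I]
    (A : I → Over (Spec (.of K))) [∀ i, GrpObj (A i)] [∀ i, IsAbVar (A i)] (X : Set K)
    (hX : ¬ FiniteDimensional K (sqrtExt X)) :
    ∃ E : Finset Kˣ, E.card < 2 ^ Nat.card I ∧
      ∀ (F : IntermediateField K (AlgebraicClosure K)) [NumberField F],
        ∃ E' : Finset Fˣ, E'.card < 2 ^ Nat.card I ∧ ∀ a : Fˣ,
          ((∀ b ∈ E', ¬ IsSquare (a * b)) → GoodTower A X F (a : F)) ∧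
          ((∀ b ∈ E, ¬ IsSquare (a * Units.map (algebraMap K F).toMonoidHom b)) →
            ∃ (F₁ : IntermediateField K (AlgebraicClosure K)) (h : F ≤ F₁) (_ : NumberField F₁),
              (IsSquare (IntermediateField.inclusion h (a : F)) → IsSquare (a : F)) ∧
              GoodTower A X F₁ (IntermediateField.inclusion h (a : F))) := by
  classical
  have _ : Fintype I := Fintype.ofFinite I
  obtain ⟨x, hx1, hx0, hxi⟩ := exists_indep X hX
  obtain ⟨s, hs1, hs2, hdata⟩ := exists_common (I := I × Bool) x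
    (fun F a i z => cond i.2 (Even (psiRkO (A i.1) F (chiK (algebraMap K F z) * chiK a)))
      (Module.rank ℤ (psiPtsO (A i.1) F (chiK (algebraMap K F z) * chiK a)) < Cardinal.aleph0))
  obtain ⟨D, hDdef⟩ : ∃ D : ℕ → K, ∀ j, D j = ∏ q ∈ s j, x q := ⟨_, fun _ => rfl⟩
  have hD0 : ∀ j, D j ≠ 0 := fun j => by
    rw [hDdef]
    exact Finset.prod_ne_zero_iff.2 fun q _ => hx0 q
  have hDi : ∀ T : Finset ℕ, T.Nonempty → ∀ y : K, y ^ 2 ≠ ∏ j ∈ T, D j := by
    intro T hT y hy
    obtain ⟨j, hj⟩ := hT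
    obtain ⟨q, hq⟩ := hs1 j
    refine hxi (T.biUnion s) ⟨q, Finset.mem_biUnion.2 ⟨j, hj, hq⟩⟩ y ?_
    rw [hy, Finset.prod_biUnion fun j _ k _ hjk => hs2 j k hjk]
    exact Finset.prod_congr rfl fun j _ => hDdef j
  -- the data of the fields
  have hFD : ∀ F : IntermediateField K (AlgebraicClosure K), FiniteDimensional K F →
      ∃ (n : ℕ) (α φ : F → I → Prop) (k : F → I → ℕ), FieldData A D F n α φ k := by
    intro F hF
    obtain ⟨α, k, hα⟩ := hdata F hF
    obtain ⟨n, hn⟩ := exists_shift D hD0 hDi F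
    have himg : ∀ T : Finset ℕ, ∏ j ∈ T, algebraMap K F (D (n + j)) =
        algebraMap K F (∏ j ∈ T.image (fun j => n + j), D j) := by
      intro T
      rw [Finset.prod_image fun j _ j' _ h => Nat.add_left_cancel h, map_prod]
    have hDp : ∀ T : Finset ℕ, ∏ j ∈ T, ∏ q ∈ s j, x q = ∏ j ∈ T, D j :=
      fun T => Finset.prod_congr rfl fun j _ => (hDdef j).symm
    have hk : ∀ (b : Bool) (a : F) (i : I) (T : Finset ℕ),
        (∀ j ∈ T, k a (i, true) + k a (i, false) ≤ j) →
        ∀ j ∈ T.image (fun j => n + j), k a (i, b) ≤ j := by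
      intro b a i T h j hj
      obtain ⟨l, hl, rfl⟩ := Finset.mem_image.1 hj
      have h1 := h l hl
      rcases b with _ | _
      · show k a (i, false) ≤ n + l
        omega
      · show k a (i, true) ≤ n + l
        omega
    refine ⟨n, fun a i => α a (i, true), fun a i => α a (i, false),
      fun a i => k a (i, true) + k a (i, false), fun j => ?_, fun T hT y => ?_,
      fun a i T hT hT' => ?_, fun a i T hT hT' => ?_⟩
    · rw [Ne, map_eq_zero]
      exact hD0 _
    · rw [himg]
      refine hn _ (hT.image _) (fun j hj => ?_) y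
      obtain ⟨l, -, rfl⟩ := Finset.mem_image.1 hj
      exact Nat.le_add_right n l
    · rw [himg]
      have h1 := hα a (i, true) (T.image fun j => n + j) (hT.image _) (hk true a i T hT')
      rw [hDp] at h1
      exact h1
    · rw [himg]
      have h1 := hα a (i, false) (T.image fun j => n + j) (hT.image _) (hk false a i T hT')
      rw [hDp] at h1
      exact h1
  -- the exceptional pairs
  obtain ⟨Bad, hBad⟩ : ∃ Bad : IntermediateField K (AlgebraicClosure K) → AlgebraicClosure K →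
      Prop, ∀ F a, Bad F a ↔ FiniteDimensional K F ∧ a ∈ F ∧ a ≠ 0 ∧
        ∀ F₁ : IntermediateField K (AlgebraicClosure K), F ≤ F₁ → FiniteDimensional K F₁ →
          ((∃ y ∈ F₁, y ^ 2 = a) → ∃ y ∈ F, y ^ 2 = a) → ∃ i, OffT (A i) D F₁ a :=
    ⟨_, fun _ _ => Iff.rfl⟩
  obtain ⟨cl, hcl⟩ : ∃ cl : IntermediateField K (AlgebraicClosure K) → AlgebraicClosure K →
      Set ((AlgebraicClosure K ≃ₐ[K] AlgebraicClosure K) →* ℤˣ), ∀ F a, cl F a =
        {χ | ∃ c : Kˣ, χ = chiK (c : K) ∧
          ∃ y ∈ F, y ^ 2 = a * algebraMap K (AlgebraicClosure K) (c : K)} := ⟨_, fun _ _ => rfl⟩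
  have hpos : 0 < 2 ^ Nat.card I := pow_pos two_pos _
  obtain ⟨H, hH, hhit⟩ := exists_hit (2 ^ Nat.card I - 1) {q | ∃ F a, Bad F a ∧ q = cl F a}
    (by
      rintro _ ⟨F, a, hb, rfl⟩
      rw [hBad] at hb
      have := hb.1
      rw [hcl]
      exact finite_classes F a hb.2.2.1)
    (by
      intro S hS hfin
      have hex : ∀ q : S, ∃ F a, Bad F a ∧ (q : Set _) = cl F a := fun q => hS q.2
      choose F a hb hq using hex
      have _ : Finite S := hfin
      obtain ⟨q, hq2⟩ := fin_bad A D hD0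
        F (fun t => ((hBad _ _).1 (hb t)).1) a (fun t => ((hBad _ _).1 (hb t)).2.1)
        (fun t => ((hBad _ _).1 (hb t)).2.2.1) (fun t => ((hBad _ _).1 (hb t)).2.2.2)
      refine ⟨((Finset.univ : Finset (Finset I)).erase ∅).image
        (fun J => chiK (∏ i ∈ J, (q i : K))), ?_, ?_⟩
      · refine Finset.card_image_le.trans ?_
        rw [Finset.card_erase_of_mem (Finset.mem_univ _), Finset.card_univ, Fintype.card_finset,
          ← Nat.card_eq_fintype_card]
      · intro t ht
        obtain ⟨J, hJ, y, hy, hy2⟩ := hq2 ⟨t, ht⟩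
        refine ⟨chiK (∏ i ∈ J, (q i : K)), Finset.mem_image_of_mem _ ?_, ?_⟩
        · rw [Finset.mem_erase]
          exact ⟨hJ.ne_empty, Finset.mem_univ _⟩
        · rw [show t = cl _ _ from hq ⟨t, ht⟩, hcl]
          refine ⟨∏ i ∈ J, q i, ?_, y, hy, ?_⟩
          · rw [Units.coe_prod]
          · rw [hy2, Units.coe_prod])
  have hrep : ∀ χ : (AlgebraicClosure K ≃ₐ[K] AlgebraicClosure K) →* ℤˣ, ∃ b : Kˣ,
      (∃ c : Kˣ, χ = chiK (c : K)) → χ = chiK (b : K) := by
    intro χ
    by_cases h : ∃ c : Kˣ, χ = chiK (c : K)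
    · obtain ⟨c, hc⟩ := h
      exact ⟨c, fun _ => hc⟩
    · exact ⟨1, fun h' => absurd h' h⟩
  choose rep hrep using hrep
  refine ⟨H.image rep, ?_, ?_⟩
  · have h1 := Finset.card_image_le (s := H) (f := rep)
    omega
  · intro F hF
    have hFK : FiniteDimensional K F := Module.Finite.of_restrictScalars_finite ℚ K F
    obtain ⟨n, α, φ, k, hFd⟩ := hFD F hFK
    obtain ⟨E', hE', hpart⟩ := exists_partner (fun (i : I) ψ => psiRkO (A i) F ψ)
      (fun j => algebraMap K F (D (n + j))) α k hFd.h0 hFd.hi hFd.hα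
    refine ⟨E', hE', fun a => ⟨fun ha => ?_, fun ha => ?_⟩⟩
    · obtain ⟨a', ha', hbet⟩ := hpart a ha
      exact tower_of_partner A X x hx1 (fun j => s (n + j)) F
        (fun j => algebraMap K F (D (n + j))) (fun j => by rw [hDdef]) hFd.h0 hFd.hi α φ k hFd.hα
        hFd.hφ a a' ha' fun i _ _ => hbet i
    · -- the pair is not exceptional
      have hnb : ¬ Bad F ((a : F) : AlgebraicClosure K) := by
        intro hb
        obtain ⟨χ, hχ, hχ2⟩ := hhit (cl F ((a : F) : AlgebraicClosure K)) ⟨F, _, hb, rfl⟩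
        rw [hcl] at hχ2
        obtain ⟨c, hc, y, hy, hy2⟩ := hχ2
        have h1 := hrep χ ⟨c, hc⟩
        have h2 : chiK ((rep χ : K) * (c : K)) = 1 := by
          rw [chiK_mul (rep χ).ne_zero c.ne_zero, ← h1, ← hc]
          exact Chi_self_mul _
        obtain ⟨w, hw⟩ := isSquare_of_chiK h2
        refine ha (rep χ) (Finset.mem_image_of_mem rep hχ) ?_
        have hyF : (⟨y, hy⟩ : F) ^ 2 = (a : F) * algebraMap K F (c : K) := by
          apply Subtype.ext
          exact hy2
        have hw0 : (⟨y, hy⟩ : F) * algebraMap K F w / algebraMap K F (c : K) ≠ 0 := by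
          intro h0
          have h3 : ((⟨y, hy⟩ : F) * algebraMap K F w / algebraMap K F (c : K)) ^ 2 = 0 := by
            rw [h0, zero_pow two_ne_zero]
          rw [div_pow, mul_pow, hyF, ← map_pow, hw, div_eq_zero_iff, mul_eq_zero, mul_eq_zero] at h3
          have hc0 : algebraMap K F (c : K) ≠ 0 := by
            rw [Ne, map_eq_zero]
            exact c.ne_zero
          have hr0 : algebraMap K F ((rep χ : K) * (c : K)) ≠ 0 := by
            rw [Ne, map_eq_zero]
            exact mul_ne_zero (rep χ).ne_zero c.ne_zero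
          rcases h3 with ((h3 | h3) | h3) | h3
          · exact a.ne_zero h3
          · exact hc0 h3
          · exact hr0 h3
          · exact hc0 (pow_eq_zero_iff two_ne_zero |>.1 h3)
        refine ⟨Units.mk0 _ hw0, Units.ext ?_⟩
        have hc0 : algebraMap K F (c : K) ≠ 0 := by
          rw [Ne, map_eq_zero]
          exact c.ne_zero
        rw [Units.val_mul, Units.val_mul, Units.val_mk0, ← sq, div_pow, mul_pow, hyF, ← map_pow, hw,
          eq_div_iff (pow_ne_zero 2 hc0)]
        show (a : F) * algebraMap K F (rep χ : K) * algebraMap K F (c : K) ^ 2 = _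
        rw [map_mul]
        ring
      rw [hBad] at hnb
      push Not at hnb
      obtain ⟨F₁, hF₁, hfd, hsq, hbet⟩ := hnb hFK (a : F).2
        (fun h0 => a.ne_zero (Subtype.ext h0))
      have hQ : FiniteDimensional ℚ F₁ := Module.Finite.trans K F₁
      have hnf : NumberField F₁ := { to_charZero := inferInstance, to_finiteDimensional := hQ }
      obtain ⟨n₁, α₁, φ₁, k₁, hFd₁⟩ := hFD F₁ hfd
      refine ⟨F₁, hF₁, hnf, ?_, ?_⟩
      · rintro ⟨y, hy⟩
        obtain ⟨w, hw, hw2⟩ := hsq ⟨(y : AlgebraicClosure K), y.2, by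
          have h1 := congrArg (fun t : F₁ => (t : AlgebraicClosure K)) hy
          rw [sq]
          exact h1.symm⟩
        refine ⟨⟨w, hw⟩, ?_⟩
        apply Subtype.ext
        rw [sq] at hw2
        exact hw2.symm
      · exact Main_tower A X x hx1 s hDdef hFd₁
          (Units.map (IntermediateField.inclusion hF₁ : F →* F₁) a) hbet

end Pool.Agent.H.MP_ac3185_nt.D14
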