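import Pool.Agent.H.MP_ac3185_nt.D14.FD

/-! The fields over which the twists are good. -/

set_option autoImplicit false

open CategoryTheory AlgebraicGeometry NumberField IsDedekindDomain
open scoped MonObj

namespace Pool.Agent.H.MP_ac3185_nt.D14

open OE

universe u

variable {K : Type u} [Field K] [NumberField K] {I : Type}
    (A : I → Over (Spec (.of K))) [∀ i, GrpObj (A i)] [∀ i, IsAbVar (A i)]

/-- An index from which on the products are good at the bad places of `B`. -/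
theorem Tow_index {D : ℕ → K} {F : IntermediateField K (AlgebraicClosure K)} [NumberField F] {n : ℕ}
    (h : FieldLoc D F n) (B : Over (Spec (.of F))) [GrpObj B] [IsAbVar B] :
    ∃ (N m : ℕ), GoodOutside B N ∧ ∀ T : Finset ℕ, T.Nonempty → (∀ j ∈ T, m ≤ j) →
      QF.TotPos (∏ j ∈ T, algebraMap K F (D (n + j))) ∧
      ∀ v : HeightOneSpectrum (𝓞 F), ((2 * N : ℕ) : 𝓞 F) ∈ v.asIdeal →
        KT.LocSq v (∏ j ∈ T, algebraMap K F (D (n + j))) := by
  classical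
  obtain ⟨N, hN, hgood⟩ := gc_good B
  have hfin := QF.places_finite (K := F) (m := 2 * N) (by omega)
  choose m hm using h.hloc
  obtain ⟨m₀, hm₀⟩ := h.hpos
  refine ⟨N, m₀ + ∑ v ∈ hfin.toFinset, m v, hgood, fun T hT hj => ⟨?_, fun v hv => ?_⟩⟩
  · exact hm₀ T hT fun j hj' => (Nat.le_add_right _ _).trans (hj j hj')
  · refine hm v T hT fun j hj' => ?_
    have h1 := Finset.single_le_sum (f := m) (fun _ _ => Nat.zero_le _)
      (hfin.mem_toFinset.2 hv)
    exact (h1.trans (Nat.le_add_left _ _)).trans (hj j hj')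

/-- A square root in `M` of a product of the `D' j`. -/
theorem Tow_root {F : Type u} [Field F] [CharZero F] (D' : ℕ → F) (hD0 : ∀ j, D' j ≠ 0) (N : ℕ)
    (M : IntermediateField F (AlgebraicClosure F)) [FiniteDimensional F M]
    (hM : M ⊓ sqrtExt (insert 1 {z | ∃ j, N ≤ j ∧ z = D' j}) ≠ ⊥) :
    ∃ T : Finset ℕ, T.Nonempty ∧ (∀ j ∈ T, N ≤ j) ∧ (∀ y : F, y ^ 2 ≠ ∏ j ∈ T, D' j) ∧
      rtK F (∏ j ∈ T, D' j) ∈ M := by
  obtain ⟨e, t, ht, he, hes, heM⟩ := exists_root_inf _ (by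
    intro b hb
    rcases hb with h | ⟨j, -, h⟩
    · rw [h]
      exact one_ne_zero
    · rw [h]
      exact hD0 j) M hM
  obtain ⟨T, hT, hprod⟩ := prod_split D' N 1 t ht
  rw [one_mul, or_self] at hprod
  have heT : e = ∏ j ∈ T, D' j := he.trans hprod
  refine ⟨T, ?_, hT, ?_, ?_⟩
  · by_contra hcon
    rw [Finset.not_nonempty_iff_eq_empty] at hcon
    rw [hcon, Finset.prod_empty] at heT
    exact hes 1 (by rw [heT, one_pow])
  · rw [← heT]
    exact hes
  · rw [← heT]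
    exact heM

theorem Tow_far {F : Type u} [Field F] [CharZero F] (D' : ℕ → F) (hD0 : ∀ j, D' j ≠ 0)
    (hDi : ∀ T : Finset ℕ, T.Nonempty → ∀ y : F, y ^ 2 ≠ ∏ j ∈ T, D' j) (c : F)
    (hcs : ∀ y : F, y ^ 2 ≠ c) :
    ∃ N : ℕ, ∀ T : Finset ℕ, (∀ j ∈ T, N ≤ j) → chiK c ≠ chiK (∏ j ∈ T, D' j) := by
  classical
  by_cases hex : ∃ T₁ : Finset ℕ, chiK c = chiK (∏ j ∈ T₁, D' j)
  · obtain ⟨T₁, hT₁⟩ := hex
    refine ⟨T₁.sup id + 1, fun T hT hcT => ?_⟩
    have hTT : T = T₁ := by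
      by_contra hne
      have hs : (symmDiff T T₁).Nonempty := by
        rw [Finset.nonempty_iff_ne_empty]
        intro h
        exact hne (symmDiff_eq_bot.1 h)
      refine FD_chi_ne (hDi _ hs) ?_
      rw [chiK_prod _ D' (fun j _ => hD0 j), ← FD_symm (fun j => chiK (D' j))
        (fun j => Chi_self_mul _) T T₁, ← chiK_prod T D' (fun j _ => hD0 j),
        ← chiK_prod T₁ D' (fun j _ => hD0 j), ← hcT, ← hT₁]
      exact Chi_self_mul _
    rcases T₁.eq_empty_or_nonempty with h0 | ⟨j, hj⟩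
    · rw [h0, Finset.prod_empty, chiK_one] at hT₁
      exact FD_chi_ne hcs hT₁
    · have h1 : j ≤ T₁.sup id := Finset.le_sup (f := id) hj
      have h2 := hT j (hTT ▸ hj)
      omega
  · push Not at hex
    exact ⟨0, fun T _ => hex T⟩

/-- The element with a partner. -/
theorem good_c {D : ℕ → K} {F : IntermediateField K (AlgebraicClosure K)} [NumberField F] {n : ℕ}
    {α φ : F → I → Prop} {κ : F → I → ℕ} (h : FieldData A D F n α φ κ) (hl : FieldLoc D F n)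
    (i : I) (a a' c : F) (ha : a ≠ 0) (ha' : a' ≠ 0) (hc : c = a * a') (hcs : ∀ y : F, y ^ 2 ≠ c)
    (hbet : Bet (fun (i : I) ψ => psiRkO (A i) F ψ) α a i ↔
      Bet (fun (i : I) ψ => psiRkO (A i) F ψ) α a' i) : GoodTail (A i) D F c a := by
  classical
  intro B _ _ hAB
  obtain ⟨N₀, m₀, hgood, hm₀⟩ := Tow_index hl B
  obtain ⟨D', hD'⟩ : ∃ D' : ℕ → F, ∀ j, D' j = algebraMap K F (D (n + j)) := ⟨_, fun _ => rfl⟩
  have hDe : ∀ T : Finset ℕ, ∏ j ∈ T, D' j = ∏ j ∈ T, algebraMap K F (D (n + j)) :=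
    fun T => Finset.prod_congr rfl fun j _ => hD' j
  have hD0 : ∀ j, D' j ≠ 0 := fun j => by rw [hD']; exact h.h0 j
  -- the index
  obtain ⟨N, hN, hN', hNm, hNc⟩ : ∃ N, κ a i ≤ N ∧ κ a' i ≤ N ∧ m₀ ≤ N ∧
      ∀ T : Finset ℕ, (∀ j ∈ T, N ≤ j) → chiK c ≠ chiK (∏ j ∈ T, D' j) := by
    obtain ⟨N₁, hN₁⟩ := Tow_far D' hD0 (fun T hT y => by
      rw [hDe]
      exact h.hi T hT y) c hcs
    exact ⟨N₁ + κ a i + κ a' i + m₀, by omega, by omega, by omega, fun T hT =>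
      hN₁ T fun j hj => by
        have := hT j hj
        omega⟩
  refine ⟨n + N, ?_⟩
  intro M hfd hcM hMT hM
  obtain ⟨y₀, hy₀M, hy₀⟩ := hcM
  obtain ⟨Z, hZ⟩ : ∃ Z : Set F, Z = insert c {z | ∃ j, N ≤ j ∧ z = D' j} := ⟨_, rfl⟩
  have htail : ∀ c' : F, tailField D (n + N) F c' =
      sqrtExt (insert c' {z | ∃ j, N ≤ j ∧ z = D' j}) := by
    intro c'
    unfold tailField
    rw [FD_set]
    simp only [hD']
  rw [htail] at hMT
  rw [htail, ← hZ] at hM
  have hDi : ∀ T : Finset ℕ, T.Nonempty → ∀ y : F, y ^ 2 ≠ ∏ j ∈ T, D' j := by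
    intro T hT y
    rw [hDe]
    exact h.hi T hT y
  have hα : ∀ a i, ∀ T : Finset ℕ, T.Nonempty → (∀ j ∈ T, κ a i ≤ j) →
      (Even (psiRkO (A i) F (chiK (∏ j ∈ T, D' j) * chiK a)) ↔ α a i) := by
    intro a i T hT hj
    rw [hDe]
    exact h.hα a i T hT hj
  have hc0 : c ≠ 0 := FD_ne hcs
  have hchic : chiK c ≠ 1 := FD_chi_ne hcs
  have hZ0 : ∀ b ∈ Z, b ≠ 0 := by
    intro b hb
    rw [hZ] at hb
    rcases hb with h | ⟨j, -, h⟩
    · rw [h]
      exact hc0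
    · rw [h]
      exact hD0 j
  have hFT : AboveTower (sqrtExt Z) M := by
    rcases hM with hM | hM
    · exact tow_above Z M hM c y₀ hy₀M hy₀ hcs
    · exact hM
  have hgal : IsGalois F M := hFT.2.1
  obtain ⟨T₀, hT₀, hT₀N, hT₀s, hT₀M⟩ := Tow_root D' hD0 N M hMT
  obtain ⟨hpos, hloc⟩ := hm₀ T₀ hT₀ fun j hj => hNm.trans (hT₀N j hj)
  rw [← hDe] at hpos
  refine ⟨fun W hW g => ?_, ?_⟩
  · refine sign_of_root B hgood W hW g M _ hT₀s hT₀M hpos fun v hv => ?_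
    rw [hDe]
    exact hloc v hv
  · refine rankO_even (A i) B a hAB Z hZ0 M hFT c y₀ hy₀M hy₀ hchic (∏ j ∈ T₀, D' j) _
      hT₀M (rtK_sq F _) (FD_chi_ne hT₀s) (hNc T₀ hT₀N)
      (psiRkO (A i) F (chiK a) + psiRkO (A i) F (chiK a')) ?_
    intro t ht
    rw [hZ] at ht
    obtain ⟨T, hT, hprod⟩ := prod_split D' N c t ht
    have hsum := comb_sum (fun (i : I) ψ => psiRkO (A i) F ψ) D' α κ hα a a' i
      hbet T (fun j hj => hN.trans (hT j hj)) (fun j hj => hN'.trans (hT j hj))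
    have hD1 : ∏ j ∈ T, D' j ≠ 0 := Finset.prod_ne_zero_iff.2 fun j _ => hD0 j
    have hcc : chiK c = chiK a * chiK a' := by
      rw [hc, chiK_mul ha ha']
    have hca : chiK c * chiK a = chiK a' := by
      rw [hcc, mul_comm (chiK a), mul_assoc, Chi_self_mul, mul_one]
    rcases hprod with h | h
    · rw [h, mul_assoc _ (chiK c), hca]
      exact hsum
    · rw [h, chiK_mul hc0 hD1, mul_comm (chiK c) (chiK (∏ j ∈ T, D' j)),
        mul_assoc _ (chiK c) (chiK c), Chi_self_mul, mul_one, mul_assoc _ (chiK c), hca,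
        add_comm]
      exact hsum

/-- The element which is not exceptional. -/
theorem good_pure {D : ℕ → K} {F : IntermediateField K (AlgebraicClosure K)} [NumberField F] {n : ℕ}
    {α φ : F → I → Prop} {κ : F → I → ℕ} (h : FieldData A D F n α φ κ) (hl : FieldLoc D F n)
    (i : I) (a : F)
    (hbet : Module.rank ℤ (psiPtsO (A i) F (chiK a)) < Cardinal.aleph0 → φ a i →
      Bet (fun (i : I) ψ => psiRkO (A i) F ψ) α a i) : GoodTail (A i) D F 1 a := by
  classical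
  intro B _ _ hAB
  obtain ⟨N₀, m₀, hgood, hm₀⟩ := Tow_index hl B
  obtain ⟨D', hD'⟩ : ∃ D' : ℕ → F, ∀ j, D' j = algebraMap K F (D (n + j)) := ⟨_, fun _ => rfl⟩
  have hDe : ∀ T : Finset ℕ, ∏ j ∈ T, D' j = ∏ j ∈ T, algebraMap K F (D (n + j)) :=
    fun T => Finset.prod_congr rfl fun j _ => hD' j
  have hD0 : ∀ j, D' j ≠ 0 := fun j => by rw [hD']; exact h.h0 j
  obtain ⟨N, hN, hNm⟩ : ∃ N, κ a i ≤ N ∧ m₀ ≤ N := ⟨_, le_max_left _ _, le_max_right _ _⟩
  refine ⟨n + N, ?_⟩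
  intro M hfd _ hMT hM
  obtain ⟨Z, hZ⟩ : ∃ Z : Set F, Z = insert 1 {z | ∃ j, N ≤ j ∧ z = D' j} := ⟨_, rfl⟩
  have htail : tailField D (n + N) F (1 : F) = sqrtExt Z := by
    unfold tailField
    rw [FD_set, hZ]
    simp only [hD']
  rw [htail] at hMT hM
  have hα : ∀ a i, ∀ T : Finset ℕ, T.Nonempty → (∀ j ∈ T, κ a i ≤ j) →
      (Even (psiRkO (A i) F (chiK (∏ j ∈ T, D' j) * chiK a)) ↔ α a i) := by
    intro a i T hT hj
    rw [hDe]
    exact h.hα a i T hT hj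
  have hφ : ∀ a i, ∀ T : Finset ℕ, T.Nonempty → (∀ j ∈ T, κ a i ≤ j) →
      (Module.rank ℤ (psiPtsO (A i) F (chiK (∏ j ∈ T, D' j) * chiK a)) < Cardinal.aleph0 ↔
        φ a i) := by
    intro a i T hT hj
    rw [hDe]
    exact h.hφ a i T hT hj
  have hZ0 : ∀ b ∈ Z, b ≠ 0 := by
    intro b hb
    rw [hZ] at hb
    rcases hb with h | ⟨j, -, h⟩
    · rw [h]
      exact one_ne_zero
    · rw [h]
      exact hD0 j
  rw [hZ] at hMT
  obtain ⟨T₀, hT₀, hT₀N, hT₀s, hT₀M⟩ := Tow_root D' hD0 N M hMT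
  obtain ⟨hpos, hloc⟩ := hm₀ T₀ hT₀ fun j hj => hNm.trans (hT₀N j hj)
  rw [← hDe] at hpos
  have hFT : AboveTower (sqrtExt Z) M := by
    rcases hM with hM | hM
    · exact tow_above Z M hM _ _ hT₀M (rtK_sq F _) hT₀s
    · exact hM
  have hgal : IsGalois F M := hFT.2.1
  refine ⟨fun W hW g => ?_, ?_⟩
  · refine sign_of_root B hgood W hW g M _ hT₀s hT₀M hpos fun v hv => ?_
    rw [hDe]
    exact hloc v hv
  · rcases lt_or_ge (Module.rank ℤ (Pts B M)) Cardinal.aleph0 with hfr | hfr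
    swap
    · have h2 := gt_even_infinite _ hfr 0
      rwa [Nat.cast_zero, add_zero] at h2
    have hsplit : ∀ t : Finset F, (∀ b ∈ t, b ∈ Z) → ∃ T : Finset ℕ, (∀ j ∈ T, N ≤ j) ∧
        ∏ b ∈ t, b = ∏ j ∈ T, D' j := by
      intro t ht
      rw [hZ] at ht
      obtain ⟨T, hT, hprod⟩ := prod_split D' N 1 t ht
      rw [one_mul, or_self] at hprod
      exact ⟨T, hT, hprod⟩
    -- the finite ranks
    have hfin1 : Module.rank ℤ (psiPtsO (A i) F (chiK a)) < Cardinal.aleph0 := by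
      refine lt_of_le_of_lt (FD_le (A i) B a hAB M 1 _ fun σ => ?_) hfr
      rw [MonoidHom.one_apply, one_mul]
    have hfin2 : φ a i := by
      obtain ⟨ε, hε⟩ := epsK M (∏ j ∈ T₀, D' j) _ hT₀M (rtK_sq F _)
      refine (hφ a i T₀ hT₀ fun j hj => hN.trans (hT₀N j hj)).1 ?_
      refine lt_of_le_of_lt (FD_le (A i) B a hAB M ε _ fun σ => ?_) hfr
      rw [hε σ, MonoidHom.mul_apply]
    have hb := hbet hfin1 hfin2
    -- all parities are equal
    have hall : ∀ T : Finset ℕ, (∀ j ∈ T, N ≤ j) →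
        (Even (psiRkO (A i) F (chiK (∏ j ∈ T, D' j) * chiK a)) ↔ α a i) := by
      intro T hT
      rcases T.eq_empty_or_nonempty with h4 | h4
      · rw [h4, Finset.prod_empty, chiK_one, one_mul]
        exact hb
      · exact hα a i T h4 fun j hj => hN.trans (hT j hj)
    refine rankO_even0 (A i) B a hAB Z hZ0 M hFT _ _ hT₀M (rtK_sq F _) (FD_chi_ne hT₀s) ?_
    intro t ht
    obtain ⟨T, hT, hprod⟩ := hsplit t ht
    have h1 := hall T hT
    have h2 := hall (symmDiff T T₀) (fun j hj => by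
      rcases Finset.mem_symmDiff.1 hj with h3 | h3
      · exact hT j h3.1
      · exact hT₀N j h3.1)
    have h3 : chiK (∏ j ∈ T, D' j) * chiK (∏ j ∈ T₀, D' j) = chiK (∏ j ∈ symmDiff T T₀, D' j) := by
      rw [chiK_prod T D' (fun j _ => hD0 j), chiK_prod T₀ D' (fun j _ => hD0 j),
        chiK_prod _ D' (fun j _ => hD0 j)]
      exact FD_symm (fun j => chiK (D' j)) (fun j => Chi_self_mul _) T T₀
    rw [hprod, h3]
    rw [← h2] at h1
    show _ % 2 = _ % 2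
    simp only [Nat.even_iff] at h1
    omega

end Pool.Agent.H.MP_ac3185_nt.D14
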