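import Pool.Agent.H.MP_ac3185_nt.D14.Core
import Pool.Agent.H.MP_ac3185_nt.D14.Common

/-! One sequence for all abelian varieties over all finite extensions: the theorem. -/

set_option autoImplicit false

open CategoryTheory AlgebraicGeometry NumberField IsDedekindDomain
open scoped MonObj

namespace Pool.Agent.H.MP_ac3185_nt.D14

open OE

universe u

/-- The rank over `F` of the twist by `z a` is even. -/
def Univ_par {K : Type u} [Field K] [CharZero K] (A : Over (Spec (.of K))) [GrpObj A] [IsAbVar A]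
    (F : IntermediateField K (AlgebraicClosure K)) (a : F) (z : K) : Prop :=
  Even (psiRkO A F (chiK (algebraMap K F z) * chiK a))

/-- The rank over `F` of the twist by `z a` is finite. -/
def Univ_fin {K : Type u} [Field K] [CharZero K] (A : Over (Spec (.of K))) [GrpObj A] [IsAbVar A]
    (F : IntermediateField K (AlgebraicClosure K)) (a : F) (z : K) : Prop :=
  Module.rank ℤ (psiPtsO A F (chiK (algebraMap K F z) * chiK a)) < Cardinal.aleph0

theorem Univ_data {K : Type u} [Field K] [CharZero K] {J : Type} (A : J → Over (Spec (.of K)))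
    [∀ i, GrpObj (A i)] [∀ i, IsAbVar (A i)] (D : ℕ → K) (hD0 : ∀ j, D j ≠ 0)
    (F : IntermediateField K (AlgebraicClosure K)) (n : ℕ)
    (hn : ∀ T : Finset ℕ, T.Nonempty → (∀ j ∈ T, n ≤ j) →
      ∀ y : F, y ^ 2 ≠ algebraMap K F (∏ j ∈ T, D j))
    (α φ : F → J → Prop) (κ₁ κ₂ : F → J → ℕ)
    (h1 : ∀ a i, ∀ T : Finset ℕ, T.Nonempty → (∀ j ∈ T, κ₁ a i ≤ j) →
      (Univ_par (A i) F a (∏ j ∈ T, D j) ↔ α a i))
    (h2 : ∀ a i, ∀ T : Finset ℕ, T.Nonempty → (∀ j ∈ T, κ₂ a i ≤ j) →
      (Univ_fin (A i) F a (∏ j ∈ T, D j) ↔ φ a i)) :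
    FieldData A D F n α φ (fun a i => κ₁ a i + κ₂ a i) := by
  classical
  have himg : ∀ T : Finset ℕ, ∏ j ∈ T, algebraMap K F (D (n + j)) =
      algebraMap K F (∏ j ∈ T.image (fun j => n + j), D j) := by
    intro T
    rw [Finset.prod_image fun j _ j' _ h => Nat.add_left_cancel h, map_prod]
  have hk : ∀ (k : ℕ) (T : Finset ℕ), (∀ j ∈ T, k ≤ j) →
      ∀ j ∈ T.image (fun j => n + j), k ≤ j := by
    intro k T h j hj
    obtain ⟨l, hl, rfl⟩ := Finset.mem_image.1 hj
    have h1 := h l hl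
    show k ≤ n + l
    omega
  refine ⟨fun j => ?_, fun T hT y => ?_, fun a i T hT hT' => ?_, fun a i T hT hT' => ?_⟩
  · rw [Ne, map_eq_zero]
    exact hD0 _
  · rw [himg]
    refine hn _ (hT.image _) (fun j hj => ?_) y
    obtain ⟨l, -, rfl⟩ := Finset.mem_image.1 hj
    exact Nat.le_add_right n l
  · rw [himg]
    exact h1 a i _ (hT.image _) (hk _ T fun j hj => (Nat.le_add_right _ _).trans (hT' j hj))
  · rw [himg]
    exact h2 a i _ (hT.image _) (hk _ T fun j hj => (Nat.le_add_left _ _).trans (hT' j hj))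

/-- The local conditions for `z`: `LocSq` at the place with the number `m`, or positivity at the real
places. -/
def Univ_loc {K : Type u} [Field K] (F : IntermediateField K (AlgebraicClosure K))
    (f : ℕ → Option (HeightOneSpectrum (𝓞 F))) (m : Option ℕ) (z : K) : Prop :=
  match m with
  | none => QF.TotPos (algebraMap K F z)
  | some m => ∀ v, f m = some v → KT.LocSq v (algebraMap K F z)

theorem Univ_locdata {K : Type u} [Field K] [NumberField K] (D : ℕ → K) (hD0 : ∀ j, D j ≠ 0)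
    (F : IntermediateField K (AlgebraicClosure K)) [NumberField F] (n : ℕ)
    (f : ℕ → Option (HeightOneSpectrum (𝓞 F))) (hf : ∀ v, ∃ m, f m = some v)
    (val : Option ℕ → Prop)
    (κ : Option ℕ → ℕ)
    (h : ∀ m, ∀ T : Finset ℕ, T.Nonempty → (∀ j ∈ T, κ m ≤ j) →
      (Univ_loc F f m (∏ j ∈ T, D j) ↔ val m)) :
    FieldLoc D F n := by
  classical
  have himg : ∀ T : Finset ℕ, ∏ j ∈ T, algebraMap K F (D (n + j)) =
      algebraMap K F (∏ j ∈ T.image (fun j => n + j), D j) := by
    intro T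
    rw [Finset.prod_image fun j _ j' _ h => Nat.add_left_cancel h, map_prod]
  have hk : ∀ (k : ℕ) (T : Finset ℕ), (∀ j ∈ T, k ≤ j) →
      ∀ j ∈ T.image (fun j => n + j), k ≤ j := by
    intro k T h j hj
    obtain ⟨l, hl, rfl⟩ := Finset.mem_image.1 hj
    have h1 := h l hl
    show k ≤ n + l
    omega
  have h0 : ∀ j, algebraMap K F (D (n + j)) ≠ 0 := fun j => by
    rw [Ne, map_eq_zero]
    exact hD0 _
  refine ⟨fun v => ?_, ?_⟩
  · obtain ⟨m, hm⟩ := hf v
    refine ⟨κ (some m), locSq_tail _ h0 _ _ (val (some m)) fun T hT hj => ?_⟩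
    rw [himg, ← h (some m) _ (hT.image _) (hk _ T hj)]
    constructor
    · intro h1 v' hv'
      rw [hm, Option.some_inj] at hv'
      rw [← hv']
      exact h1
    · intro h1
      exact h1 v hm
  · refine ⟨κ none, totPos_tail _ h0 _ (val none) fun T hT hj => ?_⟩
    rw [himg]
    exact h none _ (hT.image _) (hk _ T hj)

theorem Univ_shift {K k F : Type u} [Field K] [CharZero K] [Field k] [Field F] [Algebra K k]
    [Algebra k F] [FiniteDimensional K k] [FiniteDimensional k F] (D : ℕ → K)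
    (hD0 : ∀ j, D j ≠ 0)
    (hDi : ∀ T : Finset ℕ, T.Nonempty → ∀ y : K, y ^ 2 ≠ ∏ j ∈ T, D j) :
    ∃ n : ℕ, ∀ T : Finset ℕ, T.Nonempty → (∀ j ∈ T, n ≤ j) →
      ∀ y : F, y ^ 2 ≠ algebraMap k F (∏ j ∈ T, algebraMap K k (D j)) := by
  let _ : Algebra K F := ((algebraMap k F).comp (algebraMap K k)).toAlgebra
  have _ : IsScalarTower K k F := IsScalarTower.of_algebraMap_eq fun _ => rfl
  have _ : FiniteDimensional K F := Module.Finite.trans k F
  obtain ⟨n, hn⟩ := exists_shift2 D hD0 hDi F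
  refine ⟨n, fun T hT h y => ?_⟩
  rw [← map_prod]
  exact hn T hT h y

/-- The theorem. -/
theorem universal {K : Type u} [Field K] [NumberField K] {I : Type} [Countable I]
    (A : ∀ k : IntermediateField K (AlgebraicClosure K), I → Over (Spec (.of k)))
    [∀ k i, GrpObj (A k i)] [∀ k i, IsAbVar (A k i)] (X : Set K)
    (hX : ¬ FiniteDimensional K (sqrtExt X)) :
    ∃ S : ℕ → Finset K, (∀ j, (S j : Set K) ⊆ X) ∧ (∀ i j, i ≠ j → Disjoint (S i) (S j)) ∧
      (∀ T : Finset ℕ, T.Nonempty → ¬ IsSquare (∏ j ∈ T, ∏ b ∈ S j, b)) ∧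
      ∀ (k : IntermediateField K (AlgebraicClosure K)) [NumberField k] (J : Finset I),
        ∃ E : Finset kˣ, E.card < 2 ^ J.card ∧
          ∀ (F : IntermediateField k (AlgebraicClosure k)) [NumberField F],
            ∃ E' : Finset Fˣ, E'.card < 2 ^ J.card ∧ ∀ a : Fˣ,
              (∀ i ∈ J, GoodTail (A k i) (fun j => algebraMap K k (∏ b ∈ S j, b)) F 1 (a : F) ∨
                BadTail (A k i) (fun j => algebraMap K k (∏ b ∈ S j, b)) F (a : F)) ∧
              ((∀ b ∈ E', ¬ IsSquare (a * b)) → ∃ c : Fˣ, ∀ i ∈ J,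
                GoodTail (A k i) (fun j => algebraMap K k (∏ b ∈ S j, b)) F (c : F) (a : F)) ∧
              ((∀ b ∈ E, ¬ IsSquare (a * Units.map (algebraMap k F).toMonoidHom b)) →
                ∃ (F₁ : IntermediateField k (AlgebraicClosure k)) (h : F ≤ F₁)
                  (_ : NumberField F₁),
                  (IsSquare (IntermediateField.inclusion h (a : F)) → IsSquare (a : F)) ∧
                  ∀ i ∈ J, GoodTail (A k i) (fun j => algebraMap K k (∏ b ∈ S j, b)) F₁ 1
                    (IntermediateField.inclusion h (a : F))) := by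
  classical
  obtain ⟨x, hx1, hx0, hxi⟩ := exists_indep X hX
  -- the places
  have hen : ∀ (k : IntermediateField K (AlgebraicClosure K))
      (F : IntermediateField k (AlgebraicClosure k)),
      ∃ f : ℕ → Option (HeightOneSpectrum (𝓞 F)), NumberField F → ∀ v, ∃ m, f m = some v := by
    intro k F
    by_cases hF : NumberField F
    · obtain ⟨g, hg⟩ := exists_enum F
      refine ⟨fun m => some (g m), fun _ v => ?_⟩
      obtain ⟨m, hm⟩ := hg v
      exact ⟨m, congrArg some hm⟩
    · exact ⟨fun _ => none, fun h => absurd h hF⟩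
  choose en hen using hen
  obtain ⟨P, hP1, hP2, hP3⟩ : ∃ P : ∀ (k : IntermediateField K (AlgebraicClosure K))
      (F : IntermediateField k (AlgebraicClosure k)), F → I × Bool ⊕ Option ℕ → K → Prop,
      (∀ k F a i z, P k F a (Sum.inl (i, true)) z ↔ Univ_par (A k i) F a (algebraMap K k z)) ∧
      (∀ k F a i z, P k F a (Sum.inl (i, false)) z ↔ Univ_fin (A k i) F a (algebraMap K k z)) ∧
      ∀ k F a m z, P k F a (Sum.inr m) z ↔ Univ_loc F (en k F) m (algebraMap K k z) :=
    ⟨fun k F a i z => Sum.elim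
      (fun i : I × Bool => cond i.2 (Univ_par (A k i.1) F a (algebraMap K k z))
        (Univ_fin (A k i.1) F a (algebraMap K k z)))
      (fun m : Option ℕ => Univ_loc F (en k F) m (algebraMap K k z)) i,
      fun _ _ _ _ _ => Iff.rfl, fun _ _ _ _ _ => Iff.rfl, fun _ _ _ _ _ => Iff.rfl⟩
  obtain ⟨s, hs1, hs2, hdata⟩ := exists_common2 x P
  have hxinj : Function.Injective x := by
    intro p q hpq
    by_contra hne
    refine hxi {p, q} ⟨p, Finset.mem_insert_self _ _⟩ (x p) ?_
    rw [Finset.prod_pair hne, sq, hpq]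
  obtain ⟨D, hDdef⟩ : ∃ D : ℕ → K, ∀ j, D j = ∏ q ∈ s j, x q := ⟨_, fun _ => rfl⟩
  have hDS : ∀ j, ∏ b ∈ (s j).image x, b = D j := by
    intro j
    rw [Finset.prod_image fun p _ q _ h => hxinj h, hDdef]
  have hD0 : ∀ j, D j ≠ 0 := fun j => by
    rw [hDdef]
    exact Finset.prod_ne_zero_iff.2 fun q _ => hx0 q
  have hDi : ∀ T : Finset ℕ, T.Nonempty → ∀ y : K, y ^ 2 ≠ ∏ j ∈ T, D j := by
    intro T hT y hy
    obtain ⟨j, hj⟩ := hT
    obtain ⟨q, hq⟩ := hs1 j
    refine hxi (T.biUnion s) ⟨q, Finset.mem_biUnion.2 ⟨j, hj, hq⟩⟩ y ?_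
    rw [hy, Finset.prod_biUnion fun j _ k _ hjk => hs2 j k hjk]
    exact Finset.prod_congr rfl fun j _ => hDdef j
  refine ⟨fun j => (s j).image x, ?_, ?_, ?_, ?_⟩
  · intro j z hz
    obtain ⟨q, -, rfl⟩ := Finset.mem_image.1 (Finset.mem_coe.1 hz)
    exact hx1 q
  · intro i j hij
    exact (Finset.disjoint_image hxinj).2 (hs2 i j hij)
  · rintro T hT ⟨y, hy⟩
    simp only [hDS] at hy
    exact hDi T hT y (by rw [sq, hy])
  intro k hk J
  have hkK : FiniteDimensional K k := Module.Finite.of_restrictScalars_finite ℚ K k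
  simp only [hDS]
  -- the data of the fields
  have hD0' : ∀ j, algebraMap K k (D j) ≠ 0 := fun j => by
    rw [Ne, map_eq_zero]
    exact hD0 j
  have hFD : ∀ (F : IntermediateField k (AlgebraicClosure k)) [NumberField F],
      ∃ (n : ℕ) (α φ : F → J → Prop) (κ : F → J → ℕ),
        FieldData (fun i : J => A k i) (fun j => algebraMap K k (D j)) F n α φ κ ∧
        FieldLoc (fun j => algebraMap K k (D j)) F n := by
    intro F hF
    have hFk : FiniteDimensional k F := Module.Finite.of_restrictScalars_finite ℚ k F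
    obtain ⟨α, κ, hα⟩ := hdata k hkK F hFk
    obtain ⟨n, hn⟩ := Univ_shift (K := K) (k := k) (F := F) D hD0 hDi
    have hDp : ∀ T : Finset ℕ, ∏ j ∈ T, ∏ q ∈ s j, x q = ∏ j ∈ T, D j :=
      fun T => Finset.prod_congr rfl fun j _ => (hDdef j).symm
    refine ⟨n, _, _, _, Univ_data (fun i : J => A k i) (fun j => algebraMap K k (D j)) hD0' F n hn
      (fun a i => α a (Sum.inl (i, true))) (fun a i => α a (Sum.inl (i, false)))
      (fun a i => κ a (Sum.inl (i, true))) (fun a i => κ a (Sum.inl (i, false)))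
      (fun a i T hT hj => by
        have h1 := hα a (Sum.inl (i, true)) T hT hj
        rw [hDp, hP1, map_prod] at h1
        exact h1)
      (fun a i T hT hj => by
        have h1 := hα a (Sum.inl (i, false)) T hT hj
        rw [hDp, hP2, map_prod] at h1
        exact h1), ?_⟩
    refine Univ_locdata (fun j => algebraMap K k (D j)) hD0' F n (en k F) (hen k F hF)
      (fun m => α 0 (Sum.inr m)) (fun m => κ 0 (Sum.inr m)) fun m T hT hj => ?_
    have h1 := hα 0 (Sum.inr m) T hT hj
    rw [hDp, hP3, map_prod] at h1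
    exact h1
  obtain ⟨E, hE, hall⟩ := core (fun i : J => A k i) (fun j => algebraMap K k (D j))
    hD0' hFD
  rw [Nat.card_eq_fintype_card, Fintype.card_coe] at hE
  refine ⟨E, hE, fun F hF => ?_⟩
  obtain ⟨E', hE', hall'⟩ := hall F
  rw [Nat.card_eq_fintype_card, Fintype.card_coe] at hE'
  refine ⟨E', hE', fun a => ⟨fun i hi => (hall' a).1 ⟨i, hi⟩, fun ha => ?_, fun ha => ?_⟩⟩
  · obtain ⟨c, h⟩ := (hall' a).2.1 ha
    exact ⟨c, fun i hi => h ⟨i, hi⟩⟩
  · obtain ⟨F₁, h, hnf, hsq, hg⟩ := (hall' a).2.2 ha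
    exact ⟨F₁, h, hnf, hsq, fun i hi => hg ⟨i, hi⟩⟩

end Pool.Agent.H.MP_ac3185_nt.D14
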